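import Pool.Agent.K2L.Defs
import Pool.Agent.KK.Mach

/-!
# The family of orders used for the average (the same as `KK.ords`)
-/

set_option autoImplicit false

open scoped BigOperators

namespace Pool.Agent.K2L

/-- the rank of a line in a list of all lines (outermost first) -/
def rkL {n : ℕ} (o : List (Fin n)) (l : Fin n) : ℕ := o.length - 1 - o.idxOf l

/-- the order as a list (outermost first) -/
def toL : {n : ℕ} → Ord n → List (Fin n)
  | _, .nil => []
  | _, .cons j o => j :: (toL o).map j.succAbove

/-- the twelve orders of six lines -/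
def core6O : List (Ord 6) :=
  [(5, 2, 3, 2, 1), (2, 3, 3, 2, 1), (0, 2, 3, 2, 1), (3, 4, 0, 2, 1), (1, 3, 0, 2, 1),
    (4, 0, 0, 2, 1), (2, 4, 1, 0, 1), (5, 1, 1, 0, 1), (3, 0, 1, 0, 1), (0, 1, 1, 0, 1),
    (4, 1, 2, 1, 0), (1, 2, 2, 1, 0)].map
    fun t : Fin 6 × Fin 5 × Fin 4 × Fin 3 × Fin 2 =>
      .cons t.1 (.cons t.2.1 (.cons t.2.2.1 (.cons t.2.2.2.1 (.cons t.2.2.2.2 (.cons 0 .nil)))))

/-- the orders of `k + 6` lines: the innermost six lines as in `core6O`, the others uniform -/
def ordsO : (k : ℕ) → List (Ord (k + 6))
  | 0 => core6O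
  | k + 1 => (List.finRange (k + 7)).flatMap fun l => (ordsO k).map fun o => Ord.cons l o

theorem toL_length {n : ℕ} (o : Ord n) : (toL o).length = n := by
  induction o with
  | nil => rfl
  | cons j o ih => simp [toL, ih]

theorem mem_toL {n : ℕ} (o : Ord n) (l : Fin n) : l ∈ toL o := by
  induction o with
  | nil => exact l.elim0
  | cons j o ih =>
    rcases Fin.eq_self_or_eq_succAbove j l with h | ⟨l', h⟩
    · subst h; simp [toL]
    · subst h
      simp only [toL, List.mem_cons, List.mem_map]
      exact Or.inr ⟨l', ih l', rfl⟩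

theorem toL_nodup {n : ℕ} (o : Ord n) : (toL o).Nodup := by
  induction o with
  | nil => simp [toL]
  | cons j o ih =>
    simp only [toL, List.nodup_cons, List.mem_map, not_exists, not_and]
    exact ⟨fun x _ h => Fin.succAbove_ne j x h, ih.map Fin.succAbove_right_injective⟩

theorem idxOf_map_inj {α β : Type*} [DecidableEq α] [DecidableEq β] (f : α → β)
    (hf : Function.Injective f) (L : List α) (x : α) : (L.map f).idxOf (f x) = L.idxOf x := by
  induction L with
  | nil => rfl
  | cons a L ih =>
    by_cases h : a = x
    · subst h; simp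
    · have h' : f a ≠ f x := fun h' => h (hf h')
      rw [List.map_cons, List.idxOf_cons_ne _ h', List.idxOf_cons_ne _ h, ih]

theorem rkL_toL {n : ℕ} (o : Ord n) : rkL (toL o) = rk o := by
  induction o with
  | nil => funext l; exact l.elim0
  | cons j o ih =>
    rename_i n
    funext l
    rcases Fin.eq_self_or_eq_succAbove j l with h | ⟨l', h⟩
    · rw [h]
      simp [rkL, toL, rk, toL_length]
    · subst h
      have h1 : rk (Ord.cons j o) (j.succAbove l') = rk o l' := by simp [rk]
      rw [h1, ← ih]
      have hne : j ≠ j.succAbove l' := (Fin.succAbove_ne j l').symm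
      have hlt : (toL o).idxOf l' < (toL o).length := List.idxOf_lt_length_of_mem (mem_toL o l')
      have h2 : (toL (Ord.cons j o)).idxOf (j.succAbove l') = (toL o).idxOf l' + 1 := by
        simp only [toL]
        rw [List.idxOf_cons_ne _ hne, idxOf_map_inj _ Fin.succAbove_right_injective]
      simp only [rkL, h2]
      simp only [toL, List.length_cons, List.length_map]
      omega

theorem rk_injective {n : ℕ} (o : Ord n) : Function.Injective (rk o) := by
  induction o with
  | nil => intro l; exact l.elim0
  | cons j o ih =>
    rename_i n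
    have hlt : ∀ {n : ℕ} (o : Ord n) (l : Fin n), rk o l < n := by
      intro n o l
      rw [← rkL_toL]
      have h1 := toL_length o
      have h2 := List.idxOf_lt_length_of_mem (mem_toL o l)
      simp only [rkL]
      omega
    intro a b hab
    rcases Fin.eq_self_or_eq_succAbove j a with ha | ⟨a', ha⟩ <;>
      rcases Fin.eq_self_or_eq_succAbove j b with hb | ⟨b', hb⟩
    · rw [ha, hb]
    · subst ha; subst hb
      have := hlt o b'
      simp [rk] at hab
      omega
    · subst ha; subst hb
      have := hlt o a'
      simp [rk] at hab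
      omega
    · subst ha; subst hb
      have h1 : rk o a' = rk o b' := by simpa [rk] using hab
      rw [ih h1]

theorem ords_eq (k : ℕ) : KK.ords (k + 6) = (ordsO k).map toL := by
  induction k with
  | zero => decide
  | succ k ih =>
    have h : ¬ (k + 6 + 1 = 6) := by omega
    show KK.ords (k + 6 + 1) = _
    rw [KK.ords, dif_neg h, ih]
    show _ = List.map toL ((List.finRange (k + 7)).flatMap fun l => (ordsO k).map fun o => Ord.cons l o)
    rw [List.map_flatMap]
    apply List.flatMap_congr
    intro l _
    rw [List.map_map, List.map_map]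
    rfl

/-- sum over the family -/
theorem sum_ords (k : ℕ) (F : (Fin (k + 6) → ℕ) → ℤ) :
    ((KK.ords (k + 6)).map fun o => F (rkL o)).sum = ((ordsO k).map fun o => F (rk o)).sum := by
  rw [ords_eq, List.map_map]
  congr 1
  apply List.map_congr_left
  intro o _
  show F (rkL (toL o)) = F (rk o)
  rw [rkL_toL]

end Pool.Agent.K2L
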