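import Mathlib
import Pool.Agent.GRD.Core

/-!
# Kalai's inequality with two-dimensional Gale vectors: definitions

`g : Fin m → ℝ × ℝ` is a sorted planar configuration (`det (g i) (g j) > 0` for `i < j`).
A type is a pair `(r, e)`: `r l` is the rank of the line `l` (larger = further out), `e l` its sign.
-/

set_option autoImplicit false

open scoped BigOperators

namespace Pool.Agent.K2L

/-! ## Combinatorial part (everything decidable) -/

/-- the sign of `det (g i) (g j)`, `i ≠ j` -/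
def chi {m : ℕ} (i j : Fin m) : ℤˣ := if i < j then 1 else -1

/-- the sign of the line `l` at the crossing of the lines `i` and `j` -/
def tau {m : ℕ} (r : Fin m → ℕ) (e : Fin m → ℤˣ) (i j l : Fin m) : ℤˣ :=
  if r i < r l ∧ r j < r l then e l
  else if r j < r i then -(e i * chi j l * chi j i)
  else -(e j * chi i l * chi i j)

/-- on the line `i` the line `k` is crossed before the line `l` -/
def Bef {m : ℕ} (r : Fin m → ℕ) (e : Fin m → ℤˣ) (i k l : Fin m) : Prop :=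
  tau r e i l k = chi i k

instance {m : ℕ} (r : Fin m → ℕ) (e : Fin m → ℤˣ) (i k l : Fin m) : Decidable (Bef r e i k l) :=
  inferInstanceAs (Decidable (tau r e i l k = chi i k))

/-- faces with top at the vertex `(i, σ)` (the coordinate `i` is free); letters: `l` is an `A` on
the line `i` iff `σ l = chi i l` -/
def W1 {m : ℕ} (r : Fin m → ℕ) (e σ : Fin m → ℤˣ) (i : Fin m) : ℕ :=
  1 + (Finset.univ.filter fun Z : Finset (Fin m) => i ∉ Z ∧ (∃ a ∈ Z, σ a = chi i a) ∧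
    (∃ b ∈ Z, σ b ≠ chi i b) ∧
    ∀ a ∈ Z, ∀ b ∈ Z, σ a = chi i a → σ b ≠ chi i b → Bef r e i a b).card

/-- an alternating triple -/
def Alt {m : ℕ} (σ : Fin m → ℤˣ) (a b c : Fin m) : Prop := a < b ∧ b < c ∧ σ a = σ c ∧ σ b ≠ σ a

instance {m : ℕ} (σ : Fin m → ℤˣ) (a b c : Fin m) : Decidable (Alt σ a b c) :=
  inferInstanceAs (Decidable (a < b ∧ b < c ∧ σ a = σ c ∧ σ b ≠ σ a))

/-- the outermost of the three lines has the sign `σ` -/
def OutOK {m : ℕ} (r : Fin m → ℕ) (e σ : Fin m → ℤˣ) (a b c : Fin m) : Prop :=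
  (r b < r a → r c < r a → e a = σ a) ∧ (r a < r b → r c < r b → e b = σ b) ∧
    (r a < r c → r b < r c → e c = σ c)

instance {m : ℕ} (r : Fin m → ℕ) (e σ : Fin m → ℤˣ) (a b c : Fin m) :
    Decidable (OutOK r e σ a b c) :=
  inferInstanceAs (Decidable ((r b < r a → r c < r a → e a = σ a) ∧
    (r a < r b → r c < r b → e b = σ b) ∧ (r a < r c → r b < r c → e c = σ c)))

/-- faces with top at the vertex `σ` (no free coordinate) -/
def W0 {m : ℕ} (r : Fin m → ℕ) (e σ : Fin m → ℤˣ) : ℕ :=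
  1 + (Finset.univ.filter fun Z : Finset (Fin m) => (∃ a ∈ Z, ∃ b ∈ Z, ∃ c ∈ Z, Alt σ a b c) ∧
    ∀ a ∈ Z, ∀ b ∈ Z, ∀ c ∈ Z, Alt σ a b c → OutOK r e σ a b c).card

/-- number of the lines (other than `i`, `j`) whose sign at the crossing of `i`, `j` is `σ` -/
def ag {m : ℕ} (r : Fin m → ℕ) (e σ : Fin m → ℤˣ) (i j : Fin m) : ℕ :=
  (Finset.univ.filter fun l => l ≠ i ∧ l ≠ j ∧ σ l = tau r e i j l).card

/-- number of the tiles on the line `i` touching `0` at the vertex `(i, σ)` which contain the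
shifted point (its side is given by the sign `s`) -/
def b1 {m : ℕ} (r : Fin m → ℕ) (e ξ σ : Fin m → ℤˣ) (i : Fin m) (s : ℤˣ) : ℕ :=
  (Finset.univ.filter fun l => l ≠ i ∧ (∀ k, k ≠ i → k ≠ l → ξ k * tau r e i l k = σ k) ∧
    σ l * chi l i = s).card

/-- number of the tiles with a corner at the vertex `σ` which contain the shifted point (its
direction is given by the signs `h`) -/
def b0 {m : ℕ} (r : Fin m → ℕ) (e ξ σ h : Fin m → ℤˣ) : ℕ :=
  (Finset.univ.filter fun p : Fin m × Fin m => p.1 < p.2 ∧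
    (∀ k, k ≠ p.1 → k ≠ p.2 → ξ k * tau r e p.1 p.2 k = σ k) ∧
    h p.2 = σ p.1 * chi p.1 p.2 ∧ h p.1 = σ p.2 * chi p.2 p.1).card

/-- the weight of `ξ` (probability `2/3` for `+`, times `3 ^ m`) -/
def wt {m : ℕ} (ξ : Fin m → ℤˣ) : ℕ := 2 ^ (Finset.univ.filter fun l => ξ l = 1).card

def C1 {m : ℕ} (r : Fin m → ℕ) (e σ : Fin m → ℤˣ) (i : Fin m) (s : ℤˣ) : ℕ :=
  ∑ ξ : Fin m → ℤˣ, wt ξ * ((b1 r e ξ σ i s + b1 r e ξ (-σ) i (-s)) % 2)

def C0 {m : ℕ} (r : Fin m → ℕ) (e σ h : Fin m → ℤˣ) : ℕ :=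
  ∑ ξ : Fin m → ℤˣ, wt ξ * ((b0 r e ξ σ h + b0 r e ξ (-σ) (-h)) % 2)

/-- nine times the local surplus at a vertex with one free coordinate -/
def X1 {m : ℕ} (r : Fin m → ℕ) (e σ : Fin m → ℤˣ) (i : Fin m) (s : ℤˣ) : ℤ :=
  9 * ((W1 r e σ i : ℤ) + (W1 r e (-σ) i : ℤ)) - (C1 r e σ i s : ℤ)

/-- nine times the local surplus at a vertex without free coordinate -/
def X0 {m : ℕ} (r : Fin m → ℕ) (e σ h : Fin m → ℤˣ) : ℤ :=
  9 * ((W0 r e σ : ℤ) + (W0 r e (-σ) : ℤ)) - (C0 r e σ h : ℤ)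

/-- at most one change of sign -/
def Mono {m : ℕ} (h : Fin m → ℤˣ) : Prop := ∀ i j k : Fin m, i < j → j < k → h i = h k → h j = h i

/-! ## Orders -/

/-- orders of `n` lines: the head is the index of the outermost line, the tail the order of the
other lines -/
inductive Ord : ℕ → Type
  | nil : Ord 0
  | cons {n : ℕ} (j : Fin (n + 1)) (o : Ord n) : Ord (n + 1)

/-- the ranks; the outermost of `n` lines has rank `n - 1` -/
def rk : {n : ℕ} → Ord n → Fin n → ℕ
  | _, .nil => fun _ => 0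
  | _, .cons (n := n) j o => Fin.insertNth (α := fun _ => ℕ) j n (rk o)

/-- the word of the outermost line `j`: the others by slope -/
def near {n : ℕ} (j : Fin (n + 1)) (u : ℤˣ) (σ : Fin (n + 1) → ℤˣ) : List Bool :=
  let w := ((List.finRange (n + 1)).filter (fun l => j < l) ++
    (List.finRange (n + 1)).filter (fun l => l < j)).map (fun l => decide (σ l = chi j l))
  if u = -1 then w else w.reverse

/-- the word of the line `i`: the letters of the other lines in the order in which they are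
crossed -/
def word : {n : ℕ} → Ord n → (Fin n → ℤˣ) → (Fin n → ℤˣ) → Fin n → List Bool
  | _, .nil, _, _ => fun _ => []
  | _, .cons (n := n) j o, e, σ =>
    Fin.insertNth (α := fun _ => List Bool) j (near j (e j) σ) (fun i =>
      if e j = chi (j.succAbove i) j then
        decide (σ j = chi (j.succAbove i) j) ::
          word o (fun k => e (j.succAbove k)) (fun k => σ (j.succAbove k)) i
      else
        word o (fun k => e (j.succAbove k)) (fun k => σ (j.succAbove k)) i ++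
          [decide (σ j = chi (j.succAbove i) j)])

/-- sum over the gaps between equal letters; `prev` is the letter before the gap, `e` the level -/
def sgap (n : ℕ) : Bool → ℕ → List Bool → ℤ
  | _, _, [] => 0
  | prev, e, x :: w => (if prev = x then 2 ^ e + 2 ^ (n - e) else 0) +
      sgap n x (if x then e + 1 else e - 1) w

/-- three times the local surplus of a word (`true` = `A`) -/
def D3 (w : List Bool) : ℤ :=
  sgap w.length (w.getLastD true) (w.count false) w -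
    3 * (2 ^ w.count true + 2 ^ w.count false - 4)

/-- the ten orders used for the five innermost lines -/
def L5 : List (Ord 5) :=
  [(4, 2, 2, 1), (0, 1, 0, 0), (0, 2, 2, 1), (4, 1, 0, 0), (1, 3, 0, 1), (3, 0, 2, 0),
    (2, 0, 0, 1), (2, 3, 2, 0), (3, 1, 1, 0), (1, 2, 1, 1)].map
    fun t : Fin 5 × Fin 4 × Fin 3 × Fin 2 =>
      .cons t.1 (.cons t.2.1 (.cons t.2.2.1 (.cons t.2.2.2 (.cons 0 .nil))))

/-- the twenty-four orders used for six lines -/
def L6 : List (Ord 6) :=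
  [(5, 2, 3, 2, 1), (0, 2, 0, 0, 0), (0, 2, 3, 2, 1), (5, 2, 0, 0, 0), (1, 3, 0, 2, 1),
    (4, 1, 3, 0, 0), (2, 4, 1, 0, 1), (3, 0, 2, 2, 0), (3, 0, 1, 0, 1), (2, 4, 2, 2, 0),
    (4, 1, 2, 1, 0), (1, 3, 1, 1, 1), (4, 2, 3, 2, 1), (1, 2, 0, 0, 0), (5, 3, 0, 2, 1),
    (0, 1, 3, 0, 0), (0, 3, 0, 2, 1), (5, 1, 3, 0, 0), (1, 4, 1, 0, 1), (4, 0, 2, 2, 0),
    (2, 0, 1, 0, 1), (3, 4, 2, 2, 0), (3, 1, 2, 1, 0), (2, 3, 1, 1, 1)].map
    fun t : Fin 6 × Fin 5 × Fin 4 × Fin 3 × Fin 2 =>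
      .cons t.1 (.cons t.2.1 (.cons t.2.2.1 (.cons t.2.2.2.1 (.cons t.2.2.2.2 (.cons 0 .nil)))))

/-- sum over the orders of six lines in `L6` -/
def S6 (F : Ord 6 → ℤ) : ℤ := (L6.map F).sum

/-- sum over the orders of `n ≥ 5` lines: the five innermost ones as in `L5`, the outer ones
arbitrary -/
def SB : (n : ℕ) → (Ord n → ℤ) → ℤ
  | 0, _ => 0
  | 1, _ => 0
  | 2, _ => 0
  | 3, _ => 0
  | 4, _ => 0
  | 5, F => (L5.map F).sum
  | n + 6, F => ∑ j : Fin (n + 6), SB (n + 5) (fun o => F (.cons j o))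

/-! ## Geometric part -/

noncomputable section

/-- the determinant of two plane vectors -/
def dt (a b : ℝ × ℝ) : ℝ := a.1 * b.2 - a.2 * b.1

/-- sorted configuration -/
def Sorted {m : ℕ} (g : Fin m → ℝ × ℝ) : Prop := ∀ i j : Fin m, i < j → 0 < dt (g i) (g j)

/-- real value of a sign -/
def sr (u : ℤˣ) : ℝ := ((u : ℤ) : ℝ)

/-- `0` lies in the open tile `(i, j)` with the signs `σ` -/
def Prop2 {m : ℕ} (g : Fin m → ℝ × ℝ) (i j : Fin m) (σ : Fin m → ℤˣ) : Prop :=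
  ∃ a b : ℝ, |a| < 1 ∧ |b| < 1 ∧
    a • g i + b • g j + ∑ k ∈ Finset.univ.filter (fun k => k ≠ i ∧ k ≠ j), sr (σ k) • g k = 0

/-- `0` lies in the open edge `i` with the signs `σ` -/
def Tie1 {m : ℕ} (g : Fin m → ℝ × ℝ) (i : Fin m) (σ : Fin m → ℤˣ) : Prop :=
  ∃ a : ℝ, |a| < 1 ∧ a • g i + ∑ k ∈ Finset.univ.erase i, sr (σ k) • g k = 0

/-- the vertex with the signs `σ` is `0` -/
def Tie0 {m : ℕ} (g : Fin m → ℝ × ℝ) (σ : Fin m → ℤˣ) : Prop := ∑ k, sr (σ k) • g k = 0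

open scoped Classical in
/-- the number of the cells of the cube met by the relations of `g` -/
def NG {m : ℕ} (g : Fin m → ℝ × ℝ) : ℕ :=
  (Finset.univ.filter fun s : Fin m → ZMod 3 =>
    ∃ y : Fin m → ℝ, ∑ k, y k • g k = 0 ∧ GRD.Cell s y).card

open scoped Classical in
/-- number of the open tiles containing `0` -/
def n2 {m : ℕ} (g : Fin m → ℝ × ℝ) (r : Fin m → ℕ) (e ξ : Fin m → ℤˣ) : ℕ :=
  (Finset.univ.filter fun p : Fin m × Fin m => p.1 < p.2 ∧
    Prop2 g p.1 p.2 (fun k => ξ k * tau r e p.1 p.2 k)).card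

open scoped Classical in
/-- number of the tiles touching `0` at an edge which contain the shifted point -/
def n1 {m : ℕ} (g : Fin m → ℝ × ℝ) (r : Fin m → ℕ) (e ξ : Fin m → ℤˣ)
    (s : Fin m → (Fin m → ℤˣ) → ℤˣ) : ℕ :=
  ∑ i : Fin m, ∑ σ ∈ Finset.univ.filter (fun σ : Fin m → ℤˣ => σ i = 1 ∧ Tie1 g i σ),
    b1 r e ξ σ i (s i σ)

open scoped Classical in
/-- number of the tiles touching `0` at a corner which contain the shifted point -/
def n0 {m : ℕ} (g : Fin m → ℝ × ℝ) (r : Fin m → ℕ) (e ξ : Fin m → ℤˣ)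
    (h : (Fin m → ℤˣ) → (Fin m → ℤˣ)) : ℕ :=
  ∑ σ ∈ Finset.univ.filter (fun σ : Fin m → ℤˣ => Tie0 g σ), b0 r e ξ σ (h σ)

/-- admissible data for the infinitesimal shift at the ties -/
structure Shift {m : ℕ} (s : Fin m → (Fin m → ℤˣ) → ℤˣ) (h : (Fin m → ℤˣ) → (Fin m → ℤˣ)) :
    Prop where
  s_neg : ∀ i σ, s i (-σ) = - s i σ
  s_inv : ∀ i σ σ', (∀ k, k ≠ i → σ k = σ' k) → s i σ = s i σ'
  h_neg : ∀ σ, h (-σ) = - h σ
  h_mono : ∀ σ, Mono (h σ)

end

end Pool.Agent.K2L
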