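import Pool.Agent.KK.T0All
import Pool.Agent.KK.Glue0
import Pool.Agent.KK.Flat
import Pool.Agent.KK.T0W
import Pool.Agent.KK.SpFree

set_option autoImplicit false
open scoped BigOperators

namespace Pool.Agent.KK

open Finset

theorem coc_cc' {n : ℕ} {σ h : Fin n → ℤˣ} (hh : K2L.Mono h) : Coc (cc σ h) (bo σ) :=
  ⟨cc_symm σ h, fun _ _ _ hij hjk => cc_tri hh hij hjk⟩

theorem X0_eq' {n : ℕ} {r : Fin n → ℕ} {e σ : Fin n → ℤˣ} (h : Fin n → ℤˣ) {L : List (Fin n × Bool)}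
    (hL : SortList r e σ L) : K2L.X0 r e σ h = D (cc σ h) (bo σ) L :=
  X0_eq h hL (W0_eq hL) (W0_neg_of (fun σ' L' hL' => W0_eq hL') hL)

theorem avg0_nonneg {m : ℕ} (hm : 6 ≤ m) (σ h : Fin m → ℤˣ) (hh : K2L.Mono h) :
    0 ≤ ((_root_.KK.ords m).map fun o => ∑ e : Fin m → ℤˣ, K2L.X0 (K2L.rkL o) e σ h).sum := by
  have hc := coc_cc' (σ := σ) hh
  have h2 := EL_eq_sum hm σ (fun L => D (cc σ h) (bo σ) L) (fun r e => K2L.X0 r e σ h)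
    (fun r e L _ hL => X0_eq' h hL)
  rw [← h2]
  obtain ⟨k, rfl⟩ : ∃ k, m = k + 6 := ⟨m - 6, by omega⟩
  exact _root_.KK.T0_all k (KL (k + 6)) (bo σ) (mach hc (sp_free (bo σ)))
    (fun S w hw _ hS => hflat hc (sp_free (bo σ)) S w hw hS)

end Pool.Agent.KK

namespace Pool.Agent.K2L

theorem avg0 {m : ℕ} (hm : 6 ≤ m) (σ h : Fin m → ℤˣ) (hh : Mono h) (_ha : ∃ a b c, Alt σ a b c) :
    0 ≤ ((_root_.KK.ords m).map fun o => ∑ e : Fin m → ℤˣ, X0 (rkL o) e σ h).sum :=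
  Pool.Agent.KK.avg0_nonneg hm σ h hh

end Pool.Agent.K2L
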