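import Mathlib

/-!
# Type 1 base cases: the computable side

Words of letters (`true` = `A`), the sum over the gaps between equal letters, and an evaluation of
the sum over all sides of the outer lines, all in `ℕ`.
-/

set_option autoImplicit false

namespace Pool.Agent.K2L.B1

/-- gaps between equal letters; the levels are `a` and `b` -/
def G : Bool → ℕ → ℕ → List Bool → ℕ
  | _, _, _, [] => 0
  | y, a, b, true :: w => cond y (2 ^ a + 2 ^ b) 0 + G true (a + 1) (b - 1) w
  | y, a, b, false :: w => cond y 0 (2 ^ a + 2 ^ b) + G false (a - 1) (b + 1) w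

/-- the functional: `al` times the inner gaps plus a term depending on the first and the last letter -/
def Phi (al p q m z A B : ℕ) : List Bool → ℕ
  | [] => z
  | true :: t => al * G true (B + 1) (A - 1) t + cond (t.getLastD true) p m
  | false :: t => al * G false (B - 1) (A + 1) t + cond (t.getLastD false) m q

/-- the sum of the functional over all words of the line `i` -/
def val : List ℕ → List Bool → ℕ → ℕ → ℕ → ℕ → ℕ → ℕ → ℕ → ℕ → ℕ
  | [], _, _, _, _, _, _, _, _, _ => 0
  | j :: o, c, i, A, B, al, p, q, m, z =>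
    cond (Nat.beq i j)
      (2 ^ o.length * (Phi al p q m z A B (c.drop (j + 1) ++ c.take j) +
        Phi al p q m z A B (c.drop (j + 1) ++ c.take j).reverse))
      (cond (c.getD j false)
        (val o (c.eraseIdx j) (cond (Nat.blt i j) i (i - 1)) (A - 1) B (3 * al)
          (2 * (p + al * (2 ^ (A - 1) + 2 ^ (B + 1)))) (2 * m)
          (p + m + al * (2 ^ (A - 1) + 2 ^ (B + 1))) (2 * p))
        (val o (c.eraseIdx j) (cond (Nat.blt i j) i (i - 1)) A (B - 1) (3 * al)
          (2 * m) (2 * (q + al * (2 ^ (A + 1) + 2 ^ (B - 1))))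
          (q + m + al * (2 ^ (A + 1) + 2 ^ (B - 1))) (2 * q)))

/-- all lists of length `n` -/
def bools : ℕ → List (List Bool)
  | 0 => [[]]
  | n + 1 => (bools n).map (fun l => true :: l) ++ (bools n).map (fun l => false :: l)

theorem mem_bools (l : List Bool) : l ∈ bools l.length := by
  induction l with
  | nil => simp [bools]
  | cons a l ih => cases a <;> simp [bools, ih]

/-- the twelve core orders -/
def core : List (List ℕ) :=
  [[5, 2, 3, 2, 1, 0], [2, 3, 3, 2, 1, 0], [0, 2, 3, 2, 1, 0], [3, 4, 0, 2, 1, 0],
    [1, 3, 0, 2, 1, 0], [4, 0, 0, 2, 1, 0], [2, 4, 1, 0, 1, 0], [5, 1, 1, 0, 1, 0],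
    [3, 0, 1, 0, 1, 0], [0, 1, 1, 0, 1, 0], [4, 1, 2, 1, 0, 0], [1, 2, 2, 1, 0, 0]]

def tot (os : List (List ℕ)) (c : List Bool) (i A B L : ℕ) : ℕ :=
  os.foldr (fun o s => val o c i A B 1 L L 0 0 + s) 0

/-- the check for one word and one line -/
def chk (os : List (List ℕ)) (N : ℕ) (c : List Bool) (i : ℕ) : Bool :=
  c.getD i false || Nat.ble (3 * N * (2 ^ (c.count true) + 2 ^ (c.count false - 1)))
    (tot os c i (c.count true) (c.count false - 1)
      (2 ^ (c.count true) + 2 ^ (c.count false - 1)) + 12 * N)

def chkAll (os : List (List ℕ)) (N n : ℕ) : Bool :=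
  (bools n).all fun c => (List.range n).all fun i => chk os N c i

def core7 : List (List ℕ) := (List.range 7).flatMap fun j => core.map fun o => j :: o


set_option maxRecDepth 100000 in
theorem chk6 : chkAll core (12 * 64) 6 = true := by decide +kernel


set_option maxRecDepth 100000 in
theorem chk7 : chkAll core7 (84 * 128) 7 = true := by decide +kernel

end Pool.Agent.K2L.B1
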