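import Pool.Agent.K2L.Law
import Pool.Agent.K2L.Base1C

/-!
# Type 1 base cases
-/

set_option autoImplicit false

open scoped BigOperators

namespace Pool.Agent.K2L

namespace B1

theorem sgap_eq (n : ℕ) (w : List Bool) : ∀ (y : Bool) (e : ℕ), e ≤ n → w.count false ≤ e →
    w.count true ≤ n - e → sgap n y e w = (G y e (n - e) w : ℤ) := by
  induction w with
  | nil => intro y e _ _ _; simp [sgap, G]
  | cons x w ih =>
    intro y e he hf ht
    cases x
    · simp only [List.count_cons] at hf ht
      simp only [beq_self_eq_true, if_true] at hf ht
      have h1 : (if (false == true) = true then 1 else 0) = 0 := by decide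
      rw [h1] at ht
      have h2 := ih false (e - 1) (by omega) (by omega) (by omega)
      simp only [sgap, G]
      rw [show (if (false : Bool) = true then e + 1 else e - 1) = e - 1 by simp, h2]
      rw [show n - (e - 1) = n - e + 1 by omega]
      cases y <;> simp
    · simp only [List.count_cons] at hf ht
      simp only [beq_self_eq_true, if_true] at hf ht
      have h1 : (if (true == false) = true then 1 else 0) = 0 := by decide
      rw [h1] at hf
      have h2 := ih true (e + 1) (by omega) (by omega) (by omega)
      simp only [sgap, G, if_true]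
      rw [h2]
      rw [show n - (e + 1) = n - e - 1 by omega]
      cases y <;> simp

theorem G_shift (w : List Bool) : ∀ (y : Bool) (a b : ℕ), w.count false ≤ a → w.count true ≤ b →
    G y (a + 1) b w + G y a (b + 1) w = 3 * G y a b w := by
  induction w with
  | nil => intro y a b _ _; simp [G]
  | cons x w ih =>
    intro y a b hf ht
    cases x
    · simp only [List.count_cons, beq_self_eq_true, if_true] at hf ht
      have h1 : (if (false == true) = true then 1 else 0) = 0 := by decide
      rw [h1] at ht
      obtain ⟨a', rfl⟩ : ∃ a', a = a' + 1 := ⟨a - 1, by omega⟩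
      have h2 := ih false a' (b + 1) (by omega) (by omega)
      simp only [G, Nat.add_sub_cancel] at *
      cases y <;> simp only [cond_true, cond_false, pow_succ] <;> omega
    · simp only [List.count_cons, beq_self_eq_true, if_true] at hf ht
      have h1 : (if (true == false) = true then 1 else 0) = 0 := by decide
      rw [h1] at hf
      obtain ⟨b', rfl⟩ : ∃ b', b = b' + 1 := ⟨b - 1, by omega⟩
      have h2 := ih true (a + 1) b' (by omega) (by omega)
      simp only [G, Nat.add_sub_cancel] at *
      cases y <;> simp only [cond_true, cond_false, pow_succ] <;> omega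

theorem G_append (w : List Bool) (x : Bool) : ∀ (y : Bool) (a b : ℕ), w.count false ≤ a →
    w.count true ≤ b → G y a b (w ++ [x]) = G y a b w +
      G (w.getLastD y) (a + w.count true - w.count false) (b + w.count false - w.count true) [x] := by
  induction w with
  | nil => intro y a b _ _; simp [G]
  | cons z w ih =>
    intro y a b hf ht
    cases z
    · simp only [List.count_cons, beq_self_eq_true, if_true] at hf ht
      have h1 : (if (false == true) = true then 1 else 0) = 0 := by decide
      rw [h1] at ht
      have h2 := ih false (a - 1) (b + 1) (by omega) (by omega)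
      rw [List.cons_append]
      simp only [G.eq_3, h2, List.getLastD_cons, List.count_cons, beq_self_eq_true, if_true, h1]
      rw [show a - 1 + w.count true - w.count false = a + (w.count true + 0) - (w.count false + 1) by omega,
        show b + 1 + w.count false - w.count true = b + (w.count false + 1) - (w.count true + 0) by omega]
      omega
    · simp only [List.count_cons, beq_self_eq_true, if_true] at hf ht
      have h1 : (if (true == false) = true then 1 else 0) = 0 := by decide
      rw [h1] at hf
      have h2 := ih true (a + 1) (b - 1) (by omega) (by omega)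
      rw [List.cons_append]
      simp only [G.eq_2, h2, List.getLastD_cons, List.count_cons, beq_self_eq_true, if_true, h1]
      rw [show a + 1 + w.count true - w.count false = a + (w.count true + 1) - (w.count false + 0) by omega,
        show b - 1 + w.count false - w.count true = b + (w.count false + 0) - (w.count true + 1) by omega]
      omega

theorem D3_eq (w : List Bool) (A B : ℕ) (hA : w.count true = A) (hB : w.count false = B)
    (hw : w ≠ []) :
    D3 w = (Phi 1 (2 ^ A + 2 ^ B) (2 ^ A + 2 ^ B) 0 0 A B w : ℤ) - 3 * (2 ^ A + 2 ^ B - 4) := by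
  have hlen : w.length = A + B := by
    rw [← hA, ← hB, ← List.count_false_add_count_true, add_comm]
  have h1 := sgap_eq w.length w (w.getLastD true) (w.count false) (by omega) le_rfl (by omega)
  unfold D3
  rw [h1, hA, hB, hlen, show A + B - B = A by omega]
  congr 1
  cases w with
  | nil => exact absurd rfl hw
  | cons x t =>
    cases x
    · simp only [G, Phi, List.getLastD_cons, one_mul]
      cases t.getLastD false <;> simp <;> ring
    · simp only [G, Phi, List.getLastD_cons, one_mul]
      cases t.getLastD true <;> simp <;> ring

theorem step_true (al p q m z A B : ℕ) (w : List Bool) (hA : w.count true = A)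
    (hB : w.count false = B) :
    Phi al p q m z (A + 1) B (true :: w) + Phi al p q m z (A + 1) B (w ++ [true]) =
      Phi (3 * al) (2 * (p + al * (2 ^ A + 2 ^ (B + 1)))) (2 * m)
        (p + m + al * (2 ^ A + 2 ^ (B + 1))) (2 * p) A B w := by
  cases w with
  | nil =>
    simp [Phi, G]
    ring
  | cons x t =>
    cases x
    · simp only [List.count_cons, beq_self_eq_true, if_true] at hA hB
      have h1 : (if (false == true) = true then 1 else 0) = 0 := by decide
      rw [h1] at hA
      obtain ⟨B', rfl⟩ : ∃ B', B = B' + 1 := ⟨B - 1, by omega⟩
      have h2 := G_shift t false B' (A + 1) (by omega) (by omega)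
      have h3 := G_append t true false B' (A + 1 + 1) (by omega) (by omega)
      rw [show B' + t.count true - t.count false = A by omega,
        show A + 1 + 1 + t.count false - t.count true = B' + 2 by omega] at h3
      rw [List.cons_append]
      simp only [Phi, List.getLastD_cons, G.eq_3, Nat.add_sub_cancel, h3, List.getLastD_concat,
        cond_true]
      cases t.getLastD false
      · simp only [cond_false, cond_true, G, add_zero]
        have : al * (0 + G false (B' + 1) (A + 1) t) + m + (al * G false B' (A + 1 + 1) t + m) =
          al * (G false (B' + 1) (A + 1) t + G false B' (A + 1 + 1) t) + 2 * m := by ring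
        rw [this, h2]; ring
      · simp only [cond_false, cond_true, G, add_zero]
        have : al * (0 + G false (B' + 1) (A + 1) t) + p +
            (al * (G false B' (A + 1 + 1) t + (2 ^ A + 2 ^ (B' + 2))) + m) =
          al * (G false (B' + 1) (A + 1) t + G false B' (A + 1 + 1) t) + p + m +
            al * (2 ^ A + 2 ^ (B' + 2)) := by ring
        rw [this, h2]; ring
    · simp only [List.count_cons, beq_self_eq_true, if_true] at hA hB
      have h1 : (if (true == false) = true then 1 else 0) = 0 := by decide
      rw [h1] at hB
      obtain ⟨A', rfl⟩ : ∃ A', A = A' + 1 := ⟨A - 1, by omega⟩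
      have h2 := G_shift t true (B + 1) A' (by omega) (by omega)
      have h3 := G_append t true true (B + 1) (A' + 1) (by omega) (by omega)
      rw [show B + 1 + t.count true - t.count false = A' + 1 by omega,
        show A' + 1 + t.count false - t.count true = B + 1 by omega] at h3
      rw [List.cons_append]
      simp only [Phi, List.getLastD_cons, G.eq_2, Nat.add_sub_cancel, h3, List.getLastD_concat,
        cond_true]
      cases t.getLastD true
      · simp only [cond_false, cond_true, G, add_zero]
        have : al * (2 ^ (B + 1) + 2 ^ (A' + 1) + G true (B + 1 + 1) A' t) + m +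
            (al * G true (B + 1) (A' + 1) t + p) =
          al * (G true (B + 1 + 1) A' t + G true (B + 1) (A' + 1) t) + p + m +
            al * (2 ^ (A' + 1) + 2 ^ (B + 1)) := by ring
        rw [this, h2]; ring
      · simp only [cond_false, cond_true, G, add_zero]
        have : al * (2 ^ (B + 1) + 2 ^ (A' + 1) + G true (B + 1 + 1) A' t) + p +
            (al * (G true (B + 1) (A' + 1) t + (2 ^ (A' + 1) + 2 ^ (B + 1))) + p) =
          al * (G true (B + 1 + 1) A' t + G true (B + 1) (A' + 1) t) + 2 * p +
            2 * (al * (2 ^ (A' + 1) + 2 ^ (B + 1))) := by ring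
        rw [this, h2]; ring

theorem step_false (al p q m z A B : ℕ) (w : List Bool) (hA : w.count true = A)
    (hB : w.count false = B) :
    Phi al p q m z A (B + 1) (false :: w) + Phi al p q m z A (B + 1) (w ++ [false]) =
      Phi (3 * al) (2 * m) (2 * (q + al * (2 ^ (A + 1) + 2 ^ B)))
        (q + m + al * (2 ^ (A + 1) + 2 ^ B)) (2 * q) A B w := by
  cases w with
  | nil =>
    simp [Phi, G]
    ring
  | cons x t =>
    cases x
    · simp only [List.count_cons, beq_self_eq_true, if_true] at hA hB
      have h1 : (if (false == true) = true then 1 else 0) = 0 := by decide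
      rw [h1] at hA
      obtain ⟨B', rfl⟩ : ∃ B', B = B' + 1 := ⟨B - 1, by omega⟩
      have h2 := G_shift t false B' (A + 1) (by omega) (by omega)
      have h3 := G_append t false false (B' + 1) (A + 1) (by omega) (by omega)
      rw [show B' + 1 + t.count true - t.count false = A + 1 by omega,
        show A + 1 + t.count false - t.count true = B' + 1 by omega] at h3
      rw [List.cons_append]
      simp only [Phi, List.getLastD_cons, G.eq_3, Nat.add_sub_cancel, h3, List.getLastD_concat,
        cond_false]
      cases t.getLastD false
      · simp only [cond_false, cond_true, G, add_zero]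
        nlinarith [h2]
      · simp only [cond_false, cond_true, G, add_zero]
        nlinarith [h2]
    · simp only [List.count_cons, beq_self_eq_true, if_true] at hA hB
      have h1 : (if (true == false) = true then 1 else 0) = 0 := by decide
      rw [h1] at hB
      obtain ⟨A', rfl⟩ : ∃ A', A = A' + 1 := ⟨A - 1, by omega⟩
      have h2 := G_shift t true (B + 1) A' (by omega) (by omega)
      have h3 := G_append t false true (B + 1 + 1) A' (by omega) (by omega)
      rw [show B + 1 + 1 + t.count true - t.count false = A' + 2 by omega,
        show A' + t.count false - t.count true = B by omega] at h3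
      rw [List.cons_append]
      simp only [Phi, List.getLastD_cons, G.eq_2, Nat.add_sub_cancel, h3, List.getLastD_concat,
        cond_false]
      cases t.getLastD true
      · simp only [cond_false, cond_true, G, add_zero]
        nlinarith [h2]
      · simp only [cond_false, cond_true, G, add_zero]
        nlinarith [h2]

/-- the heads of an order -/
def idx : {n : ℕ} → Ord n → List ℕ
  | _, .nil => []
  | _, .cons j o => j.val :: idx o

theorem idx_length {n : ℕ} (o : Ord n) : (idx o).length = n := by
  induction o with
  | nil => rfl
  | cons j o ih => simp [idx, ih]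

theorem eraseIdx_fin : ∀ n ≤ 6, ∀ j : Fin (n + 1), (List.finRange (n + 1)).eraseIdx j =
    (List.finRange n).map j.succAbove := by decide

theorem filter_fin : ∀ n ≤ 6, ∀ j : Fin (n + 1),
    (List.finRange (n + 1)).filter (fun l => j < l) ++ (List.finRange (n + 1)).filter (fun l => l < j) =
      (List.finRange (n + 1)).drop (j + 1) ++ (List.finRange (n + 1)).take j := by decide

theorem count_erase {n : ℕ} (f : Fin n → Bool) (j : Fin n) (x : Bool) :
    ((List.finRange n).map f).count x =
      (((List.finRange n).map f).eraseIdx j).count x + if f j = x then 1 else 0 := by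
  have h1 : (j : ℕ) < ((List.finRange n).map f).length := by simp
  have h2 := (List.getElem_cons_eraseIdx_perm h1).count_eq x
  rw [← h2, List.count_cons]
  congr 1
  simp

theorem chi_succAbove {n : ℕ} (j : Fin (n + 1)) (a b : Fin n) :
    chi (j.succAbove a) (j.succAbove b) = chi a b := by
  simp [chi, Fin.succAbove_lt_succAbove_iff]

theorem sum_units (f : ℤˣ → ℤ) : ∑ u, f u = f 1 + f (-1) := by
  rw [UnitsInt.univ]; rw [Finset.sum_pair (by decide)]

theorem sum_cons {n : ℕ} (j : Fin (n + 1)) (o : Ord n) (σ : Fin (n + 1) → ℤˣ) (i : Fin (n + 1))
    (F : List Bool → ℤ) :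
    ∑ e : Fin (n + 1) → ℤˣ, F (word (.cons j o) e σ i) =
      ∑ u : ℤˣ, ∑ e : Fin n → ℤˣ, F (word (.cons j o) (Fin.insertNth (α := fun _ => ℤˣ) j u e) σ i) := by
  rw [← Fintype.sum_prod_type']
  exact (Equiv.sum_comp (Fin.insertNthEquiv (fun _ => ℤˣ) j)
    (fun e => F (word (.cons j o) e σ i))).symm

theorem sum_same {n : ℕ} (j : Fin (n + 1)) (o : Ord n) (σ : Fin (n + 1) → ℤˣ)
    (F : List Bool → ℤ) :
    ∑ e : Fin (n + 1) → ℤˣ, F (word (.cons j o) e σ j) =
      2 ^ n * (F (near j (-1) σ) + F (near j (-1) σ).reverse) := by
  rw [sum_cons, sum_units]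
  have h1 : near j 1 σ = (near j (-1) σ).reverse := by
    have : ¬ ((1 : ℤˣ) = -1) := by decide
    simp [near, this]
  have h2 : ∀ (u : ℤˣ) (e : Fin n → ℤˣ),
      word (.cons j o) (Fin.insertNth (α := fun _ => ℤˣ) j u e) σ j = near j u σ := by
    intro u e
    simp only [word, Fin.insertNth_apply_same]
  simp only [h2, h1, Finset.sum_const, Finset.card_univ, Fintype.card_fun, Fintype.card_fin,
    nsmul_eq_mul]
  rw [show Fintype.card ℤˣ = 2 from rfl]
  push_cast
  ring

theorem sum_other {n : ℕ} (j : Fin (n + 1)) (o : Ord n) (σ : Fin (n + 1) → ℤˣ) (i : Fin n)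
    (F : List Bool → ℤ) :
    ∑ e : Fin (n + 1) → ℤˣ, F (word (.cons j o) e σ (j.succAbove i)) =
      ∑ e : Fin n → ℤˣ, (F (decide (σ j = chi (j.succAbove i) j) ::
          word o e (fun k => σ (j.succAbove k)) i) +
        F (word o e (fun k => σ (j.succAbove k)) i ++ [decide (σ j = chi (j.succAbove i) j)])) := by
  rw [sum_cons, sum_units]
  have h2 : ∀ (u : ℤˣ) (e : Fin n → ℤˣ),
      word (.cons j o) (Fin.insertNth (α := fun _ => ℤˣ) j u e) σ (j.succAbove i) =
        if u = chi (j.succAbove i) j then
          decide (σ j = chi (j.succAbove i) j) :: word o e (fun k => σ (j.succAbove k)) i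
        else word o e (fun k => σ (j.succAbove k)) i ++ [decide (σ j = chi (j.succAbove i) j)] := by
    intro u e
    simp only [word, Fin.insertNth_apply_same, Fin.insertNth_apply_succAbove]
  simp only [h2]
  rw [← Finset.sum_add_distrib]
  apply Finset.sum_congr rfl
  intro e _
  rcases Int.units_eq_one_or (chi (j.succAbove i) j) with h | h
  · rw [h, if_pos rfl, if_neg (by decide)]
  · rw [h, if_neg (by decide), if_pos rfl, add_comm]

theorem sound {n : ℕ} (o : Ord n) : n ≤ 7 → ∀ (σ : Fin n → ℤˣ) (i : Fin n) (f : Fin n → Bool),
    (∀ l, l ≠ i → f l = decide (σ l = chi i l)) → f i = false → ∀ A B : ℕ,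
    ((List.finRange n).map f).count true = A → ((List.finRange n).map f).count false = B + 1 →
    ∀ (al p q m z : ℕ) (F : List Bool → ℤ),
    (∀ w, w.count true = A → w.count false = B → F w = (Phi al p q m z A B w : ℤ)) →
    ∑ e : Fin n → ℤˣ, F (word o e σ i) =
      (val (idx o) ((List.finRange n).map f) i A B al p q m z : ℤ) := by
  induction o with
  | nil => intro _ _ i; exact i.elim0
  | cons j o ih =>
    rename_i n
    intro hn σ i f hf hi A B hA hB al p q m z F hF
    rcases Fin.eq_self_or_eq_succAbove j i with h | ⟨i', h⟩
    · subst h
      rw [sum_same]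
      have hnear : near i (-1) σ = ((List.finRange (n + 1)).map f).drop (i + 1) ++
          ((List.finRange (n + 1)).map f).take i := by
        simp only [near, if_true]
        have h1 := filter_fin n (by omega) i
        rw [← List.map_drop, ← List.map_take, ← List.map_append, ← h1]
        apply List.map_congr_left
        intro l hl
        rw [hf l]
        rintro rfl
        simp at hl
      have hc : ∀ x, (near i (-1) σ).count x = (((List.finRange (n + 1)).map f).eraseIdx i).count x := by
        intro x
        rw [hnear, List.eraseIdx_eq_take_drop_succ, List.count_append, List.count_append, add_comm]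
      have hcA : (near i (-1) σ).count true = A := by
        have := count_erase f i true
        rw [hc, hi] at *
        simp at this
        omega
      have hcB : (near i (-1) σ).count false = B := by
        have := count_erase f i false
        rw [hc, hi] at *
        simp at this
        omega
      rw [hF _ hcA hcB, hF _ (by rw [List.count_reverse]; exact hcA)
        (by rw [List.count_reverse]; exact hcB)]
      have hv : Nat.beq (i : ℕ) (i : ℕ) = true := by simp
      simp only [idx, val, hv, cond_true, idx_length]
      rw [hnear]
      push_cast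
      ring
    · subst h
      rw [sum_other]
      have hb : Nat.beq ((j.succAbove i' : Fin (n + 1)) : ℕ) (j : ℕ) = false := by
        rw [← Bool.not_eq_true, Nat.beq_eq]
        intro h
        exact Fin.succAbove_ne j i' (Fin.ext h)
      have hi' : cond (Nat.blt ((j.succAbove i' : Fin (n + 1)) : ℕ) (j : ℕ))
          ((j.succAbove i' : Fin (n + 1)) : ℕ) (((j.succAbove i' : Fin (n + 1)) : ℕ) - 1) = (i' : ℕ) := by
        by_cases hlt : i'.castSucc < j
        · rw [Fin.succAbove_of_castSucc_lt _ _ hlt]
          have : Nat.blt (i'.castSucc : ℕ) (j : ℕ) = true := by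
            rw [Nat.blt_eq]; exact hlt
          rw [this]; simp
        · rw [Fin.succAbove_of_le_castSucc _ _ (not_lt.mp hlt)]
          have h2 : (j : ℕ) ≤ i' := by
            have := not_lt.mp hlt
            exact this
          have : Nat.blt (i'.succ : ℕ) (j : ℕ) = false := by
            rw [← Bool.not_eq_true, Nat.blt_eq]; simp; omega
          rw [this]; simp
      have hgetD : ((List.finRange (n + 1)).map f).getD j false = f j := by
        rw [List.getD_eq_getElem _ _ (by simp; omega)]; simp
      have her : ((List.finRange (n + 1)).map f).eraseIdx j =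
          (List.finRange n).map (fun l => f (j.succAbove l)) := by
        rw [List.eraseIdx_map, eraseIdx_fin n (by omega) j, List.map_map]
        rfl
      have hx : decide (σ j = chi (j.succAbove i') j) = f j := (hf j (Fin.ne_succAbove j i')).symm
      have hcT := count_erase f j true
      have hcF := count_erase f j false
      rw [her] at hcT hcF
      simp only [idx, val, hb, cond_false, hi', hgetD, her, hx]
      cases hfj : f j
      · rw [hfj] at hcT hcF
        simp at hcT hcF
        have hB1 : 1 ≤ B := by
          have h3 := count_erase (fun l => f (j.succAbove l)) i' false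
          rw [hi] at h3
          simp at h3
          omega
        obtain ⟨B', rfl⟩ : ∃ B', B = B' + 1 := ⟨B - 1, by omega⟩
        simp only [cond_false, Nat.add_sub_cancel]
        refine ih (by omega) (fun k => σ (j.succAbove k)) i' (fun l => f (j.succAbove l)) ?_ hi A B'
          (by omega) (by omega) _ _ _ _ _ (fun w => F (false :: w) + F (w ++ [false])) ?_
        · intro l hl
          show f (j.succAbove l) = _
          rw [hf _ (fun h => hl (Fin.succAbove_right_injective h)), chi_succAbove]
        · intro w hwA hwB
          show F (false :: w) + F (w ++ [false]) = _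
          rw [hF _ (by simp [hwA]) (by simp [hwB]),
            hF _ (by simp [hwA]) (by simp [hwB])]
          have := step_false al p q m z A B' w hwA hwB
          exact_mod_cast this
      · rw [hfj] at hcT hcF
        simp at hcT hcF
        obtain ⟨A', rfl⟩ : ∃ A', A = A' + 1 := ⟨A - 1, by omega⟩
        simp only [cond_true, Nat.add_sub_cancel]
        refine ih (by omega) (fun k => σ (j.succAbove k)) i' (fun l => f (j.succAbove l)) ?_ hi A' B
          (by omega) (by omega) _ _ _ _ _ (fun w => F (true :: w) + F (w ++ [true])) ?_
        · intro l hl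
          show f (j.succAbove l) = _
          rw [hf _ (fun h => hl (Fin.succAbove_right_injective h)), chi_succAbove]
        · intro w hwA hwB
          show F (true :: w) + F (w ++ [true]) = _
          rw [hF _ (by simp [hwA]) (by simp [hwB]),
            hF _ (by simp [hwA]) (by simp [hwB])]
          have := step_true al p q m z A' B w hwA hwB
          exact_mod_cast this

theorem tot_eq (os : List (List ℕ)) (c : List Bool) (i A B L : ℕ) :
    tot os c i A B L = (os.map fun o => val o c i A B 1 L L 0 0).sum := by
  induction os with
  | nil => rfl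
  | cons o os ih => simp [tot] at ih ⊢; exact ih

theorem sum_D3 {n : ℕ} (hn : n ≤ 7) (h2 : 2 ≤ n) (o : Ord n) (σ : Fin n → ℤˣ) (i : Fin n)
    (f : Fin n → Bool) (hf : ∀ l, l ≠ i → f l = decide (σ l = chi i l)) (hi : f i = false) (A B : ℕ)
    (hA : ((List.finRange n).map f).count true = A)
    (hB : ((List.finRange n).map f).count false = B + 1) :
    ∑ e : Fin n → ℤˣ, D3 (word o e σ i) =
      (val (idx o) ((List.finRange n).map f) i A B 1 (2 ^ A + 2 ^ B) (2 ^ A + 2 ^ B) 0 0 : ℤ) -
        2 ^ n * (3 * (2 ^ A + 2 ^ B - 4)) := by
  have hAB : A + B + 1 = n := by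
    have h := List.count_false_add_count_true ((List.finRange n).map f)
    rw [hA, hB] at h
    simp at h
    omega
  have h := sound o hn σ i f hf hi A B hA hB 1 (2 ^ A + 2 ^ B) (2 ^ A + 2 ^ B) 0 0
    (fun w => D3 w + 3 * (2 ^ A + 2 ^ B - 4)) (by
      intro w hwA hwB
      have hw : w ≠ [] := by
        rintro rfl
        simp at hwA hwB
        omega
      show D3 w + 3 * (2 ^ A + 2 ^ B - 4) = _
      rw [D3_eq w A B hwA hwB hw]
      ring)
  rw [← h, Finset.sum_add_distrib]
  simp only [Finset.sum_const, Finset.card_univ, Fintype.card_fun, Fintype.card_fin, nsmul_eq_mul]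
  rw [show Fintype.card ℤˣ = 2 from rfl]
  push_cast
  ring

theorem base {n N : ℕ} (hn : n ≤ 7) (h2 : 2 ≤ n) (os : List (Ord n)) (hN : N = os.length * 2 ^ n)
    (hchk : chkAll (os.map idx) N n = true) (σ : Fin n → ℤˣ) (i : Fin n) :
    0 ≤ (os.map fun o => ∑ e : Fin n → ℤˣ, D3 (word o e σ i)).sum := by
  set f : Fin n → Bool := fun l => if l = i then false else decide (σ l = chi i l) with hfdef
  have hf : ∀ l, l ≠ i → f l = decide (σ l = chi i l) := by
    intro l hl
    simp [hfdef, hl]
  have hi : f i = false := by simp [hfdef]
  set c := (List.finRange n).map f with hc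
  have hgetD : c.getD i false = false := by
    rw [List.getD_eq_getElem _ _ (by simp [hc])]
    simp [hc, hi]
  have hB1 : 1 ≤ c.count false := by
    rw [List.one_le_count_iff]
    exact List.mem_map.mpr ⟨i, List.mem_finRange i, hi⟩
  obtain ⟨B, hB⟩ : ∃ B, c.count false = B + 1 := ⟨c.count false - 1, by omega⟩
  set A := c.count true with hA
  have h1 : chk (os.map idx) N c i = true := by
    have h3 := List.all_eq_true.mp hchk c (by
      have := mem_bools c
      rwa [show c.length = n by simp [hc]] at this)
    exact List.all_eq_true.mp h3 i (by simp)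
  have h4 : 3 * N * (2 ^ A + 2 ^ B) ≤ tot (os.map idx) c i A B (2 ^ A + 2 ^ B) + 12 * N := by
    unfold chk at h1
    rw [hgetD, Bool.false_or, hB, ← hA, Nat.add_sub_cancel] at h1
    exact Nat.le_of_ble_eq_true h1
  have h5 : (os.map fun o => ∑ e : Fin n → ℤˣ, D3 (word o e σ i)).sum =
      (tot (os.map idx) c i A B (2 ^ A + 2 ^ B) : ℤ) - N * (3 * (2 ^ A + 2 ^ B - 4)) := by
    rw [tot_eq, hN]
    clear hchk h1 h4 hN
    induction os with
    | nil => simp
    | cons o os ih =>
      simp only [List.map_cons, List.sum_cons, List.length_cons]
      rw [ih, sum_D3 hn h2 o σ i f hf hi A B hA.symm hB]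
      push_cast
      ring
  rw [h5]
  have h6 : (3 * N * (2 ^ A + 2 ^ B) : ℤ) ≤ (tot (os.map idx) c i A B (2 ^ A + 2 ^ B) : ℤ) + 12 * N := by
    exact_mod_cast h4
  linarith

end B1

theorem base1_0 (σ : Fin 6 → ℤˣ) (i : Fin 6) :
    0 ≤ ((ordsO 0).map fun o => ∑ e : Fin 6 → ℤˣ, D3 (word o e σ i)).sum :=
  B1.base (n := 6) (N := 12 * 64) (by norm_num) (by norm_num) (ordsO 0) (by decide)
    (by rw [show (ordsO 0).map B1.idx = B1.core by decide]; exact B1.chk6) σ i

theorem base1_1 (σ : Fin 7 → ℤˣ) (i : Fin 7) :
    0 ≤ ((ordsO 1).map fun o => ∑ e : Fin 7 → ℤˣ, D3 (word o e σ i)).sum :=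
  B1.base (n := 7) (N := 84 * 128) (by norm_num) (by norm_num) (ordsO 1) (by decide)
    (by rw [show (ordsO 1).map B1.idx = B1.core7 by decide]; exact B1.chk7) σ i

end Pool.Agent.K2L
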