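import Mathlib
import Pool.Agent.K2L.Defs

/-!
# The formula for `C1` in terms of the word of the line `i` (module WORDC)
-/

set_option autoImplicit false

open scoped BigOperators

namespace Pool.Agent.K2L

/-- sum over the gaps between different letters; `prev` is the letter before the gap -/
def dgap (n : ℕ) : Bool → ℕ → List Bool → ℤ
  | _, _, [] => 0
  | prev, e, x :: w => (if prev = x then 0 else 2 ^ e + 2 ^ (n - e)) +
      dgap n x (if x then e + 1 else e - 1) w

namespace WC

/-- all letters are `false` -/
def iF : List Bool → ℕ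
  | [] => 1
  | z :: Z => if z then 0 else iF Z

/-- all letters are `true` -/
def iT : List Bool → ℕ
  | [] => 1
  | z :: Z => if z then iT Z else 0

/-- weighted sum over all lists -/
def SS : List Bool → (List Bool → ℤ) → ℤ
  | [], G => G []
  | x :: X, G => 2 * SS X (fun Z => G (x :: Z)) + SS X (fun Z => G ((!x) :: Z))

/-- number of the thresholds -/
def bB (t : Bool) : List Bool → List Bool → ℕ
  | [], _ => 0
  | _ :: _, [] => 0
  | x :: X, z :: Z => (if x = t then iF Z else 0) + (if z then bB t X Z else 0)

theorem iF_le (Z : List Bool) : iF Z = 0 ∨ iF Z = 1 := by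
  induction Z with
  | nil => right; rfl
  | cons z Z ih => cases z <;> simp [iF, ih]

theorem iT_le (Z : List Bool) : iT Z = 0 ∨ iT Z = 1 := by
  induction Z with
  | nil => right; rfl
  | cons z Z ih => cases z <;> simp [iT, ih]

theorem iF_map_not (Z : List Bool) : iF (Z.map not) = iT Z := by
  induction Z with
  | nil => rfl
  | cons z Z ih => cases z <;> simp [iF, iT, ih]

theorem SS_mul (c : ℤ) (X : List Bool) : ∀ G : List Bool → ℤ,
    SS X (fun Z => c * G Z) = c * SS X G := by
  induction X with
  | nil => intro G; rfl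
  | cons x X ih =>
    intro G
    simp only [SS]
    rw [ih (fun Z => G (x :: Z)), ih (fun Z => G ((!x) :: Z))]
    ring

theorem SS_zero (X : List Bool) : SS X (fun _ => 0) = 0 := by
  induction X with
  | nil => rfl
  | cons x X ih => simp [SS, ih]

theorem SS_iF (X : List Bool) : SS X (fun Z => (iF Z : ℤ)) = 2 ^ (X.count false) := by
  induction X with
  | nil => rfl
  | cons x X ih =>
    cases x
    · simp [SS, iF, ih, SS_zero, pow_succ]; ring
    · simp [SS, iF, ih, SS_zero]

theorem SS_iT (X : List Bool) : SS X (fun Z => (iT Z : ℤ)) = 2 ^ (X.count true) := by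
  induction X with
  | nil => rfl
  | cons x X ih =>
    cases x
    · simp [SS, iT, ih, SS_zero]
    · simp [SS, iT, ih, SS_zero, pow_succ]; ring

/-- indicator of a letter -/
def ind (x t : Bool) : ℕ := if x = t then 1 else 0

def F1 (t : Bool) (α β : ℕ) (X : List Bool) : ℤ :=
  SS X (fun Z => (((α * iF Z + β * iT Z + bB t X Z) % 2 : ℕ) : ℤ))

def F2 (t : Bool) (α β : ℕ) (X : List Bool) : ℤ :=
  SS X (fun Z => (((α * iT Z + β * iF Z + bB t X (Z.map not)) % 2 : ℕ) : ℤ))

theorem F1_cons (t : Bool) (α β : ℕ) (x : Bool) (X : List Bool) :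
    F1 t α β (x :: X) = (if x then 2 else 1) * F1 t (ind x t) β X +
      ((α + ind x t) % 2 : ℕ) * 2 ^ ((x :: X).count false) := by
  have hT : (fun Z => (((α * iF (true :: Z) + β * iT (true :: Z) + bB t (x :: X) (true :: Z)) % 2 :
      ℕ) : ℤ)) = fun Z => (((ind x t * iF Z + β * iT Z + bB t X Z) % 2 : ℕ) : ℤ) := by
    funext Z
    simp only [iF, iT, bB, ind, if_true, mul_zero, zero_add]
    congr 2
    split <;> ring
  have hF : (fun Z => (((α * iF (false :: Z) + β * iT (false :: Z) + bB t (x :: X) (false :: Z)) % 2 :
      ℕ) : ℤ)) = fun Z => (((α + ind x t) % 2 : ℕ) : ℤ) * (iF Z : ℤ) := by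
    funext Z
    simp only [iF, iT, bB, ind, Bool.false_eq_true, if_false, mul_zero, add_zero]
    rcases iF_le Z with h | h <;> rw [h]
    · simp
    · simp
  cases x
  · simp only [F1, SS, Bool.not_false, hT, hF, SS_mul, SS_iF]
    simp [pow_succ]
    ring
  · simp only [F1, SS, Bool.not_true, hT, hF, SS_mul, SS_iF]
    simp

theorem F2_cons (t : Bool) (α β : ℕ) (x : Bool) (X : List Bool) :
    F2 t α β (x :: X) = (if x then 1 else 2) * F2 t (ind x t) β X +
      ((α + ind x t) % 2 : ℕ) * 2 ^ ((x :: X).count true) := by
  have hF : (fun Z => (((α * iT (false :: Z) + β * iF (false :: Z) +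
      bB t (x :: X) ((false :: Z).map not)) % 2 :
      ℕ) : ℤ)) = fun Z => (((ind x t * iT Z + β * iF Z + bB t X (Z.map not)) % 2 : ℕ) : ℤ) := by
    funext Z
    simp only [List.map_cons, Bool.not_false, iF, iT, bB, ind, if_true, mul_zero, zero_add,
      Bool.false_eq_true, if_false, iF_map_not]
    congr 2
    split <;> ring
  have hT : (fun Z => (((α * iT (true :: Z) + β * iF (true :: Z) +
      bB t (x :: X) ((true :: Z).map not)) % 2 :
      ℕ) : ℤ)) = fun Z => (((α + ind x t) % 2 : ℕ) : ℤ) * (iT Z : ℤ) := by
    funext Z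
    simp only [List.map_cons, Bool.not_true, iF, iT, bB, ind, Bool.false_eq_true, if_false,
      mul_zero, add_zero, if_true, iF_map_not]
    rcases iT_le Z with h | h <;> rw [h]
    · simp
    · simp
  cases x
  · simp only [F2, SS, Bool.not_false, hT, hF, SS_mul, SS_iT]
    simp
  · simp only [F2, SS, Bool.not_true, hT, hF, SS_mul, SS_iT]
    simp [pow_succ]
    ring

theorem ind_add (p x t : Bool) : (ind p t + ind x t) % 2 = if p = x then 0 else 1 := by
  cases p <;> cases x <;> cases t <;> rfl

theorem F12 (t q : Bool) (n : ℕ) (X : List Bool) : ∀ (p : Bool) (a b : ℕ), n = a + b + X.length →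
    2 ^ a * F1 t (ind p t) (ind q t) X + 2 ^ b * F2 t (ind p t) (ind q t) X =
      dgap n p (a + X.count false) X +
        (if X.getLastD p = q then 0 else 2 ^ (a + X.count true) + 2 ^ (b + X.count false)) := by
  induction X with
  | nil =>
    intro p a b _
    simp only [F1, F2, SS, iF, iT, bB, mul_one, add_zero, ind_add, dgap,
      List.getLastD_nil, List.count_nil]
    split <;> simp
  | cons x X ih =>
    intro p a b hn
    rw [F1_cons, F2_cons, ind_add]
    have hl : (x :: X).getLastD p = X.getLastD x := by
      cases X <;> rfl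
    rw [hl]
    have hc : X.count true + X.count false = X.length := List.count_true_add_count_false X
    simp only [dgap]
    cases x
    · have h := ih false a (b + 1) (by simp at hn; omega)
      have e1 : (false :: X).count false = X.count false + 1 := by simp
      have e2 : (false :: X).count true = X.count true := by simp
      have e3 : a + (X.count false + 1) - 1 = a + X.count false := by omega
      have e4 : n - (a + (X.count false + 1)) = b + X.count true := by
        simp at hn; omega
      simp only [Bool.false_eq_true, if_false, e1, e2, e3, e4]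
      have e5 : b + (X.count false + 1) = b + 1 + X.count false := by ring
      rw [e5]
      by_cases hp : p = false
      · simp only [hp, if_true]
        push_cast
        linear_combination h
      · simp only [hp]
        push_cast
        linear_combination h
    · have h := ih true (a + 1) b (by simp at hn; omega)
      have e1 : (true :: X).count false = X.count false := by simp
      have e2 : (true :: X).count true = X.count true + 1 := by simp
      have e4 : n - (a + X.count false) = b + (X.count true + 1) := by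
        simp at hn; omega
      simp only [if_true, e1, e2, e4]
      have e5 : a + X.count false + 1 = a + 1 + X.count false := by ring
      have e6 : a + (X.count true + 1) = a + 1 + X.count true := by ring
      rw [e5, e6]
      by_cases hp : p = true
      · simp only [hp, if_true]
        push_cast
        linear_combination h
      · simp only [hp]
        push_cast
        linear_combination h

theorem SS_main (t : Bool) (X : List Bool) :
    SS X (fun Z => (((bB t X Z + bB t X (Z.map not)) % 2 : ℕ) : ℤ)) =
      dgap X.length (X.getLastD true) (X.count false) X := by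
  cases X with
  | nil => rfl
  | cons x X =>
    have hT : (fun Z => (((bB t (x :: X) (true :: Z) + bB t (x :: X) ((true :: Z).map not)) % 2 :
        ℕ) : ℤ)) = fun Z => (((ind x t * iF Z + ind x t * iT Z + bB t X Z) % 2 : ℕ) : ℤ) := by
      funext Z
      simp only [List.map_cons, Bool.not_true, bB, ind, if_true, Bool.false_eq_true, if_false,
        add_zero, iF_map_not]
      congr 2
      split <;> ring
    have hF : (fun Z => (((bB t (x :: X) (false :: Z) + bB t (x :: X) ((false :: Z).map not)) % 2 :
        ℕ) : ℤ)) = fun Z => (((ind x t * iT Z + ind x t * iF Z + bB t X (Z.map not)) % 2 : ℕ) :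
          ℤ) := by
      funext Z
      simp only [List.map_cons, Bool.not_false, bB, ind, if_true, Bool.false_eq_true, if_false,
        add_zero, iF_map_not]
      congr 2
      split <;> ring
    have hl : (x :: X).getLastD true = X.getLastD x := by
      cases X <;> rfl
    have hc : X.count true + X.count false = X.length := List.count_true_add_count_false X
    rw [hl]
    simp only [dgap]
    cases x
    · have h := F12 t false (false :: X).length X false 0 1 (by simp; omega)
      have e1 : (false :: X).count false = X.count false + 1 := by simp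
      have e4 : (false :: X).length - (X.count false + 1) = X.count true := by simp; omega
      simp only [SS, Bool.not_false, hT, hF, e1, e4, Bool.false_eq_true, if_false,
        Nat.add_sub_cancel]
      simp only [F1, F2] at h
      by_cases hq : X.getLastD false = false
      · rw [if_pos hq] at h ⊢
        simp only [zero_add, pow_zero, pow_one] at h
        linear_combination h
      · rw [if_neg hq] at h ⊢
        simp only [zero_add, pow_zero, pow_one] at h
        rw [show 1 + X.count false = X.count false + 1 from by ring] at h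
        linear_combination h
    · have h := F12 t true (true :: X).length X true 1 0 (by simp; omega)
      have e1 : (true :: X).count false = X.count false := by simp
      have e4 : (true :: X).length - X.count false = X.count true + 1 := by simp; omega
      simp only [SS, Bool.not_true, hT, hF, e1, e4, if_true]
      simp only [F1, F2] at h
      rw [show 1 + X.count false = X.count false + 1 from by ring,
        show 1 + X.count true = X.count true + 1 from by ring] at h
      by_cases hq : X.getLastD true = true
      · rw [if_pos hq] at h ⊢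
        simp only [pow_zero, pow_one] at h
        linear_combination h
      · rw [if_neg hq] at h ⊢
        simp only [zero_add, pow_zero, pow_one] at h
        linear_combination h

/-! ### the sum over the signs -/

/-- weight of a sign -/
def w1 (a : ℤˣ) : ℕ := if a = 1 then 2 else 1

theorem wt_eq {m : ℕ} (ξ : Fin m → ℤˣ) : wt ξ = ∏ k, w1 (ξ k) := by
  unfold wt w1
  rw [Finset.prod_ite]
  simp

theorem wt_update {m : ℕ} (ξ : Fin m → ℤˣ) (h : Fin m) (a : ℤˣ) :
    w1 (ξ h) * wt (Function.update ξ h a) = w1 a * wt ξ := by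
  rw [wt_eq, wt_eq, ← Finset.mul_prod_erase Finset.univ _ (Finset.mem_univ h),
    ← Finset.mul_prod_erase Finset.univ (fun k => w1 (ξ k)) (Finset.mem_univ h)]
  have : ∏ x ∈ Finset.univ.erase h, w1 (Function.update ξ h a x) =
      ∏ x ∈ Finset.univ.erase h, w1 (ξ x) := by
    apply Finset.prod_congr rfl
    intro x hx
    rw [Function.update_of_ne (Finset.ne_of_mem_erase hx)]
  rw [this]
  simp only [Function.update_self]
  ring

/-- change of the sign of one coordinate -/
def flip {m : ℕ} (h : Fin m) : (Fin m → ℤˣ) ≃ (Fin m → ℤˣ) where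
  toFun ξ := Function.update ξ h (-ξ h)
  invFun ξ := Function.update ξ h (-ξ h)
  left_inv ξ := by simp
  right_inv ξ := by simp

theorem sum_flip {m : ℕ} (h : Fin m) (H : (Fin m → ℤˣ) → ℤ)
    (hH : ∀ ξ a, H (Function.update ξ h a) = H ξ) :
    (∑ ξ : Fin m → ℤˣ, (if ξ h = 1 then (wt ξ : ℤ) * H ξ else 0)) =
      2 * ∑ ξ : Fin m → ℤˣ, (if ξ h = 1 then 0 else (wt ξ : ℤ) * H ξ) := by
  rw [← Equiv.sum_comp (flip h), Finset.mul_sum]
  apply Finset.sum_congr rfl
  intro ξ _
  simp only [flip, Equiv.coe_fn_mk, Function.update_self, hH]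
  rcases Int.units_eq_one_or (ξ h) with h1 | h1
  · rw [h1]; simp
  · have := wt_update ξ h (-ξ h)
    rw [h1] at this ⊢
    have h2 : wt (Function.update ξ h (- -1)) = 2 * wt ξ := by
      simpa [w1] using this
    rw [h2]
    simp
    ring

theorem sum_split {m : ℕ} (h : Fin m) (H1 H2 : (Fin m → ℤˣ) → ℤ)
    (hH1 : ∀ ξ a, H1 (Function.update ξ h a) = H1 ξ)
    (hH2 : ∀ ξ a, H2 (Function.update ξ h a) = H2 ξ) :
    3 * (∑ ξ : Fin m → ℤˣ, (wt ξ : ℤ) * (if ξ h = 1 then H1 ξ else H2 ξ)) =
      2 * (∑ ξ : Fin m → ℤˣ, (wt ξ : ℤ) * H1 ξ) + ∑ ξ : Fin m → ℤˣ, (wt ξ : ℤ) * H2 ξ := by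
  have e1 := sum_flip h H1 hH1
  have e2 := sum_flip h H2 hH2
  have s : ∀ H : (Fin m → ℤˣ) → ℤ, (∑ ξ : Fin m → ℤˣ, (wt ξ : ℤ) * H ξ) =
      (∑ ξ : Fin m → ℤˣ, (if ξ h = 1 then (wt ξ : ℤ) * H ξ else 0)) +
      ∑ ξ : Fin m → ℤˣ, (if ξ h = 1 then 0 else (wt ξ : ℤ) * H ξ) := by
    intro H
    rw [← Finset.sum_add_distrib]
    apply Finset.sum_congr rfl
    intro ξ _
    split <;> simp
  have s3 : (∑ ξ : Fin m → ℤˣ, (wt ξ : ℤ) * (if ξ h = 1 then H1 ξ else H2 ξ)) =
      (∑ ξ : Fin m → ℤˣ, (if ξ h = 1 then (wt ξ : ℤ) * H1 ξ else 0)) +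
      ∑ ξ : Fin m → ℤˣ, (if ξ h = 1 then 0 else (wt ξ : ℤ) * H2 ξ) := by
    rw [← Finset.sum_add_distrib]
    apply Finset.sum_congr rfl
    intro ξ _
    split <;> simp
  rw [s3, s H1, s H2, e1, e2]
  ring

/-- the list of the agreements with `lam` -/
def zl {m : ℕ} (lam ξ : Fin m → ℤˣ) (L : List (Fin m)) : List Bool :=
  L.map (fun k => decide (ξ k = lam k))

theorem zl_update {m : ℕ} (lam ξ : Fin m → ℤˣ) (L : List (Fin m)) (h : Fin m) (hh : h ∉ L)
    (a : ℤˣ) : zl lam (Function.update ξ h a) L = zl lam ξ L := by
  apply List.map_congr_left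
  intro k hk
  have hne : k ≠ h := by rintro rfl; exact hh hk
  rw [Function.update_of_ne hne]

theorem sum_lists {m : ℕ} (lam : Fin m → ℤˣ) (L : List (Fin m)) : L.Nodup →
    ∀ G : List Bool → ℤ, 3 ^ L.length * ∑ ξ : Fin m → ℤˣ, (wt ξ : ℤ) * G (zl lam ξ L) =
      3 ^ m * SS (L.map fun k => decide (lam k = 1)) G := by
  induction L with
  | nil =>
    intro _ G
    have h : (∑ ξ : Fin m → ℤˣ, (wt ξ : ℤ)) = 3 ^ m := by
      have h1 : (∑ ξ : Fin m → ℤˣ, ∏ k, (w1 (ξ k) : ℤ)) = ∏ _k : Fin m, ∑ a : ℤˣ, (w1 a : ℤ) := by
        rw [Finset.prod_univ_sum, Fintype.piFinset_univ]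
      have h2 : (∑ a : ℤˣ, (w1 a : ℤ)) = 3 := by decide
      rw [h2] at h1
      simp only [Finset.prod_const, Finset.card_univ, Fintype.card_fin] at h1
      rw [← h1]
      apply Finset.sum_congr rfl
      intro ξ _
      rw [wt_eq]
      push_cast
      rfl
    simp only [zl, List.map_nil, SS, List.length_nil, pow_zero, one_mul]
    rw [← Finset.sum_mul, h]
  | cons h L ih =>
    intro hnd G
    rw [List.nodup_cons] at hnd
    have ih' := ih hnd.2
    have key : ∀ ξ : Fin m → ℤˣ, G (zl lam ξ (h :: L)) =
        if ξ h = 1 then G (decide (lam h = 1) :: zl lam ξ L)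
        else G ((!decide (lam h = 1)) :: zl lam ξ L) := by
      intro ξ
      have : zl lam ξ (h :: L) = decide (ξ h = lam h) :: zl lam ξ L := rfl
      rw [this]
      rcases Int.units_eq_one_or (ξ h) with h1 | h1 <;>
        rcases Int.units_eq_one_or (lam h) with h2 | h2 <;> rw [h1, h2] <;> simp
    have s := sum_split h (fun ξ => G (decide (lam h = 1) :: zl lam ξ L))
      (fun ξ => G ((!decide (lam h = 1)) :: zl lam ξ L))
      (fun ξ a => by simp only [zl_update lam ξ L h hnd.1 a])
      (fun ξ a => by simp only [zl_update lam ξ L h hnd.1 a])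
    simp only [key, List.map_cons, SS, List.length_cons]
    have e1 := ih' (fun Z => G (decide (lam h = 1) :: Z))
    have e2 := ih' (fun Z => G ((!decide (lam h = 1)) :: Z))
    rw [pow_succ, mul_assoc, s]
    linear_combination 2 * e1 + e2

/-! ### the number of the tiles -/

theorem iF_zl (Z : List Bool) : iF Z = if ∀ z ∈ Z, z = false then 1 else 0 := by
  induction Z with
  | nil => rfl
  | cons z Z ih => cases z <;> simp [iF, ih]

theorem card_bB {α : Type*} [DecidableEq α] (t : Bool) (x E : α → Bool) (R : α → α → Prop)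
    [DecidableRel R] (L : List α) : L.Nodup → L.Pairwise (fun k l => R k l ∧ ¬ R l k) →
    (L.toFinset.filter fun l => x l = t ∧ ∀ k ∈ L, k ≠ l →
      (R k l → E k = true) ∧ (¬ R k l → E k = false)).card = bB t (L.map x) (L.map E) := by
  induction L with
  | nil => intro _ _; rfl
  | cons h L ih =>
    intro hnd hp
    rw [List.nodup_cons] at hnd
    rw [List.pairwise_cons] at hp
    have ih' := ih hnd.2 hp.2
    rw [List.toFinset_cons, Finset.filter_insert]
    have e1 : (L.toFinset.filter fun l => x l = t ∧ ∀ k ∈ h :: L, k ≠ l →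
        (R k l → E k = true) ∧ (¬ R k l → E k = false)) =
        if E h = true then (L.toFinset.filter fun l => x l = t ∧ ∀ k ∈ L, k ≠ l →
          (R k l → E k = true) ∧ (¬ R k l → E k = false)) else ∅ := by
      split
      · rename_i hE
        apply Finset.filter_congr
        intro l hl
        rw [List.mem_toFinset] at hl
        have hhl := hp.1 l hl
        simp only [List.mem_cons, forall_eq_or_imp]
        constructor
        · rintro ⟨h1, -, h2⟩
          exact ⟨h1, h2⟩
        · rintro ⟨h1, h2⟩
          exact ⟨h1, fun _ => ⟨fun _ => hE, fun h3 => absurd hhl.1 h3⟩, h2⟩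
      · rename_i hE
        rw [Finset.filter_eq_empty_iff]
        intro l hl h1
        rw [List.mem_toFinset] at hl
        have hne : h ≠ l := by rintro rfl; exact hnd.1 hl
        exact hE ((h1.2 h List.mem_cons_self hne).1 (hp.1 l hl).1)
    have e2 : (x h = t ∧ ∀ k ∈ h :: L, k ≠ h → (R k h → E k = true) ∧ (¬ R k h → E k = false)) ↔
        (x h = t ∧ iF (L.map E) = 1) := by
      rw [iF_zl]
      simp only [List.mem_map, forall_exists_index, and_imp, forall_apply_eq_imp_iff₂]
      constructor
      · rintro ⟨h1, h2⟩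
        refine ⟨h1, if_pos ?_⟩
        intro k hk
        have hne : k ≠ h := by rintro rfl; exact hnd.1 hk
        exact (h2 k (List.mem_cons_of_mem _ hk) hne).2 (hp.1 k hk).2
      · rintro ⟨h1, h2⟩
        refine ⟨h1, ?_⟩
        have h3 : ∀ k ∈ L, E k = false := by
          by_contra hc
          rw [if_neg hc] at h2
          exact absurd h2 (by decide)
        intro k hk hne
        rcases List.mem_cons.1 hk with h4 | h4
        · exact absurd h4 hne
        · exact ⟨fun h5 => absurd h5 (hp.1 k h4).2, fun _ => h3 k h4⟩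
    have hno : h ∉ (L.toFinset.filter fun l => x l = t ∧ ∀ k ∈ h :: L, k ≠ l →
        (R k l → E k = true) ∧ (¬ R k l → E k = false)) := by
      intro hh
      rw [Finset.mem_filter, List.mem_toFinset] at hh
      exact hnd.1 hh.1
    have e3 : (if E h = true then (L.toFinset.filter fun l => x l = t ∧ ∀ k ∈ L, k ≠ l →
          (R k l → E k = true) ∧ (¬ R k l → E k = false)) else ∅).card =
        if E h = true then bB t (L.map x) (L.map E) else 0 := by
      split
      · exact ih'
      · rfl
    simp only [List.map_cons, bB]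
    by_cases hc : x h = t ∧ ∀ k ∈ h :: L, k ≠ h → (R k h → E k = true) ∧ (¬ R k h → E k = false)
    · rw [if_pos hc, Finset.card_insert_of_notMem hno, e1, e3]
      obtain ⟨h1, h2⟩ := e2.1 hc
      rw [if_pos h1, h2]
      ring
    · rw [if_neg hc, e1, e3]
      rw [e2, not_and_or] at hc
      have : (if x h = t then iF (L.map E) else 0) = 0 := by
        split
        · rename_i h1
          rcases iF_le (L.map E) with h2 | h2
          · exact h2
          · rcases hc with h3 | h3
            · exact absurd h1 h3
            · exact absurd h2 h3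
        · rfl
      rw [this, zero_add]

end WC

open WC

theorem chi_mul {m : ℕ} (i k : Fin m) : chi i k * chi i k = 1 := by
  unfold chi; split <;> rfl

theorem chi_swap {m : ℕ} {i k : Fin m} (h : i ≠ k) : chi k i = - chi i k := by
  unfold chi
  rcases lt_or_gt_of_ne h with h1 | h1
  · rw [if_neg (not_lt.2 h1.le), if_pos h1]
  · rw [if_pos h1, if_neg (not_lt.2 h1.le)]; rfl

/-- on the line `i` the two lines are met in one order -/
theorem bef_asymm {m : ℕ} (r : Fin m → ℕ) (hr : Function.Injective r) (e : Fin m → ℤˣ)
    (i k l : Fin m) (hik : i ≠ k) (hil : i ≠ l) (hkl : k ≠ l) :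
    Bef r e i k l ↔ ¬ Bef r e i l k := by
  have h1 : r i ≠ r k := fun h => hik (hr h)
  have h2 : r i ≠ r l := fun h => hil (hr h)
  have h3 : r k ≠ r l := fun h => hkl (hr h)
  unfold Bef tau
  have c1 := chi_swap hik
  have c2 := chi_swap hil
  have c3 := chi_swap hkl
  rcases Int.units_eq_one_or (e i) with a | a <;> rcases Int.units_eq_one_or (e k) with b | b <;>
  rcases Int.units_eq_one_or (e l) with c | c <;> rcases Int.units_eq_one_or (chi i k) with d | d <;>
  rcases Int.units_eq_one_or (chi i l) with f | f <;> rcases Int.units_eq_one_or (chi k l) with g | g <;>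
  rw [c1, c2, c3, a, b, c, d, f, g] <;>
  split_ifs <;> first | omega | decide

theorem WC.bB_not (t : Bool) (X : List Bool) : ∀ Z : List Bool,
    bB (!t) (X.map not) Z = bB t X Z := by
  induction X with
  | nil => intro Z; rfl
  | cons x X ih =>
    intro Z
    cases Z with
    | nil => rfl
    | cons z Z =>
      simp only [List.map_cons, bB, ih]
      cases x <;> cases t <;> rfl

theorem tau_of_not_bef {m : ℕ} (r : Fin m → ℕ) (e : Fin m → ℤˣ) (i k l : Fin m)
    (h : ¬ Bef r e i k l) : tau r e i l k = - chi i k := by
  unfold Bef at h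
  rcases Int.units_eq_one_or (tau r e i l k) with a | a <;>
  rcases Int.units_eq_one_or (chi i k) with b | b <;> rw [a, b] at h ⊢
  · exact absurd rfl h
  · rfl
  · exact absurd rfl h

theorem b1_eq {m : ℕ} (r : Fin m → ℕ) (hr : Function.Injective r) (e ξ σ : Fin m → ℤˣ) (i : Fin m)
    (s : ℤˣ) (L : List (Fin m)) (hnd : L.Nodup) (hmem : ∀ k, k ∈ L ↔ k ≠ i)
    (hs : L.Pairwise (Bef r e i)) :
    b1 r e ξ σ i s = bB (decide (s = -1)) (L.map fun k => decide (σ k = chi i k))
      (zl (fun k => σ k * chi i k) ξ L) := by
  have hs' : L.Pairwise (fun k l => Bef r e i k l ∧ ¬ Bef r e i l k) := by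
    have h1 : L.Pairwise (fun k l => (Bef r e i k l ∧ k ≠ l) ∧ (k ≠ i ∧ l ≠ i)) := by
      refine List.Pairwise.and (List.Pairwise.and hs hnd) ?_
      apply List.Pairwise.imp_of_mem ?_ hs
      intro a b ha hb _
      exact ⟨(hmem a).1 ha, (hmem b).1 hb⟩
    apply List.Pairwise.imp ?_ h1
    rintro a b ⟨⟨h2, h3⟩, h4, h5⟩
    exact ⟨h2, (bef_asymm r hr e i a b h4.symm h5.symm h3).1 h2⟩
  unfold zl
  rw [← card_bB (decide (s = -1)) (fun k => decide (σ k = chi i k))
    (fun k => decide (ξ k = σ k * chi i k)) (Bef r e i) L hnd hs']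
  unfold b1
  congr 1
  ext l
  simp only [Finset.mem_filter, Finset.mem_univ, true_and, List.mem_toFinset, hmem]
  apply and_congr_right
  intro hl
  rw [and_comm]
  apply and_congr
  · rw [chi_swap (Ne.symm hl)]
    rcases Int.units_eq_one_or (σ l) with a | a <;>
    rcases Int.units_eq_one_or (chi i l) with b | b <;>
    rcases Int.units_eq_one_or s with c | c <;> rw [a, b, c] <;> decide
  · constructor
    · intro h k hk hkl
      have h1 := h k hk hkl
      constructor
      · intro h2
        unfold Bef at h2
        rw [h2] at h1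
        rw [decide_eq_true_eq, ← h1, mul_assoc, chi_mul, mul_one]
      · intro h2
        rw [tau_of_not_bef r e i k l h2] at h1
        rw [decide_eq_false_iff_not, ← h1]
        rcases Int.units_eq_one_or (ξ k) with a | a <;>
        rcases Int.units_eq_one_or (chi i k) with b | b <;> rw [a, b] <;> decide
    · intro h k hk hkl
      have h1 := h k hk hkl
      by_cases h2 : Bef r e i k l
      · have h3 := h1.1 h2
        unfold Bef at h2
        rw [decide_eq_true_eq] at h3
        rw [h2, h3, mul_assoc, chi_mul, mul_one]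
      · have h3 := h1.2 h2
        rw [decide_eq_false_iff_not] at h3
        rw [tau_of_not_bef r e i k l h2]
        rcases Int.units_eq_one_or (ξ k) with a | a <;>
        rcases Int.units_eq_one_or (chi i k) with b | b <;>
        rcases Int.units_eq_one_or (σ k) with c | c <;> rw [a, b, c] at h3 ⊢ <;>
        first | rfl | exact absurd rfl h3

theorem WC.aux1 : ∀ a b : ℤˣ, decide (-a = b) = !decide (a = b) := by decide

theorem WC.aux2 : ∀ a b c : ℤˣ, decide (c = -a * b) = !decide (c = a * b) := by decide

theorem b1_eq_neg {m : ℕ} (r : Fin m → ℕ) (hr : Function.Injective r) (e ξ σ : Fin m → ℤˣ)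
    (i : Fin m) (s : ℤˣ) (L : List (Fin m)) (hnd : L.Nodup) (hmem : ∀ k, k ∈ L ↔ k ≠ i)
    (hs : L.Pairwise (Bef r e i)) :
    b1 r e ξ (-σ) i (-s) = bB (decide (s = -1)) (L.map fun k => decide (σ k = chi i k))
      ((zl (fun k => σ k * chi i k) ξ L).map not) := by
  rw [b1_eq r hr e ξ (-σ) i (-s) L hnd hmem hs]
  have h1 : decide (-s = -1) = !decide (s = -1) := by
    rcases Int.units_eq_one_or s with c | c <;> rw [c] <;> decide
  have h2 : (L.map fun k => decide ((-σ) k = chi i k)) =
      (L.map fun k => decide (σ k = chi i k)).map not := by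
    rw [List.map_map]
    apply List.map_congr_left
    intro k _
    exact aux1 (σ k) (chi i k)
  have h3 : zl (fun k => (-σ) k * chi i k) ξ L = (zl (fun k => σ k * chi i k) ξ L).map not := by
    unfold zl
    rw [List.map_map]
    apply List.map_congr_left
    intro k _
    exact aux2 (σ k) (chi i k) (ξ k)
  rw [h1, h2, h3, bB_not]

/-- the correction term in terms of the word of the line `i` -/
theorem c1_word {m : ℕ} (r : Fin m → ℕ) (hr : Function.Injective r) (e σ : Fin m → ℤˣ)
    (i : Fin m) (s : ℤˣ) (L : List (Fin m)) (hnd : L.Nodup) (hmem : ∀ k, k ∈ L ↔ k ≠ i)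
    (hs : L.Pairwise (Bef r e i)) :
    (C1 r e σ i s : ℤ) = 3 * dgap (L.map fun k => decide (σ k = chi i k)).length
      ((L.map fun k => decide (σ k = chi i k)).getLastD true)
      ((L.map fun k => decide (σ k = chi i k)).count false)
      (L.map fun k => decide (σ k = chi i k)) := by
  set X := L.map fun k => decide (σ k = chi i k) with hX
  have hlen : L.length + 1 = m := by
    have h1 : L.toFinset = Finset.univ.erase i := by
      ext k
      simp [hmem]
    have h2 : L.toFinset.card = L.length := List.toFinset_card_of_nodup hnd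
    rw [h1, Finset.card_erase_of_mem (Finset.mem_univ i), Finset.card_univ, Fintype.card_fin] at h2
    have h3 : 0 < m := Fin.pos i
    omega
  have hG : (C1 r e σ i s : ℤ) = ∑ ξ : Fin m → ℤˣ, (wt ξ : ℤ) *
      (fun Z => (((bB (decide (s = -1)) X Z + bB (decide (s = -1)) X (Z.map not)) % 2 : ℕ) : ℤ))
        (zl (fun k => σ k * chi i k) ξ L) := by
    unfold C1
    push_cast
    apply Finset.sum_congr rfl
    intro ξ _
    rw [b1_eq r hr e ξ σ i s L hnd hmem hs, b1_eq_neg r hr e ξ σ i s L hnd hmem hs]
  have hlam : (L.map fun k => decide ((fun k => σ k * chi i k) k = 1)) = X := by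
    rw [hX]
    apply List.map_congr_left
    intro k _
    rcases Int.units_eq_one_or (σ k) with a | a <;>
    rcases Int.units_eq_one_or (chi i k) with b | b <;> simp only [a, b] <;> decide
  have h := sum_lists (fun k => σ k * chi i k) L hnd
    (fun Z => (((bB (decide (s = -1)) X Z + bB (decide (s = -1)) X (Z.map not)) % 2 : ℕ) : ℤ))
  rw [← hG, hlam, SS_main] at h
  have h3 : (3 : ℤ) ^ L.length ≠ 0 := pow_ne_zero _ (by norm_num)
  have h4 : (3 : ℤ) ^ m = 3 ^ L.length * 3 := by
    rw [← pow_succ]
    exact congrArg (fun n => (3 : ℤ) ^ n) hlen.symm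
  rw [h4, mul_assoc] at h
  exact mul_left_cancel₀ h3 h

end Pool.Agent.K2L
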