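import Mathlib
import Pool.Agent.K2L.Defs
import Pool.Agent.K2L.WordC

/-!
# The number of faces and the sum over all gaps of a word
-/

set_option autoImplicit false

open scoped BigOperators

namespace Pool.Agent.K2L

/-- sum of the levels before the letters -/
def asb (n : ℕ) : ℕ → List Bool → ℤ
  | _, [] => 0
  | e, x :: w => (if x then 2 ^ e else 2 ^ (n - e)) + asb n (if x then e + 1 else e - 1) w

theorem gap_sum_aux (n : ℕ) (w : List Bool) : ∀ (p : Bool) (a b : ℕ), n = a + b + w.length →
    sgap n p (a + w.count false) w + dgap n p (a + w.count false) w =
      3 * asb n (a + w.count false) w + 2 * (2 ^ (a + w.count false) + 2 ^ (b + w.count true)) -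
        2 * (2 ^ (a + w.count true) + 2 ^ (b + w.count false)) := by
  induction w with
  | nil => intro p a b h; simp [sgap, dgap, asb]
  | cons x w ih =>
    intro p a b h
    have hl : w.length = w.count true + w.count false := by
      have := List.length_eq_countP_add_countP (fun x : Bool => x == true) (l := w)
      rw [this]
      simp only [List.count]
      congr 1
      apply List.countP_congr
      intro x _
      cases x <;> simp
    cases x
    · -- B
      have h1 := ih false a (b + 1) (by simp only [List.length_cons] at h; omega)
      have hn : n - (a + (w.count false + 1)) = b + w.count true := by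
        simp only [List.length_cons] at h; omega
      simp only [sgap, dgap, asb, List.count_cons_self, Bool.false_eq_true, if_false,
        List.count_cons_of_ne (show (false : Bool) ≠ true by decide)]
      rw [hn, show a + (w.count false + 1) - 1 = a + w.count false by omega]
      have e1 : (2 : ℤ) ^ (a + (w.count false + 1)) = 2 * 2 ^ (a + w.count false) := by
        rw [← add_assoc, pow_succ]; ring
      have e2 : (2 : ℤ) ^ (b + 1 + w.count true) = 2 * 2 ^ (b + w.count true) := by
        rw [show b + 1 + w.count true = b + w.count true + 1 by omega, pow_succ]; ring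
      have e3 : (2 : ℤ) ^ (b + 1 + w.count false) = 2 ^ (b + (w.count false + 1)) := by
        congr 1; omega
      rw [e2, e3] at h1
      rw [e1]
      split_ifs <;> linarith
    · -- A
      have h1 := ih true (a + 1) b (by simp only [List.length_cons] at h; omega)
      have hn : n - (a + w.count false) = b + (w.count true + 1) := by
        simp only [List.length_cons] at h; omega
      simp only [sgap, dgap, asb, List.count_cons_self, if_true,
        List.count_cons_of_ne (show (true : Bool) ≠ false by decide)]
      rw [hn]
      rw [show a + 1 + w.count false = a + w.count false + 1 by omega] at h1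
      have e1 : (2 : ℤ) ^ (a + w.count false + 1) = 2 * 2 ^ (a + w.count false) := by
        rw [pow_succ]; ring
      have e2 : (2 : ℤ) ^ (b + (w.count true + 1)) = 2 * 2 ^ (b + w.count true) := by
        rw [← add_assoc, pow_succ]; ring
      have e3 : (2 : ℤ) ^ (a + 1 + w.count true) = 2 ^ (a + (w.count true + 1)) := by
        congr 1; omega
      rw [e1, e3] at h1
      rw [e2]
      split_ifs <;> linarith

theorem gap_sum (w : List Bool) (p : Bool) :
    sgap w.length p (w.count false) w + dgap w.length p (w.count false) w =
      3 * asb w.length (w.count false) w := by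
  have h := gap_sum_aux w.length w p 0 0 (by simp)
  simp only [zero_add] at h
  rw [h]
  ring

/-- number of the subsets with all `A`s before all `B`s, both nonempty -/
def NN : List Bool → ℤ
  | [] => 0
  | true :: w => 2 * NN w + 2 ^ w.count false - 1
  | false :: w => NN w

theorem NN_sum_aux (n : ℕ) (w : List Bool) : ∀ (a b : ℕ), n = a + b + w.length →
    asb n (a + w.count false) w = 2 ^ a * (NN w + 2 ^ w.count true - 1) +
      2 ^ b * (NN (w.map not) + 2 ^ w.count false - 1) := by
  induction w with
  | nil => intro a b h; simp [asb, NN]
  | cons x w ih =>
    intro a b h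
    have hl : w.length = w.count true + w.count false := by
      have := List.length_eq_countP_add_countP (fun x : Bool => x == true) (l := w)
      rw [this]
      simp only [List.count]
      congr 1
      apply List.countP_congr
      intro x _
      cases x <;> simp
    have hnot : ∀ w : List Bool, (w.map not).count false = w.count true := by
      intro w
      induction w with
      | nil => rfl
      | cons x w ih => cases x <;> simp [ih]
    cases x
    · have h1 := ih a (b + 1) (by simp only [List.length_cons] at h; omega)
      have hn : n - (a + (w.count false + 1)) = b + w.count true := by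
        simp only [List.length_cons] at h; omega
      simp only [asb, List.count_cons_self, Bool.false_eq_true, if_false, List.map_cons, NN,
        Bool.not_false, hnot,
        List.count_cons_of_ne (show (false : Bool) ≠ true by decide)]
      rw [hn, show a + (w.count false + 1) - 1 = a + w.count false by omega, h1]
      ring
    · have h1 := ih (a + 1) b (by simp only [List.length_cons] at h; omega)
      have hn : n - (a + w.count false) = b + (w.count true + 1) := by
        simp only [List.length_cons] at h; omega
      simp only [asb, List.count_cons_self, if_true, List.map_cons, NN,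
        Bool.not_true, List.count_cons_of_ne (show (true : Bool) ≠ false by decide)]
      rw [show a + w.count false + 1 = a + 1 + w.count false by omega, h1]
      ring

theorem NN_sum (w : List Bool) : NN w + NN (w.map not) =
    asb w.length (w.count false) w + 2 - 2 ^ w.count true - 2 ^ w.count false := by
  have h := NN_sum_aux w.length w 0 0 (by simp)
  simp only [zero_add, pow_zero, one_mul] at h
  rw [h]
  ring

/-- counting sets by the list -/
theorem card_NN {α : Type*} [DecidableEq α] (p : α → Bool) (R : α → α → Prop) [DecidableRel R]
    (L : List α) (hnd : L.Nodup) (hR : L.Pairwise R)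
    (has : ∀ a ∈ L, ∀ b ∈ L, a ≠ b → R a b → ¬ R b a) :
    (((L.toFinset.powerset.filter fun Z : Finset α => (∃ a ∈ Z, p a = true) ∧
      (∃ b ∈ Z, p b = false) ∧ ∀ a ∈ Z, ∀ b ∈ Z, p a = true → p b = false → R a b).card : ℕ) : ℤ) =
      NN (L.map p) := by
  induction L with
  | nil => simp [NN]
  | cons x L ih =>
    rw [List.nodup_cons] at hnd
    rw [List.pairwise_cons] at hR
    have ih' := ih hnd.2 hR.2 (fun a ha b hb => has a (List.mem_cons_of_mem _ ha) b
      (List.mem_cons_of_mem _ hb))
    have hx : x ∉ L.toFinset := by simpa using hnd.1
    have hdisj : Disjoint L.toFinset.powerset (L.toFinset.powerset.image (insert x)) := by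
      rw [Finset.disjoint_left]
      intro Z hZ hZ'
      rw [Finset.mem_powerset] at hZ
      rw [Finset.mem_image] at hZ'
      obtain ⟨Y, _, rfl⟩ := hZ'
      exact hx (hZ (Finset.mem_insert_self x Y))
    rw [List.toFinset_cons, Finset.powerset_insert, Finset.filter_union,
      Finset.card_union_of_disjoint (Finset.disjoint_filter_filter hdisj)]
    push_cast
    rw [ih', Finset.filter_image, Finset.card_image_of_injOn (by
      intro Y hY Y' hY' h
      rw [Finset.mem_coe, Finset.mem_filter, Finset.mem_powerset] at hY hY'
      have e1 : (insert x Y).erase x = Y := Finset.erase_insert (fun h => hx (hY.1 h))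
      have e2 : (insert x Y').erase x = Y' := Finset.erase_insert (fun h => hx (hY'.1 h))
      rw [← e1, ← e2]
      exact congrArg (fun s => Finset.erase s x) h)]
    cases hpx : p x
    · -- `x` is a `B`
      rw [List.map_cons, hpx]
      simp only [NN]
      have : (L.toFinset.powerset.filter fun Y : Finset α => (∃ a ∈ insert x Y, p a = true) ∧
          (∃ b ∈ insert x Y, p b = false) ∧
          ∀ a ∈ insert x Y, ∀ b ∈ insert x Y, p a = true → p b = false → R a b) = ∅ := by
        rw [Finset.filter_eq_empty_iff]
        intro Y hY h
        rw [Finset.mem_powerset] at hY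
        obtain ⟨⟨a, ha, hpa⟩, _, h3⟩ := h
        have hax : a ≠ x := by rintro rfl; rw [hpx] at hpa; exact absurd hpa (by decide)
        have haL : a ∈ L := by
          have := hY ((Finset.mem_insert.1 ha).resolve_left hax)
          simpa using this
        exact has x List.mem_cons_self a (List.mem_cons_of_mem _ haL) (Ne.symm hax)
          (hR.1 a haL) (h3 a ha x (Finset.mem_insert_self x Y) hpa hpx)
      rw [this]
      simp
    · -- `x` is an `A`
      rw [List.map_cons, hpx]
      simp only [NN]
      have hsplit : (L.toFinset.powerset.filter fun Y : Finset α => (∃ a ∈ insert x Y, p a = true) ∧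
          (∃ b ∈ insert x Y, p b = false) ∧
          ∀ a ∈ insert x Y, ∀ b ∈ insert x Y, p a = true → p b = false → R a b) =
          (L.toFinset.powerset.filter fun Z : Finset α => (∃ a ∈ Z, p a = true) ∧
          (∃ b ∈ Z, p b = false) ∧ ∀ a ∈ Z, ∀ b ∈ Z, p a = true → p b = false → R a b) ∪
          ((L.toFinset.filter fun b => p b = false).powerset.erase ∅) := by
        ext Y
        simp only [Finset.mem_filter, Finset.mem_powerset, Finset.mem_union, Finset.mem_erase,
          Finset.mem_insert, exists_eq_or_imp, forall_eq_or_imp]
        constructor
        · rintro ⟨hY, _, h2, h3, h4⟩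
          have hB : ∃ b ∈ Y, p b = false := by
            rcases h2 with h2 | h2
            · rw [hpx] at h2; exact absurd h2 (by decide)
            · exact h2
          by_cases hA : ∃ a ∈ Y, p a = true
          · exact Or.inl ⟨hY, hA, hB, fun a ha b hb => (h4 a ha).2 b hb⟩
          · right
            refine ⟨?_, ?_⟩
            · obtain ⟨b, hb, _⟩ := hB
              exact Finset.ne_empty_of_mem hb
            · intro b hb
              rw [Finset.mem_filter]
              refine ⟨hY hb, ?_⟩
              by_contra h
              exact hA ⟨b, hb, by simpa using h⟩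
        · rintro (⟨hY, hA, hB, h4⟩ | ⟨hne, hY⟩)
          · refine ⟨hY, Or.inl hpx, Or.inr hB, ⟨?_, ?_⟩, ?_⟩
            · intro _ h; rw [hpx] at h; exact absurd h (by decide)
            · intro b hb _ _
              exact hR.1 b (by simpa using hY hb)
            · intro a ha
              refine ⟨?_, fun b hb => h4 a ha b hb⟩
              intro _ h; rw [hpx] at h; exact absurd h (by decide)
          · have hYL : Y ⊆ L.toFinset := fun b hb => (Finset.mem_filter.1 (hY hb)).1
            have hYB : ∀ b ∈ Y, p b = false := fun b hb => (Finset.mem_filter.1 (hY hb)).2
            refine ⟨hYL, Or.inl hpx, Or.inr ?_, ⟨?_, ?_⟩, ?_⟩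
            · obtain ⟨b, hb⟩ := Finset.nonempty_iff_ne_empty.2 hne
              exact ⟨b, hb, hYB b hb⟩
            · intro _ h; rw [hpx] at h; exact absurd h (by decide)
            · intro b hb _ _
              exact hR.1 b (by simpa using hYL hb)
            · intro a ha
              refine ⟨?_, ?_⟩
              · intro h; rw [hYB a ha] at h; exact absurd h (by decide)
              · intro b _ h; rw [hYB a ha] at h; exact absurd h (by decide)
      have hd2 : Disjoint (L.toFinset.powerset.filter fun Z : Finset α => (∃ a ∈ Z, p a = true) ∧
          (∃ b ∈ Z, p b = false) ∧ ∀ a ∈ Z, ∀ b ∈ Z, p a = true → p b = false → R a b)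
          ((L.toFinset.filter fun b => p b = false).powerset.erase ∅) := by
        rw [Finset.disjoint_left]
        intro Y hY hY'
        rw [Finset.mem_filter] at hY
        rw [Finset.mem_erase, Finset.mem_powerset] at hY'
        obtain ⟨a, ha, hpa⟩ := hY.2.1
        have := (Finset.mem_filter.1 (hY'.2 ha)).2
        rw [hpa] at this
        exact absurd this (by decide)
      rw [hsplit, Finset.card_union_of_disjoint hd2]
      push_cast
      rw [ih', Finset.card_erase_of_mem (Finset.empty_mem_powerset _), Finset.card_powerset]
      have hcount : (L.toFinset.filter fun b => p b = false).card = (L.map p).count false := by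
        have h1 : (L.toFinset.filter fun b => p b = false) =
            (L.filter fun b => !p b).toFinset := by
          ext b
          simp
        rw [h1, List.toFinset_card_of_nodup (hnd.2.filter _), List.count,
          List.countP_map, List.countP_eq_length_filter]
        congr 1
        apply List.filter_congr
        intro x _
        simp only [Function.comp_def]
        cases p x <;> rfl
      rw [hcount, Nat.cast_sub Nat.one_le_two_pow]
      push_cast
      ring

/-- the number of the faces with top at the vertex -/
theorem w1_NN {m : ℕ} (r : Fin m → ℕ) (hr : Function.Injective r) (e σ : Fin m → ℤˣ)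
    (i : Fin m) (L : List (Fin m)) (hnd : L.Nodup) (hmem : ∀ k, k ∈ L ↔ k ≠ i)
    (hs : L.Pairwise (Bef r e i)) :
    (W1 r e σ i : ℤ) = 1 + NN (L.map fun k => decide (σ k = chi i k)) := by
  have h := card_NN (fun k => decide (σ k = chi i k)) (Bef r e i) L hnd hs (by
    intro a ha b hb hab h1
    exact (bef_asymm r hr e i a b (Ne.symm ((hmem a).1 ha)) (Ne.symm ((hmem b).1 hb)) hab).1 h1)
  rw [← h]
  unfold W1
  push_cast
  congr 2
  congr 1
  ext Z
  simp only [Finset.mem_filter, Finset.mem_univ, true_and, Finset.mem_powerset,
    decide_eq_true_eq, decide_eq_false_iff_not]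
  have h1 : i ∉ Z ↔ Z ⊆ L.toFinset := by
    constructor
    · intro h k hk
      rw [List.mem_toFinset, hmem]
      rintro rfl
      exact h hk
    · intro h hi
      have := h hi
      rw [List.mem_toFinset, hmem] at this
      exact this rfl
  rw [h1]

theorem w1_word {m : ℕ} (r : Fin m → ℕ) (hr : Function.Injective r) (e σ : Fin m → ℤˣ)
    (i : Fin m) (L : List (Fin m)) (hnd : L.Nodup) (hmem : ∀ k, k ∈ L ↔ k ≠ i)
    (hs : L.Pairwise (Bef r e i)) :
    (W1 r e σ i : ℤ) + (W1 r e (-σ) i : ℤ) =
      asb (L.map fun k => decide (σ k = chi i k)).length
        ((L.map fun k => decide (σ k = chi i k)).count false)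
        (L.map fun k => decide (σ k = chi i k)) + 4 -
        2 ^ (L.map fun k => decide (σ k = chi i k)).count true -
        2 ^ (L.map fun k => decide (σ k = chi i k)).count false := by
  rw [w1_NN r hr e σ i L hnd hmem hs, w1_NN r hr e (-σ) i L hnd hmem hs]
  have h1 : (L.map fun k => decide ((-σ) k = chi i k)) =
      (L.map fun k => decide (σ k = chi i k)).map not := by
    rw [List.map_map]
    apply List.map_congr_left
    intro k _
    exact WC.aux1 (σ k) (chi i k)
  rw [h1]
  have h2 := NN_sum (L.map fun k => decide (σ k = chi i k))
  linarith

end Pool.Agent.K2L
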