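import Mathlib
import Pool.Agent.K2L.Defs
import Pool.Agent.K2L.Law
import Pool.Agent.K2L.WordC
import Pool.Agent.K2L.WordB

/-!
# The local surplus at a vertex with one free coordinate in terms of the word of its line
-/

set_option autoImplicit false

open scoped BigOperators

namespace Pool.Agent.K2L

/-- the other lines in the order in which they are crossed by the outermost line `j` -/
def nearLw {n : ℕ} (j : Fin (n + 1)) (u : ℤˣ) : List (Fin (n + 1)) :=
  let w := (List.finRange (n + 1)).filter (fun l => j < l) ++
    (List.finRange (n + 1)).filter (fun l => l < j)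
  if u = -1 then w else w.reverse

/-- the other lines in the order in which they are crossed by the line `i` -/
def lst : {n : ℕ} → Ord n → (Fin n → ℤˣ) → Fin n → List (Fin n)
  | _, .nil, _ => fun _ => []
  | _, .cons (n := n) j o, e =>
    Fin.insertNth (α := fun _ => List (Fin (n + 1))) j (nearLw j (e j)) (fun i =>
      if e j = chi (j.succAbove i) j then
        j :: (lst o (fun k => e (j.succAbove k)) i).map j.succAbove
      else
        (lst o (fun k => e (j.succAbove k)) i).map j.succAbove ++ [j])

theorem near_eq_w {n : ℕ} (j : Fin (n + 1)) (u : ℤˣ) (σ : Fin (n + 1) → ℤˣ) :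
    near j u σ = (nearLw j u).map (fun l => decide (σ l = chi j l)) := by
  unfold near nearLw
  simp only
  split_ifs
  · rfl
  · rw [List.map_reverse]

theorem chi_succAbove_w {n : ℕ} (j : Fin (n + 1)) (i k : Fin n) :
    chi (j.succAbove i) (j.succAbove k) = chi i k := by
  unfold chi
  simp only [Fin.succAbove_lt_succAbove_iff]

theorem word_eq_w {n : ℕ} (o : Ord n) : ∀ (e σ : Fin n → ℤˣ) (i : Fin n),
    word o e σ i = (lst o e i).map (fun k => decide (σ k = chi i k)) := by
  induction o with
  | nil => intro e σ i; exact i.elim0
  | cons j o ih =>
    intro e σ i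
    rcases Fin.eq_self_or_eq_succAbove j i with h | ⟨i', h⟩
    · subst h
      simp only [word, lst, Fin.insertNth_apply_same]
      exact near_eq_w i (e i) σ
    · subst h
      simp only [word, lst, Fin.insertNth_apply_succAbove]
      rw [ih]
      split_ifs
      · simp only [List.map_cons, List.map_map, Function.comp_def, chi_succAbove_w]
      · simp only [List.map_append, List.map_cons, List.map_nil, List.map_map, Function.comp_def,
          chi_succAbove_w]

theorem nearLw_mem {n : ℕ} (j : Fin (n + 1)) (u : ℤˣ) (k : Fin (n + 1)) :
    k ∈ nearLw j u ↔ k ≠ j := by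
  unfold nearLw
  simp only
  split_ifs
  · simp only [List.mem_append, List.mem_filter, List.mem_finRange, true_and, decide_eq_true_eq]
    constructor
    · rintro (h | h)
      · exact ne_of_gt h
      · exact ne_of_lt h
    · intro h
      rcases lt_or_gt_of_ne h with h | h
      · exact Or.inr h
      · exact Or.inl h
  · simp only [List.mem_reverse, List.mem_append, List.mem_filter, List.mem_finRange, true_and,
      decide_eq_true_eq]
    constructor
    · rintro (h | h)
      · exact ne_of_gt h
      · exact ne_of_lt h
    · intro h
      rcases lt_or_gt_of_ne h with h | h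
      · exact Or.inr h
      · exact Or.inl h

theorem lst_mem {n : ℕ} (o : Ord n) : ∀ (e : Fin n → ℤˣ) (i k : Fin n),
    k ∈ lst o e i ↔ k ≠ i := by
  induction o with
  | nil => intro e i; exact i.elim0
  | cons j o ih =>
    intro e i k
    rcases Fin.eq_self_or_eq_succAbove j i with h | ⟨i', h⟩
    · subst h
      simp only [lst, Fin.insertNth_apply_same]
      exact nearLw_mem i (e i) k
    · subst h
      simp only [lst, Fin.insertNth_apply_succAbove]
      have key : (k = j ∨ k ∈ (lst o (fun k => e (j.succAbove k)) i').map j.succAbove) ↔
          k ≠ j.succAbove i' := by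
        rcases Fin.eq_self_or_eq_succAbove j k with h | ⟨k', h⟩
        · subst h
          simp only [true_or, true_iff]
          exact (Fin.succAbove_ne k i').symm
        · subst h
          rw [List.mem_map_of_injective Fin.succAbove_right_injective, ih]
          simp only [Fin.succAbove_ne, false_or, ne_eq, Fin.succAbove_right_inj]
      split_ifs
      · rw [List.mem_cons]
        exact key
      · rw [List.mem_append, List.mem_singleton, or_comm]
        exact key

/-- the order of the lines on the outermost line -/
theorem wPair_w {n : ℕ} (j : Fin (n + 1)) :
    ((List.finRange (n + 1)).filter (fun l => j < l) ++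
    (List.finRange (n + 1)).filter (fun l => l < j)).Pairwise
      (fun k l => k ≠ l ∧ chi l k * chi l j = chi j k) := by
  have hs : (List.finRange (n + 1)).Pairwise (fun a b => a < b) := List.pairwise_lt_finRange _
  rw [List.pairwise_append]
  refine ⟨?_, ?_, ?_⟩
  · rw [List.pairwise_filter]
    refine hs.imp ?_
    intro a b hab ha hb
    have ha' : j < a := by simpa using ha
    have hb' : j < b := by simpa using hb
    refine ⟨ne_of_lt hab, ?_⟩
    unfold chi
    rw [if_neg (not_lt.2 hab.le), if_neg (not_lt.2 hb'.le), if_pos ha']
    rfl
  · rw [List.pairwise_filter]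
    refine hs.imp ?_
    intro a b hab ha hb
    have ha' : a < j := by simpa using ha
    have hb' : b < j := by simpa using hb
    refine ⟨ne_of_lt hab, ?_⟩
    unfold chi
    rw [if_neg (not_lt.2 hab.le), if_pos hb', if_neg (not_lt.2 ha'.le)]
    rfl
  · intro a ha b hb
    simp only [List.mem_filter, List.mem_finRange, true_and, decide_eq_true_eq] at ha hb
    refine ⟨ne_of_gt (hb.trans ha), ?_⟩
    unfold chi
    rw [if_pos (hb.trans ha), if_pos hb, if_pos ha]
    rfl

theorem lst_nodup {n : ℕ} (o : Ord n) : ∀ (e : Fin n → ℤˣ) (i : Fin n), (lst o e i).Nodup := by
  induction o with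
  | nil => intro e i; exact i.elim0
  | cons j o ih =>
    intro e i
    rcases Fin.eq_self_or_eq_succAbove j i with h | ⟨i', h⟩
    · subst h
      simp only [lst, Fin.insertNth_apply_same]
      unfold nearLw
      simp only
      split_ifs
      · exact (wPair_w i).imp (fun h => h.1)
      · rw [List.nodup_reverse]
        exact (wPair_w i).imp (fun h => h.1)
    · subst h
      simp only [lst, Fin.insertNth_apply_succAbove]
      have h1 : ((lst o (fun k => e (j.succAbove k)) i').map j.succAbove).Nodup :=
        (ih _ _).map Fin.succAbove_right_injective
      have h2 : j ∉ (lst o (fun k => e (j.succAbove k)) i').map j.succAbove := by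
        simp only [List.mem_map, not_exists, not_and]
        intro x _ h
        exact Fin.succAbove_ne j x h
      split_ifs
      · exact List.nodup_cons.2 ⟨h2, h1⟩
      · rw [List.nodup_append]
        refine ⟨h1, List.nodup_singleton j, ?_⟩
        intro a ha b hb hab
        rw [List.mem_singleton] at hb
        subst hb; subst hab
        exact h2 ha

theorem rk_lt_w {n : ℕ} (o : Ord n) (l : Fin n) : rk o l < n := by
  rw [← rkL_toL]
  have h1 := toL_length o
  have h2 := List.idxOf_lt_length_of_mem (mem_toL o l)
  simp only [rkL]
  omega

theorem bef_succAbove {n : ℕ} (j : Fin (n + 1)) (o : Ord n) (e : Fin (n + 1) → ℤˣ)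
    (i k l : Fin n) : Bef (rk (.cons j o)) e (j.succAbove i) (j.succAbove k) (j.succAbove l) ↔
      Bef (rk o) (fun k => e (j.succAbove k)) i k l := by
  unfold Bef tau
  simp only [rk, Fin.insertNth_apply_succAbove, chi_succAbove_w]

theorem lst_pairwise {n : ℕ} (o : Ord n) : ∀ (e : Fin n → ℤˣ) (i : Fin n),
    (lst o e i).Pairwise (Bef (rk o) e i) := by
  induction o with
  | nil => intro e i; exact i.elim0
  | cons j o ih =>
    rename_i n
    intro e i
    have hj : rk (.cons j o) j = n := by simp only [rk, Fin.insertNth_apply_same]
    have hs : ∀ x, rk (.cons j o) (j.succAbove x) < n := by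
      intro x
      simp only [rk, Fin.insertNth_apply_succAbove]
      exact rk_lt_w o x
    rcases Fin.eq_self_or_eq_succAbove j i with h | ⟨i', h⟩
    · subst h
      have hle : ∀ l, l ≠ i → rk (.cons i o) l < n := by
        intro l hl
        rcases Fin.eq_self_or_eq_succAbove i l with h | ⟨l', h⟩
        · exact absurd h hl
        · subst h; exact hs l'
      have hmem := lst_mem (.cons i o) e i
      simp only [lst, Fin.insertNth_apply_same] at hmem ⊢
      have hbef : ∀ k l, l ≠ i → (Bef (rk (.cons i o)) e i k l ↔
          -(e i * chi l k * chi l i) = chi i k) := by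
        intro k l hl
        unfold Bef tau
        have h1 := hle l hl
        have h2 := rk_lt_w (.cons i o) k
        rw [if_neg (by omega), if_pos (by omega)]
      rcases Int.units_eq_one_or (e i) with he | he
      · have hne : ¬ ((1 : ℤˣ) = -1) := by decide
        rw [he] at hmem hbef ⊢
        unfold nearLw at hmem ⊢
        simp only [if_neg hne, List.mem_reverse] at hmem ⊢
        rw [List.pairwise_reverse]
        refine (wPair_w i).imp_of_mem ?_
        intro a b ha hb hab
        have ha' := (hmem a).1 ha
        have hb' := (hmem b).1 hb
        rw [hbef b a ha']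
        have h1 := hab.2
        have c1 : chi b a = - chi a b := chi_swap hab.1
        have c2 : chi b i = - chi i b := chi_swap (Ne.symm hb')
        have c3 : chi i a = - chi a i := chi_swap ha'
        rw [c1, c2, c3] at h1
        generalize chi a b = x at *
        generalize chi i b = y at *
        generalize chi a i = z at *
        clear hmem hbef ha hb c1 c2 c3 hab
        revert h1
        revert x y z
        decide
      · rw [he] at hmem hbef ⊢
        unfold nearLw at hmem ⊢
        simp only [if_true] at hmem ⊢
        refine (wPair_w i).imp_of_mem ?_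
        intro a b ha hb hab
        rw [hbef a b ((hmem b).1 hb), ← hab.2]
        generalize chi b a = x
        generalize chi b i = y
        revert x y
        decide
    · subst h
      have h1 : ((lst o (fun k => e (j.succAbove k)) i').map j.succAbove).Pairwise
          (Bef (rk (.cons j o)) e (j.succAbove i')) := by
        rw [List.pairwise_map]
        refine (ih (fun k => e (j.succAbove k)) i').imp ?_
        intro a b hab
        exact (bef_succAbove j o e i' a b).2 hab
      simp only [lst, Fin.insertNth_apply_succAbove]
      split_ifs with he
      · rw [List.pairwise_cons]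
        refine ⟨?_, h1⟩
        intro l hl
        rw [List.mem_map] at hl
        obtain ⟨l', _, rfl⟩ := hl
        unfold Bef tau
        have := hs i'
        have := hs l'
        rw [if_pos ⟨by omega, by omega⟩]
        exact he
      · rw [List.pairwise_append]
        refine ⟨h1, List.pairwise_singleton _ _, ?_⟩
        intro k hk b hb
        rw [List.mem_singleton] at hb
        subst hb
        rw [List.mem_map] at hk
        obtain ⟨k', _, rfl⟩ := hk
        unfold Bef tau
        have h3 := hs i'
        have h4 := hs k'
        rw [if_neg (by omega), if_neg (by omega)]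
        generalize chi (b.succAbove i') (b.succAbove k') = x at *
        generalize chi (b.succAbove i') b = y at *
        generalize e b = z at *
        revert he
        revert x y z
        decide

/-- the local surplus at a vertex with one free coordinate is three times the surplus of a word -/
theorem x1_word {n : ℕ} (o : Ord n) (e σ : Fin n → ℤˣ) (i : Fin n) (s : ℤˣ) :
    X1 (rk o) e σ i s = 3 * D3 (word o e σ i) := by
  have h1 := w1_word (rk o) (rk_injective o) e σ i (lst o e i) (lst_nodup o e i) (lst_mem o e i)
    (lst_pairwise o e i)
  have h2 := c1_word (rk o) (rk_injective o) e σ i s (lst o e i) (lst_nodup o e i)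
    (lst_mem o e i) (lst_pairwise o e i)
  rw [← word_eq_w] at h1 h2
  have h3 := gap_sum (word o e σ i) ((word o e σ i).getLastD true)
  unfold X1 D3
  rw [h1, h2]
  linarith

end Pool.Agent.K2L
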