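import Pool.Agent.K2L.Avg1Step
import Pool.Agent.K2L.Base1
import Pool.Agent.K2L.Word

/-!
# Type 1 averages: conclusion
-/

set_option autoImplicit false

open scoped BigOperators

namespace Pool.Agent.K2L

/-- all type 1 averages of `D3` are nonnegative -/
theorem avgD (k : ℕ) (σ : Fin (k + 6) → ℤˣ) (i : Fin (k + 6)) :
    0 ≤ ((ordsO k).map fun o => ∑ e : Fin (k + 6) → ℤˣ, D3 (word o e σ i)).sum :=
  avgD_of_base base1_0 base1_1 k σ i

/-- all type 1 averages are nonnegative, given the formula for `X1` -/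
theorem avg1_of
    (hw : ∀ {n : ℕ} (o : Ord n) (e σ : Fin n → ℤˣ) (i : Fin n) (s : ℤˣ),
      X1 (rk o) e σ i s = 3 * D3 (word o e σ i))
    {m : ℕ} (hm : 6 ≤ m) (σ : Fin m → ℤˣ) (i : Fin m) (s : ℤˣ) :
    0 ≤ ((KK.ords m).map fun o => ∑ e : Fin m → ℤˣ, X1 (rkL o) e σ i s).sum := by
  obtain ⟨k, rfl⟩ := Nat.exists_eq_add_of_le' hm
  rw [sum_ords k (fun r => ∑ e : Fin (k + 6) → ℤˣ, X1 r e σ i s)]
  have h : ∀ o : Ord (k + 6), ∑ e : Fin (k + 6) → ℤˣ, X1 (rk o) e σ i s =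
      3 * ∑ e : Fin (k + 6) → ℤˣ, D3 (word o e σ i) := by
    intro o
    rw [Finset.mul_sum]
    exact Finset.sum_congr rfl fun e _ => hw o e σ i s
  have h2 : ((ordsO k).map fun o => ∑ e : Fin (k + 6) → ℤˣ, X1 (rk o) e σ i s).sum =
      3 * ((ordsO k).map fun o => ∑ e : Fin (k + 6) → ℤˣ, D3 (word o e σ i)).sum := by
    rw [← list_sum_map_mul]
    congr 1
    exact List.map_congr_left fun o _ => h o
  rw [h2]
  have := avgD k σ i
  linarith

/-- all type 1 averages are nonnegative -/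
theorem avg1 {m : ℕ} (hm : 6 ≤ m) (σ : Fin m → ℤˣ) (i : Fin m) (s : ℤˣ) :
    0 ≤ ((KK.ords m).map fun o => ∑ e : Fin m → ℤˣ, X1 (rkL o) e σ i s).sum :=
  avg1_of (fun o e σ i s => x1_word o e σ i s) hm σ i s

end Pool.Agent.K2L
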