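import Pool.Agent.K2L.Main
import Pool.Agent.GRD.K2

/-!
# Kalai's inequality with two-dimensional Gale vectors: from the local inequalities to `HS`

`core_of` takes the results of the other modules as hypotheses.
-/

set_option autoImplicit false

open scoped BigOperators

namespace Pool.Agent.K2L

/-! ### sign vectors without alternating triple -/

theorem dt_sum {m : ℕ} (g : Fin m → ℝ × ℝ) (a : ℝ × ℝ) (y : Fin m → ℝ) :
    dt a (∑ k, y k • g k) = ∑ k, y k * dt a (g k) := by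
  unfold dt
  rw [Prod.fst_sum, Prod.snd_sum, Finset.mul_sum, Finset.mul_sum, ← Finset.sum_sub_distrib]
  apply Finset.sum_congr rfl
  intro k _
  simp
  ring

theorem sr_mul_self (u : ℤˣ) : sr u * sr u = 1 := by
  rcases Int.units_eq_one_or u with rfl | rfl <;> simp [sr]

theorem exists_alt {m : ℕ} (hm : 2 ≤ m) (g : Fin m → ℝ × ℝ) (hg : Sorted g) (σ : Fin m → ℤˣ)
    (h0 : Tie0 g σ) : ∃ a b c, Alt σ a b c := by
  by_contra hno
  push Not at hno
  -- `p` is the last index of the first block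
  obtain ⟨p, hp1, hp2⟩ : ∃ p : Fin m, (∀ k, k ≤ p → σ k = σ ⟨0, by omega⟩) ∧
      ∀ q, (∀ k, k ≤ q → σ k = σ ⟨0, by omega⟩) → q ≤ p := by
    set S : Finset (Fin m) := Finset.univ.filter fun q => ∀ k, k ≤ q → σ k = σ ⟨0, by omega⟩ with hS
    have hne : S.Nonempty := by
      refine ⟨⟨0, by omega⟩, ?_⟩
      rw [hS, Finset.mem_filter]
      refine ⟨Finset.mem_univ _, fun k hk => ?_⟩
      congr 1
      apply Fin.ext
      have : (k : ℕ) ≤ 0 := hk
      simp
      omega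
    refine ⟨S.max' hne, ?_, ?_⟩
    · have := S.max'_mem hne
      exact (Finset.mem_filter.mp this).2
    · intro q hq
      apply Finset.le_max'
      rw [hS, Finset.mem_filter]
      exact ⟨Finset.mem_univ _, hq⟩
  have hp3 : ∀ k, p < k → σ k ≠ σ p := by
    intro k hk hkk
    -- the index `p + 1`
    have hlt : (p : ℕ) + 1 < m := by
      have : (p : ℕ) < k := hk
      have := k.2
      omega
    set q : Fin m := ⟨p + 1, hlt⟩ with hq
    have hq1 : σ q ≠ σ ⟨0, by omega⟩ := by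
      intro hqq
      have := hp2 q (by
        intro k hk
        by_cases hkq : k = q
        · rw [hkq, hqq]
        · apply hp1
          have h1 : (k : ℕ) ≤ p + 1 := hk
          have h2 : (k : ℕ) ≠ p + 1 := fun h => hkq (Fin.ext h)
          show (k : ℕ) ≤ p
          omega)
      have : (p : ℕ) + 1 ≤ p := this
      omega
    have hpk : σ p = σ ⟨0, by omega⟩ := hp1 p le_rfl
    have hkq : q ≠ k := by
      intro hh
      rw [hh, hkk, hpk] at hq1
      exact hq1 rfl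
    apply hno p q k
    have h1 : (p : ℕ) < k := hk
    have h2 : (k : ℕ) ≠ p + 1 := fun h => hkq (Fin.ext h.symm)
    refine ⟨?_, ?_, hkk.symm, by rw [hpk]; exact hq1⟩
    · show (p : ℕ) < p + 1
      omega
    · show (p : ℕ) + 1 < k
      omega
  have hs : dt (g p) (∑ k, sr (σ k) • g k) = 0 := by
    unfold Tie0 at h0
    rw [h0]
    simp [dt]
  rw [dt_sum g (g p) (fun k => sr (σ k))] at hs
  have hneg : ∀ k, k ≠ p → sr (σ p) * (sr (σ k) * dt (g p) (g k)) < 0 := by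
    intro k hk
    rcases lt_or_gt_of_ne hk with hk | hk
    · have h1 : σ k = σ p := by rw [hp1 k hk.le, hp1 p le_rfl]
      rw [h1, ← mul_assoc, sr_mul_self, one_mul]
      have := hg k p hk
      unfold dt at this ⊢
      linarith
    · have h1 : σ k = -σ p := by
        have := hp3 k hk
        revert this
        generalize σ k = a
        generalize σ p = b
        revert a b
        decide
      rw [h1, sr_neg]
      have h2 := hg p k hk
      have h3 := sr_mul_self (σ p)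
      nlinarith
  have hpp : sr (σ p) * (sr (σ p) * dt (g p) (g p)) = 0 := by
    have : dt (g p) (g p) = 0 := by unfold dt; ring
    rw [this]; ring
  have : ∑ k, sr (σ p) * (sr (σ k) * dt (g p) (g k)) < 0 := by
    have hnt : Nontrivial (Fin m) := Fin.nontrivial_iff_two_le.mpr hm
    obtain ⟨k, hk⟩ := exists_ne p
    apply Finset.sum_neg' (fun i _ => ?_) ⟨k, Finset.mem_univ _, hneg k hk⟩
    by_cases hi : i = p
    · rw [hi, hpp]
    · exact (hneg i hi).le
  rw [← Finset.mul_sum, hs, mul_zero] at this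
  exact lt_irrefl _ this

/-! ### CORE -/

theorem list_sum_finset {α : Type} {β : Type} (L : List α) (T : Finset β) (f : β → α → ℤ) :
    (L.map fun o => ∑ x ∈ T, f x o).sum = ∑ x ∈ T, (L.map (f x)).sum := by
  induction L with
  | nil => simp
  | cons a L ih => simp [ih, Finset.sum_add_distrib]

/-- the sum over a list of orders of the surpluses is nonnegative -/
theorem core_of {m : ℕ} (hm : 6 ≤ m) (g : Fin m → ℝ × ℝ) (hg : Sorted g)
    {ρ : Type} (L : List ρ) (hL : L ≠ []) (R : ρ → Fin m → ℕ)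
    (hR : ∀ o ∈ L, Function.Injective (R o))
    (top : ∀ (r : Fin m → ℕ) (_ : Function.Injective r) (e : Fin m → ℤˣ),
      T2 g r e + (∑ i : Fin m, ∑ σ ∈ TT g i, W1 r e σ i) + ∑ σ ∈ TZ g, W0 r e σ ≤ NG g)
    (pert : ∃ (s : Fin m → (Fin m → ℤˣ) → ℤˣ) (h : (Fin m → ℤˣ) → (Fin m → ℤˣ)), Shift s h ∧
      ∀ r : Fin m → ℕ, Function.Injective r → ∀ e ξ : Fin m → ℤˣ,
        Odd (n2 g r e ξ + n1 g r e ξ s + n0 g r e ξ h))
    (avg1 : ∀ (σ : Fin m → ℤˣ) (i : Fin m) (s : ℤˣ),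
      0 ≤ (L.map fun o => ∑ e : Fin m → ℤˣ, X1 (R o) e σ i s).sum)
    (avg0 : ∀ (σ h : Fin m → ℤˣ) (_ : Mono h) (_ : ∃ a b c, Alt σ a b c),
      0 ≤ (L.map fun o => ∑ e : Fin m → ℤˣ, X0 (R o) e σ h).sum) : 3 ^ m ≤ 9 * NG g := by
  obtain ⟨s, h, hs, hodd⟩ := pert
  have hmain : ∀ o ∈ L, ∀ e : Fin m → ℤˣ,
      (∑ i : Fin m, ∑ σ ∈ TT g i, X1 (R o) e σ i (s i σ)) +
        ∑ σ ∈ TZ g, X0 (R o) e σ (h σ) ≤ 2 * (9 * (NG g : ℤ) - 3 ^ m) := fun o ho e =>
    main_of_top (by omega) g s h hs (R o) e (top (R o) (hR o ho) e)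
      (fun ξ => hodd (R o) (hR o ho) e ξ)
  -- sum over the signs
  have h1 : ∀ o ∈ L, (∑ i : Fin m, ∑ σ ∈ TT g i, ∑ e : Fin m → ℤˣ, X1 (R o) e σ i (s i σ)) +
      ∑ σ ∈ TZ g, ∑ e : Fin m → ℤˣ, X0 (R o) e σ (h σ) ≤
        2 ^ m * (2 * (9 * (NG g : ℤ) - 3 ^ m)) := by
    intro o ho
    have h2 := Finset.sum_le_sum
      (fun e (_ : e ∈ (Finset.univ : Finset (Fin m → ℤˣ))) => hmain o ho e)
    rw [Finset.sum_add_distrib] at h2
    have h3 : ∑ e : Fin m → ℤˣ, (∑ i : Fin m, ∑ σ ∈ TT g i, X1 (R o) e σ i (s i σ)) =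
        ∑ i : Fin m, ∑ σ ∈ TT g i, ∑ e : Fin m → ℤˣ, X1 (R o) e σ i (s i σ) := by
      rw [Finset.sum_comm]
      apply Finset.sum_congr rfl
      intro i _
      rw [Finset.sum_comm]
    have h4 : ∑ e : Fin m → ℤˣ, ∑ σ ∈ TZ g, X0 (R o) e σ (h σ) =
        ∑ σ ∈ TZ g, ∑ e : Fin m → ℤˣ, X0 (R o) e σ (h σ) := Finset.sum_comm
    have h5 : ∑ _e : Fin m → ℤˣ, 2 * (9 * (NG g : ℤ) - 3 ^ m) =
        2 ^ m * (2 * (9 * (NG g : ℤ) - 3 ^ m)) := by
      rw [Finset.sum_const, Finset.card_univ, nsmul_eq_mul]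
      congr 1
      simp
    rw [h3, h4, h5] at h2
    exact h2
  -- sum over the orders
  have h6 : (L.map fun o => (∑ i : Fin m, ∑ σ ∈ TT g i,
      ∑ e : Fin m → ℤˣ, X1 (R o) e σ i (s i σ)) +
      ∑ σ ∈ TZ g, ∑ e : Fin m → ℤˣ, X0 (R o) e σ (h σ)).sum ≤
        (L.map fun _ => 2 ^ m * (2 * (9 * (NG g : ℤ) - 3 ^ m))).sum :=
    List.sum_le_sum (fun o ho => h1 o ho)
  rw [List.sum_map_add, list_sum_finset, list_sum_finset] at h6
  have h7 : 0 ≤ ∑ i : Fin m, (L.map fun o => ∑ σ ∈ TT g i,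
      ∑ e : Fin m → ℤˣ, X1 (R o) e σ i (s i σ)).sum := by
    apply Finset.sum_nonneg
    intro i _
    rw [list_sum_finset]
    apply Finset.sum_nonneg
    intro σ _
    exact avg1 σ i (s i σ)
  have h8 : 0 ≤ ∑ σ ∈ TZ g, (L.map fun o => ∑ e : Fin m → ℤˣ, X0 (R o) e σ (h σ)).sum := by
    apply Finset.sum_nonneg
    intro σ hσ
    exact avg0 σ (h σ) (hs.h_mono σ) (exists_alt (by omega) g hg σ (mem_TZ.mp hσ))
  rw [List.map_const', List.sum_replicate, nsmul_eq_mul] at h6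
  have hlen : 0 < (L.length : ℤ) := by
    have := List.length_pos_iff.mpr hL
    exact_mod_cast this
  have h9 : 0 ≤ (L.length : ℤ) * (2 ^ m * (2 * (9 * (NG g : ℤ) - 3 ^ m))) := by linarith
  have h10 : 0 ≤ (2 : ℤ) ^ m * (2 * (9 * (NG g : ℤ) - 3 ^ m)) := by
    by_contra hh
    push Not at hh
    have := mul_neg_of_pos_of_neg hlen hh
    linarith
  have h11 : 0 ≤ 2 * (9 * (NG g : ℤ) - 3 ^ m) := by
    by_contra hh
    push Not at hh
    have := mul_neg_of_pos_of_neg (show (0 : ℤ) < 2 ^ m by positivity) hh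
    linarith
  have h12 : (3 : ℤ) ^ m ≤ 9 * (NG g : ℤ) := by linarith
  exact_mod_cast h12

/-! ### from cells to `HS` -/

open scoped Classical in
theorem NG_eq {m : ℕ} (u v : Fin m → ℝ) : NG (fun k => (u k, v k)) = GRD.NL (GRD.L2 u v) := by
  unfold NG GRD.NL
  congr 1
  ext s
  simp only [Finset.mem_filter, Finset.mem_univ, true_and]
  have h : ∀ y : Fin m → ℝ, (∑ k, y k • ((u k, v k) : ℝ × ℝ) = 0) ↔ y ∈ GRD.L2 u v := by
    intro y
    rw [GRD.mem_L2, Prod.ext_iff, Prod.fst_sum, Prod.snd_sum]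
    simp [mul_comm]
  constructor
  · rintro ⟨y, h1, h2⟩
    exact ⟨y, (h y).mp h1, h2⟩
  · rintro ⟨y, h1, h2⟩
    exact ⟨y, (h y).mpr h1, h2⟩

theorem hS_of (core : ∀ (m : ℕ) (_ : 6 ≤ m) (g : Fin m → ℝ × ℝ) (_ : Sorted g),
    3 ^ m ≤ 9 * NG g) : GRD.HS := by
  intro m u v hm huv
  have h := core m hm (fun k => (u k, v k)) (by
    intro i j hij
    have := huv i j hij
    unfold dt
    simpa using this)
  rw [NG_eq] at h
  obtain ⟨k, rfl⟩ : ∃ k, m = k + 2 := ⟨m - 2, by omega⟩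
  rw [pow_add] at h
  simp only [Nat.add_sub_cancel]
  omega

end Pool.Agent.K2L
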