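import Pool.Agent.K2L.Defs
import Pool.Agent.KK.PertOm

/-!
# PERT: the parity statement with ties
-/

set_option autoImplicit false

open scoped BigOperators

namespace Pool.Agent.K2L

namespace Pt

noncomputable section

/-- sign of a real number as a unit -/
def us (x : ℝ) : ℤˣ := if 0 < x then 1 else -1

theorem units_cases (a : ℤˣ) : a = 1 ∨ a = -1 := Int.units_eq_one_or a

theorem sr_one : sr 1 = 1 := by simp [sr]

theorem sr_neg_one : sr (-1) = -1 := by simp [sr]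

theorem sr_neg (a : ℤˣ) : sr (-a) = - sr a := by
  unfold sr; simp

theorem sr_mul (a b : ℤˣ) : sr (a * b) = sr a * sr b := by
  unfold sr; simp

theorem sr_sgn {ι : Type*} (σ : ι → ℤˣ) : KK.IsSgn (fun l => sr (σ l)) := by
  intro l
  rcases units_cases (σ l) with h | h <;> simp [h, sr_one, sr_neg_one]

theorem abs_sr (a : ℤˣ) : |sr a| = 1 := by
  rcases units_cases a with h | h <;> simp [h, sr_one, sr_neg_one]

theorem us_sr (a : ℤˣ) : us (sr a) = a := by
  rcases units_cases a with h | h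
  · rw [h, sr_one]; simp [us]
  · rw [h, sr_neg_one]; simp [us]

theorem sr_us_of_abs {x : ℝ} (h : |x| = 1) : sr (us x) = x := by
  rcases (abs_eq (by norm_num : (0 : ℝ) ≤ 1)).1 h with h | h
  · rw [h]; simp [us, sr_one]
  · rw [h]
    have : us (-1) = -1 := by unfold us; rw [if_neg (by norm_num)]
    rw [this, sr_neg_one]

theorem sr_us (x : ℝ) : sr (us x) = KK.sn x := by
  unfold us KK.sn
  split_ifs
  · exact sr_one
  · exact sr_neg_one

theorem us_neg {x : ℝ} (hx : x ≠ 0) : us (-x) = - us x := by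
  unfold us
  rcases lt_or_gt_of_ne hx with h | h
  · rw [if_pos (by linarith), if_neg (by linarith), neg_neg]
  · rw [if_neg (by linarith), if_pos h]

theorem us_mul {x y : ℝ} (hx : x ≠ 0) (hy : y ≠ 0) : us (x * y) = us x * us y := by
  unfold us
  rcases lt_or_gt_of_ne hx with h | h <;> rcases lt_or_gt_of_ne hy with h' | h'
  · rw [if_pos (mul_pos_of_neg_of_neg h h'), if_neg (not_lt.2 h.le), if_neg (not_lt.2 h'.le)]
    decide
  · rw [if_neg (not_lt.2 (mul_neg_of_neg_of_pos h h').le), if_neg (not_lt.2 h.le), if_pos h']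
    decide
  · rw [if_neg (not_lt.2 (mul_neg_of_pos_of_neg h h').le), if_pos h, if_neg (not_lt.2 h'.le)]
    decide
  · rw [if_pos (mul_pos h h'), if_pos h, if_pos h']; decide

theorem us_eq_one {x : ℝ} : us x = 1 ↔ 0 < x := by
  unfold us
  split_ifs with h
  · simp [h]
  · simp only [h, iff_false]
    decide

variable {m : ℕ}

theorem dt_ne (g : Fin m → ℝ × ℝ) (hg : Sorted g) (i j : Fin m) (hij : i ≠ j) :
    KK.dt (g i) (g j) ≠ 0 := by
  rcases lt_or_gt_of_ne hij with h | h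
  · exact (hg i j h).ne'
  · rw [KK.dt_swap (g j) (g i)]
    exact neg_ne_zero.2 (hg j i h).ne'

theorem us_dt (g : Fin m → ℝ × ℝ) (hg : Sorted g) (i j : Fin m) (hij : i ≠ j) :
    us (KK.dt (g i) (g j)) = chi i j := by
  rcases lt_or_gt_of_ne hij with h | h
  · have h0 : 0 < KK.dt (g i) (g j) := hg i j h
    rw [us_eq_one.2 h0]
    unfold chi; rw [if_pos h]
  · have h0 : 0 < KK.dt (g j) (g i) := hg j i h
    rw [KK.dt_swap (g j) (g i), us_neg h0.ne', us_eq_one.2 h0]
    unfold chi; rw [if_neg (not_lt.2 h.le)]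

theorem chi_swap (i j : Fin m) (hij : i ≠ j) : chi j i = - chi i j := by
  unfold chi
  rcases lt_or_gt_of_ne hij with h | h
  · rw [if_pos h, if_neg (not_lt.2 h.le)]
  · rw [if_neg (not_lt.2 h.le), if_pos h, neg_neg]

theorem tau_swap (r : Fin m → ℕ) (hr : Function.Injective r) (e : Fin m → ℤˣ) (i j l : Fin m)
    (hij : i ≠ j) : tau r e i j l = tau r e j i l := by
  unfold tau
  have hne : r i ≠ r j := fun h => hij (hr h)
  split_ifs <;> first | rfl | (exfalso; omega)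

theorem lexsg_tau (g : Fin m → ℝ × ℝ) (hg : Sorted g) (r : Fin m → ℕ) (e : Fin m → ℤˣ)
    (i j l : Fin m) (hij : i ≠ j) (hli : l ≠ i) (hlj : l ≠ j) :
    KK.lexsg g r (fun k => sr (e k)) i j l = sr (tau r e i j l) := by
  have d1 := dt_ne g hg i j hij
  have d2 := dt_ne g hg j l hlj.symm
  have d3 := dt_ne g hg i l hli.symm
  unfold KK.lexsg tau
  by_cases h1 : r i < r l ∧ r j < r l
  · rw [if_pos h1, if_pos h1]
  · rw [if_neg h1, if_neg h1]
    by_cases h2 : r j < r i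
    · rw [if_pos h2, if_pos h2, ← sr_us, us_mul d2 d1, us_dt g hg j l hlj.symm, us_dt g hg i j hij,
        chi_swap i j hij, ← sr_mul]
      congr 1
      rw [mul_neg, neg_neg, mul_assoc]
    · rw [if_neg h2, if_neg h2, ← sr_us, us_mul d3 d1, us_dt g hg i l hli.symm, us_dt g hg i j hij,
        ← sr_mul, ← sr_neg, mul_assoc]

/-- the vertex over `0` of the tile `(i, j)` -/
def vert (g : Fin m → ℝ × ℝ) (r : Fin m → ℕ) (e ξ : Fin m → ℤˣ) (i j : Fin m) : Fin m → ℝ :=
  KK.vx g (fun l => sr (ξ l * tau r e i j l)) i j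

theorem vx_swap (g : Fin m → ℝ × ℝ) (hg : Sorted g) (z : Fin m → ℝ) (i j : Fin m) (hij : i ≠ j) :
    KK.vx g z i j = KK.vx g z j i := by
  refine KK.eq_of_sum g hij (dt_ne g hg i j hij) (KK.sum_vx g z hij (dt_ne g hg i j hij))
    (KK.sum_vx g z hij.symm (dt_ne g hg j i hij.symm)) fun l hi hj => ?_
  rw [KK.vx_of_ne _ _ hi hj, KK.vx_of_ne _ _ hj hi]

theorem vert_swap (g : Fin m → ℝ × ℝ) (hg : Sorted g) (r : Fin m → ℕ) (hr : Function.Injective r)
    (e ξ : Fin m → ℤˣ) (i j : Fin m) (hij : i ≠ j) : vert g r e ξ i j = vert g r e ξ j i := by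
  unfold vert
  rw [vx_swap g hg _ i j hij]
  refine KK.vx_congr g fun l _ _ => ?_
  rw [tau_swap r hr e i j l hij]

theorem vert_sum (g : Fin m → ℝ × ℝ) (hg : Sorted g) (r : Fin m → ℕ)
    (e ξ : Fin m → ℤˣ) (i j : Fin m) (hij : i ≠ j) : ∑ l, vert g r e ξ i j l • g l = 0 :=
  KK.sum_vx g _ hij (dt_ne g hg i j hij)

theorem vert_of_ne (g : Fin m → ℝ × ℝ) (r : Fin m → ℕ) (e ξ : Fin m → ℤˣ) {i j l : Fin m}
    (hi : l ≠ i) (hj : l ≠ j) : vert g r e ξ i j l = sr (ξ l * tau r e i j l) :=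
  KK.vx_of_ne g _ hi hj

theorem vert_unique (g : Fin m → ℝ × ℝ) (hg : Sorted g) (r : Fin m → ℕ)
    (e ξ : Fin m → ℤˣ) {i j : Fin m} (hij : i ≠ j) {y : Fin m → ℝ} (hy : ∑ l, y l • g l = 0)
    (h : ∀ l, l ≠ i → l ≠ j → y l = sr (ξ l * tau r e i j l)) : y = vert g r e ξ i j :=
  KK.eq_of_sum g hij (dt_ne g hg i j hij) hy (vert_sum g hg r e ξ i j hij) fun l hi hj => by
    rw [vert_of_ne g r e ξ hi hj, h l hi hj]

/-- the sign of the displacement of `σ` seen from the line `i` -/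
def hh (g : Fin m → ℝ × ℝ) (w : Fin m → ℝ) (σ : Fin m → ℤˣ) (i : Fin m) : ℤˣ :=
  us (KK.dt (KK.SE (fun l => w l • g l) (fun l => sr (σ l)) i) (g i))

/-- `dt` of the displacement of a vertex -/
theorem dt_dl (g : Fin m → ℝ × ℝ) (w : Fin m → ℝ) (σ : Fin m → ℤˣ) (i : Fin m) {v : Fin m → ℝ}
    (h : ∀ l, l ≠ i → v l = sr (σ l)) : KK.dt (KK.dl g w v) (g i) =
      KK.dt (KK.SE (fun l => w l • g l) (fun l => sr (σ l)) i) (g i) := by
  have h1 : KK.dl g w v = KK.SE (fun l => w l • g l) (fun l => sr (σ l)) i +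
      (w i * v i) • g i := by
    unfold KK.dl KK.SE
    rw [← Finset.sum_erase_add _ _ (Finset.mem_univ i)]
    congr 1
    refine Finset.sum_congr rfl fun l hl => ?_
    rw [h l (Finset.ne_of_mem_erase hl), smul_smul, mul_comm]
  rw [h1, KK.dt_add_left, KK.dt_smul_left, KK.dt_self, mul_zero, add_zero]

theorem us_dl (g : Fin m → ℝ × ℝ) (w : Fin m → ℝ) (σ : Fin m → ℤˣ) (i : Fin m) {v : Fin m → ℝ}
    (h : ∀ l, l ≠ i → v l = sr (σ l)) : us (KK.dt (KK.dl g w v) (g i)) = hh g w σ i := by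
  unfold hh; rw [dt_dl g w σ i h]

theorem SE_neg (g : Fin m → ℝ × ℝ) (w : Fin m → ℝ) (σ : Fin m → ℤˣ) (i : Fin m) :
    KK.SE (fun l => w l • g l) (fun l => sr ((-σ) l)) i =
      - KK.SE (fun l => w l • g l) (fun l => sr (σ l)) i := by
  unfold KK.SE
  rw [← Finset.sum_neg_distrib]
  refine Finset.sum_congr rfl fun l _ => ?_
  dsimp only
  rw [Pi.neg_apply, sr_neg, neg_smul]

theorem hh_neg (g : Fin m → ℝ × ℝ) (w : Fin m → ℝ)
    (hw : ∀ s : Fin m → ℝ, KK.IsSgn s → ∀ i, KK.dt (KK.SE (fun l => w l • g l) s i) (g i) ≠ 0)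
    (σ : Fin m → ℤˣ) (i : Fin m) : hh g w (-σ) i = - hh g w σ i := by
  unfold hh
  rw [SE_neg, KK.dt_neg_left, us_neg (hw _ (sr_sgn σ) i)]

theorem hh_inv (g : Fin m → ℝ × ℝ) (w : Fin m → ℝ) (σ σ' : Fin m → ℤˣ) (i : Fin m)
    (h : ∀ k, k ≠ i → σ k = σ' k) : hh g w σ i = hh g w σ' i := by
  unfold hh
  rw [KK.SE_congr _ (s := fun l => sr (σ l)) (s' := fun l => sr (σ' l))
    fun l hl => by rw [h l hl]]

theorem hh_mono (g : Fin m → ℝ × ℝ) (hg : Sorted g) (w : Fin m → ℝ)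
    (hw : ∀ s : Fin m → ℝ, KK.IsSgn s → ∀ i, KK.dt (KK.SE (fun l => w l • g l) s i) (g i) ≠ 0)
    (σ : Fin m → ℤˣ) : Mono (hh g w σ) := by
  intro i j k hij hjk hik
  set δ := KK.dl g w (fun l => sr (σ l)) with hδ
  have hD : ∀ l, hh g w σ l = us (KK.dt δ (g l)) := fun l => (us_dl g w σ l fun _ _ => rfl).symm
  have hD0 : ∀ l, KK.dt δ (g l) ≠ 0 := by
    intro l
    rw [hδ, dt_dl g w σ l fun _ _ => rfl]
    exact hw _ (sr_sgn σ) l
  have h1 : 0 < KK.dt (g i) (g j) := hg i j hij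
  have h2 : 0 < KK.dt (g j) (g k) := hg j k hjk
  have h3 : 0 < KK.dt (g i) (g k) := hg i k (hij.trans hjk)
  have key : KK.dt δ (g j) * KK.dt (g i) (g k) =
      KK.dt δ (g i) * KK.dt (g j) (g k) + KK.dt δ (g k) * KK.dt (g i) (g j) := by
    simp only [KK.dt]; ring
  rw [hD, hD] at hik ⊢
  rcases lt_or_gt_of_ne (hD0 i) with hi | hi
  · have hi' : us (KK.dt δ (g i)) = -1 := by unfold us; rw [if_neg (not_lt.2 hi.le)]
    rw [hi'] at hik ⊢
    have hk : KK.dt δ (g k) < 0 := by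
      by_contra hc
      have : us (KK.dt δ (g k)) = 1 :=
        us_eq_one.2 (lt_of_le_of_ne (not_lt.1 hc) (hD0 k).symm)
      rw [this] at hik
      exact absurd hik (by decide)
    have : KK.dt δ (g j) < 0 := by
      by_contra hc
      have a1 := mul_nonneg (not_lt.1 hc) h3.le
      have a2 := mul_neg_of_neg_of_pos hi h2
      have a3 := mul_neg_of_neg_of_pos hk h1
      linarith
    unfold us; rw [if_neg (not_lt.2 this.le)]
  · have hi' : us (KK.dt δ (g i)) = 1 := us_eq_one.2 hi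
    rw [hi'] at hik ⊢
    have hk : 0 < KK.dt δ (g k) := us_eq_one.1 hik.symm
    rw [us_eq_one]
    by_contra hc
    have a1 := mul_nonpos_of_nonpos_of_nonneg (not_lt.1 hc) h3.le
    have a2 := mul_pos hi h2
    have a3 := mul_pos hk h1
    linarith

/-- the wall `l` of the tile `(i, l)` is passed by the shifted point -/
def KW (g : Fin m → ℝ × ℝ) (w : Fin m → ℝ) (r : Fin m → ℕ) (e ξ : Fin m → ℤˣ) (i l : Fin m) :
    Prop :=
  us (vert g r e ξ i l l) * chi l i = us (KK.dt (KK.dl g w (vert g r e ξ i l)) (g i))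

theorem us_three {a b c : ℝ} (ha : a ≠ 0) (hb : b ≠ 0) (hc : c ≠ 0) :
    0 < a * (b * c) ↔ us a * us c = us b := by
  rw [← us_eq_one, us_mul ha (mul_ne_zero hb hc), us_mul hb hc]
  rcases units_cases (us a) with h | h <;> rcases units_cases (us b) with h' | h' <;>
    rcases units_cases (us c) with h'' | h'' <;> rw [h, h', h''] <;> decide

theorem GT_iff (g : Fin m → ℝ × ℝ) (hg : Sorted g) (w : Fin m → ℝ)
    (hw : ∀ s : Fin m → ℝ, KK.IsSgn s → ∀ i, KK.dt (KK.SE (fun l => w l • g l) s i) (g i) ≠ 0)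
    (r : Fin m → ℕ) (hr : Function.Injective r) (e ξ : Fin m → ℤˣ) {i j : Fin m} (hij : i < j) :
    KK.GT g w (fun l => sr (ξ l * tau r e i j l)) i j ↔
      |vert g r e ξ i j i| ≤ 1 ∧ |vert g r e ξ i j j| ≤ 1 ∧
      (|vert g r e ξ i j i| = 1 → KW g w r e ξ j i) ∧
      (|vert g r e ξ i j j| = 1 → KW g w r e ξ i j) := by
  set v := vert g r e ξ i j with hv
  have hvdef : KK.vx g (fun l => sr (ξ l * tau r e i j l)) i j = v := rfl
  have hvs : vert g r e ξ j i = v := (vert_swap g hg r hr e ξ i j hij.ne).symm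
  have d0 := dt_ne g hg i j hij.ne
  -- nonvanishing
  have hD : ∀ a b : Fin m, (a = i ∧ b = j ∨ a = j ∧ b = i) → |v b| = 1 →
      KK.dt (KK.dl g w v) (g a) ≠ 0 := by
    intro a b hab hb
    rw [dt_dl g w (fun l => if l = b then us (v b) else ξ l * tau r e i j l) a]
    · exact hw _ (sr_sgn _) a
    · intro l hl
      by_cases hlb : l = b
      · rw [if_pos hlb, hlb, sr_us_of_abs hb]
      · rw [if_neg hlb]
        rcases hab with ⟨rfl, rfl⟩ | ⟨rfl, rfl⟩
        · exact vert_of_ne g r e ξ hl hlb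
        · exact vert_of_ne g r e ξ hlb hl
  unfold KK.GT
  rw [hvdef]
  refine and_congr_right fun _ => and_congr_right fun _ => and_congr ?_ ?_
  · refine imp_congr_right fun h1 => ?_
    unfold KW
    rw [hvs]
    have ha : v i ≠ 0 := by intro h; rw [h, abs_zero] at h1; norm_num at h1
    rw [us_three ha (hD j i (Or.inr ⟨rfl, rfl⟩) h1) d0, us_dt g hg i j hij.ne]
  · refine imp_congr_right fun h1 => ?_
    unfold KW
    rw [← hv]
    have ha : v j ≠ 0 := by intro h; rw [h, abs_zero] at h1; norm_num at h1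
    have hne := hD i j (Or.inl ⟨rfl, rfl⟩) h1
    rw [us_three ha (by rw [KK.dt_swap (KK.dl g w v) (g i)]; exact neg_ne_zero.2 hne) d0,
      us_dt g hg i j hij.ne, KK.dt_swap (KK.dl g w v) (g i), us_neg hne, chi_swap i j hij.ne]
    constructor
    · intro h; rw [mul_neg, h, neg_neg]
    · intro h; rw [← h, mul_neg, neg_neg]

/-- sum over ordered pairs -/
theorem sum_pairs (f : Fin m → Fin m → ℕ) :
    ∑ a, ∑ k, (if k ≠ a then f a k else 0) =
      ∑ x ∈ Finset.univ.filter (fun x : Fin m × Fin m => x.1 < x.2), (f x.1 x.2 + f x.2 x.1) := by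
  have h3 : ∑ a, ∑ k, (if k ≠ a then f a k else 0) =
      ∑ x ∈ Finset.univ.filter (fun x : Fin m × Fin m => x.2 ≠ x.1), f x.1 x.2 := by
    rw [Finset.sum_filter, ← Finset.univ_product_univ, Finset.sum_product]
  have h4 : Finset.univ.filter (fun x : Fin m × Fin m => x.2 ≠ x.1) =
      Finset.univ.filter (fun x : Fin m × Fin m => x.1 < x.2) ∪
        Finset.univ.filter (fun x : Fin m × Fin m => x.2 < x.1) := by
    ext x
    simp only [Finset.mem_filter, Finset.mem_univ, true_and, Finset.mem_union]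
    exact ⟨fun h => (lt_or_gt_of_ne h).symm, fun h => h.elim (fun h => h.ne') (fun h => h.ne)⟩
  have h5 : Disjoint (Finset.univ.filter (fun x : Fin m × Fin m => x.1 < x.2))
      (Finset.univ.filter (fun x : Fin m × Fin m => x.2 < x.1)) := by
    rw [Finset.disjoint_filter]
    exact fun x _ h => not_lt.2 h.le
  have h6 : ∑ x ∈ Finset.univ.filter (fun x : Fin m × Fin m => x.2 < x.1), f x.1 x.2 =
      ∑ x ∈ Finset.univ.filter (fun x : Fin m × Fin m => x.1 < x.2), f x.2 x.1 := by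
    refine Finset.sum_bij (fun x _ => (x.2, x.1)) ?_ ?_ ?_ ?_
    · intro x hx
      simpa using hx
    · rintro ⟨a, b⟩ _ ⟨a', b'⟩ _ h
      simp only [Prod.mk.injEq] at h
      exact Prod.ext h.2 h.1
    · rintro ⟨a, b⟩ hx
      exact ⟨(b, a), by simpa using hx, rfl⟩
    · intro x _; rfl
  rw [h3, h4, Finset.sum_union h5, h6, ← Finset.sum_add_distrib]

theorem sum_split (g : Fin m → ℝ × ℝ) (y : Fin m → ℝ) {i j : Fin m} (hij : i ≠ j) :
    ∑ l, y l • g l = y i • g i + y j • g j +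
      ∑ k ∈ Finset.univ.filter (fun k => k ≠ i ∧ k ≠ j), y k • g k := by
  rw [← Finset.add_sum_erase _ _ (Finset.mem_univ i),
    ← Finset.add_sum_erase (Finset.univ.erase i) _ (show j ∈ Finset.univ.erase i by
      simp [hij.symm]), ← add_assoc]
  congr 1
  refine Finset.sum_congr ?_ fun _ _ => rfl
  ext k
  simp only [Finset.mem_erase, Finset.mem_univ, and_true, Finset.mem_filter, true_and]
  exact and_comm

theorem prop2_iff (g : Fin m → ℝ × ℝ) (hg : Sorted g) (r : Fin m → ℕ) (e ξ : Fin m → ℤˣ)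
    {i j : Fin m} (hij : i ≠ j) : Prop2 g i j (fun k => ξ k * tau r e i j k) ↔
      |vert g r e ξ i j i| < 1 ∧ |vert g r e ξ i j j| < 1 := by
  constructor
  · rintro ⟨a, b, ha, hb, hs⟩
    set y : Fin m → ℝ := fun l => if l = i then a else if l = j then b else
      sr (ξ l * tau r e i j l) with hy
    have hyi : y i = a := by simp [hy]
    have hyj : y j = b := by simp [hy, hij.symm]
    have hyl : ∀ l, l ≠ i → l ≠ j → y l = sr (ξ l * tau r e i j l) := by
      intro l hli hlj; simp [hy, hli, hlj]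
    have hsum : ∑ l, y l • g l = 0 := by
      rw [sum_split g y hij, hyi, hyj, ← hs]
      congr 1
      refine Finset.sum_congr rfl fun k hk => ?_
      rw [Finset.mem_filter] at hk
      rw [hyl k hk.2.1 hk.2.2]
    have := vert_unique g hg r e ξ hij hsum hyl
    rw [← this, hyi, hyj]
    exact ⟨ha, hb⟩
  · rintro ⟨ha, hb⟩
    refine ⟨_, _, ha, hb, ?_⟩
    have hsum := vert_sum g hg r e ξ i j hij
    rw [sum_split g _ hij] at hsum
    rw [← hsum]
    congr 1
    refine Finset.sum_congr rfl fun k hk => ?_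
    rw [Finset.mem_filter] at hk
    rw [vert_of_ne g r e ξ hk.2.1 hk.2.2]

open scoped Classical in
/-- tiles with a free coordinate `i` and a wall `l` -/
theorem count1 (g : Fin m → ℝ × ℝ) (hg : Sorted g) (w : Fin m → ℝ) (r : Fin m → ℕ)
    (e ξ : Fin m → ℤˣ) {i l : Fin m} (hil : i ≠ l) :
    ∑ σ ∈ Finset.univ.filter (fun σ : Fin m → ℤˣ => σ i = 1 ∧ Tie1 g i σ),
      (if l ≠ i ∧ (∀ k, k ≠ i → k ≠ l → ξ k * tau r e i l k = σ k) ∧ σ l * chi l i = hh g w σ i
        then 1 else 0) =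
      if |vert g r e ξ i l i| < 1 ∧ |vert g r e ξ i l l| = 1 ∧ KW g w r e ξ i l then 1 else 0 := by
  set V := vert g r e ξ i l with hV
  -- a solution determines everything
  have key : ∀ σ : Fin m → ℤˣ, Tie1 g i σ → (∀ k, k ≠ i → k ≠ l → ξ k * tau r e i l k = σ k) →
      |V i| < 1 ∧ ∀ k, k ≠ i → V k = sr (σ k) := by
    rintro σ ⟨a, ha, hs⟩ hm
    set y : Fin m → ℝ := fun k => if k = i then a else sr (σ k) with hy
    have hyi : y i = a := by simp [hy]
    have hyk : ∀ k, k ≠ i → y k = sr (σ k) := by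
      intro k hk; simp [hy, hk]
    have hsum : ∑ k, y k • g k = 0 := by
      rw [← Finset.add_sum_erase _ _ (Finset.mem_univ i), hyi, ← hs]
      congr 1
      refine Finset.sum_congr rfl fun k hk => ?_
      rw [hyk k (Finset.ne_of_mem_erase hk)]
    have := vert_unique g hg r e ξ hil hsum fun k hki hkl => by rw [hyk k hki, ← hm k hki hkl]
    rw [hV, ← this, hyi]
    exact ⟨ha, hyk⟩
  have himp : ∀ σ : Fin m → ℤˣ, Tie1 g i σ → (∀ k, k ≠ i → k ≠ l → ξ k * tau r e i l k = σ k) →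
      (σ l * chi l i = hh g w σ i ↔ KW g w r e ξ i l) ∧ |V i| < 1 ∧ |V l| = 1 := by
    intro σ hT hm
    obtain ⟨h1, h2⟩ := key σ hT hm
    refine ⟨?_, h1, ?_⟩
    · unfold KW
      rw [← hV, h2 l hil.symm, us_sr, us_dl g w σ i h2]
    · rw [h2 l hil.symm, abs_sr]
  by_cases hF : |V i| < 1 ∧ |V l| = 1 ∧ KW g w r e ξ i l
  · rw [if_pos hF]
    set σ0 : Fin m → ℤˣ := fun k => if k = i then 1 else if k = l then us (V l) else
      ξ k * tau r e i l k with hσ0
    have h0i : σ0 i = 1 := by simp [hσ0]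
    have h0m : ∀ k, k ≠ i → k ≠ l → ξ k * tau r e i l k = σ0 k := by
      intro k hki hkl; simp [hσ0, hki, hkl]
    have h0V : ∀ k, k ≠ i → V k = sr (σ0 k) := by
      intro k hki
      by_cases hkl : k = l
      · rw [hkl]
        simp only [hσ0]
        rw [if_neg hil.symm, if_pos trivial, sr_us_of_abs hF.2.1]
      · rw [← h0m k hki hkl]
        exact vert_of_ne g r e ξ hki hkl
    have h0T : Tie1 g i σ0 := by
      refine ⟨V i, hF.1, ?_⟩
      have hsum := vert_sum g hg r e ξ i l hil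
      rw [← Finset.add_sum_erase _ _ (Finset.mem_univ i)] at hsum
      rw [← hsum]
      congr 1
      refine Finset.sum_congr rfl fun k hk => ?_
      rw [← hV, h0V k (Finset.ne_of_mem_erase hk)]
    rw [Finset.sum_eq_single σ0]
    · rw [if_pos ⟨hil.symm, h0m, ((himp σ0 h0T h0m).1).2 hF.2.2⟩]
    · intro σ hσ hne
      rw [Finset.mem_filter] at hσ
      rw [if_neg]
      rintro ⟨-, hm, -⟩
      apply hne
      funext k
      by_cases hki : k = i
      · rw [hki, hσ.2.1, h0i]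
      · have h1 := (key σ hσ.2.2 hm).2 k hki
        rw [h0V k hki] at h1
        rw [← us_sr (σ k), ← h1, us_sr]
    · intro h
      exact absurd (Finset.mem_filter.2 ⟨Finset.mem_univ _, h0i, h0T⟩) h
  · rw [if_neg hF]
    refine Finset.sum_eq_zero fun σ hσ => ?_
    rw [Finset.mem_filter] at hσ
    rw [if_neg]
    rintro ⟨-, hm, hc⟩
    obtain ⟨h1, h2, h3⟩ := himp σ hσ.2.2 hm
    exact hF ⟨h2, h3, h1.1 hc⟩

open scoped Classical in
/-- tiles with a corner at the vertex -/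
theorem count0 (g : Fin m → ℝ × ℝ) (hg : Sorted g) (w : Fin m → ℝ) (r : Fin m → ℕ)
    (hr : Function.Injective r) (e ξ : Fin m → ℤˣ) {i j : Fin m} (hij : i < j) :
    ∑ σ ∈ Finset.univ.filter (fun σ : Fin m → ℤˣ => Tie0 g σ),
      (if i < j ∧ (∀ k, k ≠ i → k ≠ j → ξ k * tau r e i j k = σ k) ∧
        hh g w σ j = σ i * chi i j ∧ hh g w σ i = σ j * chi j i then 1 else 0) =
      if |vert g r e ξ i j i| = 1 ∧ |vert g r e ξ i j j| = 1 ∧ KW g w r e ξ j i ∧
        KW g w r e ξ i j then 1 else 0 := by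
  set V := vert g r e ξ i j with hV
  have hVs : vert g r e ξ j i = V := (vert_swap g hg r hr e ξ i j hij.ne).symm
  have key : ∀ σ : Fin m → ℤˣ, Tie0 g σ → (∀ k, k ≠ i → k ≠ j → ξ k * tau r e i j k = σ k) →
      ∀ k, V k = sr (σ k) := by
    intro σ hs hm k
    have := vert_unique g hg r e ξ hij.ne (y := fun k => sr (σ k)) hs
      fun k hki hkl => by rw [← hm k hki hkl]
    rw [hV, ← this]
  have himp : ∀ σ : Fin m → ℤˣ, Tie0 g σ → (∀ k, k ≠ i → k ≠ j → ξ k * tau r e i j k = σ k) →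
      (hh g w σ j = σ i * chi i j ↔ KW g w r e ξ j i) ∧
      (hh g w σ i = σ j * chi j i ↔ KW g w r e ξ i j) ∧ |V i| = 1 ∧ |V j| = 1 := by
    intro σ hT hm
    have h2 := key σ hT hm
    refine ⟨?_, ?_, ?_, ?_⟩
    · unfold KW
      rw [hVs, h2 i, us_sr, us_dl g w σ j fun k _ => h2 k]
      exact eq_comm
    · unfold KW
      rw [← hV, h2 j, us_sr, us_dl g w σ i fun k _ => h2 k]
      exact eq_comm
    · rw [h2, abs_sr]
    · rw [h2, abs_sr]
  by_cases hF : |V i| = 1 ∧ |V j| = 1 ∧ KW g w r e ξ j i ∧ KW g w r e ξ i j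
  · rw [if_pos hF]
    set σ0 : Fin m → ℤˣ := fun k => if k = i then us (V i) else if k = j then us (V j) else
      ξ k * tau r e i j k with hσ0
    have h0m : ∀ k, k ≠ i → k ≠ j → ξ k * tau r e i j k = σ0 k := by
      intro k hki hkl; simp [hσ0, hki, hkl]
    have h0V : ∀ k, V k = sr (σ0 k) := by
      intro k
      by_cases hki : k = i
      · rw [hki]
        simp only [hσ0]
        rw [if_pos trivial, sr_us_of_abs hF.1]
      · by_cases hkl : k = j
        · rw [hkl]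
          simp only [hσ0]
          rw [if_neg hij.ne', if_pos trivial, sr_us_of_abs hF.2.1]
        · rw [← h0m k hki hkl]
          exact vert_of_ne g r e ξ hki hkl
    have h0T : Tie0 g σ0 := by
      have hsum := vert_sum g hg r e ξ i j hij.ne
      unfold Tie0
      rw [← hsum]
      refine Finset.sum_congr rfl fun k _ => ?_
      rw [← hV, h0V k]
    rw [Finset.sum_eq_single σ0]
    · obtain ⟨h1, h2, -, -⟩ := himp σ0 h0T h0m
      rw [if_pos ⟨hij, h0m, h1.2 hF.2.2.1, h2.2 hF.2.2.2⟩]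
    · intro σ hσ hne
      rw [Finset.mem_filter] at hσ
      rw [if_neg]
      rintro ⟨-, hm, -⟩
      apply hne
      funext k
      have h1 := key σ hσ.2 hm k
      rw [h0V k] at h1
      rw [← us_sr (σ k), ← h1, us_sr]
    · intro h
      exact absurd (Finset.mem_filter.2 ⟨Finset.mem_univ _, h0T⟩) h
  · rw [if_neg hF]
    refine Finset.sum_eq_zero fun σ hσ => ?_
    rw [Finset.mem_filter] at hσ
    rw [if_neg]
    rintro ⟨-, hm, hc1, hc2⟩
    obtain ⟨h1, h2, h3, h4⟩ := himp σ hσ.2 hm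
    exact hF ⟨h3, h4, h1.1 hc1, h2.1 hc2⟩

theorem tri (x : ℝ) : (x < 1 ∧ x ≤ 1 ∧ ¬ x = 1) ∨ (¬ x < 1 ∧ x ≤ 1 ∧ x = 1) ∨
    (¬ x < 1 ∧ ¬ x ≤ 1 ∧ ¬ x = 1) := by
  rcases lt_trichotomy x 1 with h | h | h
  · exact Or.inl ⟨h, h.le, h.ne⟩
  · exact Or.inr (Or.inl ⟨h.not_lt, h.le, h⟩)
  · exact Or.inr (Or.inr ⟨not_lt.2 h.le, not_le.2 h, h.ne'⟩)

open scoped Classical in
theorem split_GT (a b : ℝ) (K K' : Prop) :
    (if |a| ≤ 1 ∧ |b| ≤ 1 ∧ (|a| = 1 → K) ∧ (|b| = 1 → K') then 1 else 0 : ℕ) =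
      (if |a| < 1 ∧ |b| < 1 then 1 else 0) + ((if |a| < 1 ∧ |b| = 1 ∧ K' then 1 else 0) +
        (if |b| < 1 ∧ |a| = 1 ∧ K then 1 else 0)) +
        (if |a| = 1 ∧ |b| = 1 ∧ K ∧ K' then 1 else 0) := by
  rcases tri |a| with ⟨a1, a2, a3⟩ | ⟨a1, a2, a3⟩ | ⟨a1, a2, a3⟩ <;>
    rcases tri |b| with ⟨b1, b2, b3⟩ | ⟨b1, b2, b3⟩ | ⟨b1, b2, b3⟩ <;>
    by_cases hK : K <;> by_cases hK' : K' <;>
    simp [a1, a2, a3, b1, b2, b3, hK, hK']

end

end Pt

open Pt in
/-- The parity statement with ties. -/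
theorem pert {m : ℕ} (hm : 2 ≤ m) (g : Fin m → ℝ × ℝ) (hg : Sorted g) :
    ∃ (s : Fin m → (Fin m → ℤˣ) → ℤˣ) (h : (Fin m → ℤˣ) → (Fin m → ℤˣ)), Shift s h ∧
      ∀ r : Fin m → ℕ, Function.Injective r → ∀ e ξ : Fin m → ℤˣ,
        Odd (n2 g r e ξ + n1 g r e ξ s + n0 g r e ξ h) := by
  classical
  have h2 : 2 ≤ Fintype.card (Fin m) := by rw [Fintype.card_fin]; exact hm
  obtain ⟨w, hw⟩ := KK.exists_w h2 g (dt_ne g hg)
  refine ⟨fun i σ => hh g w σ i, hh g w, ⟨fun i σ => hh_neg g w hw σ i,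
    fun i σ σ' h => hh_inv g w σ σ' i h, fun σ => funext fun i => hh_neg g w hw σ i,
    hh_mono g hg w hw⟩, ?_⟩
  intro r hr e ξ
  have hodd := KK.pert_lex h2 g (dt_ne g hg) r hr (fun k => sr (e k)) (sr_sgn e) w hw
    (fun k => sr (ξ k)) (sr_sgn ξ)
  convert hodd using 2
  rw [Finset.card_filter]
  have hGT : ∀ x : Fin m × Fin m, (if x.1 < x.2 ∧ KK.GT g w (fun l => (fun k => sr (ξ k)) l *
      KK.lexsg g r (fun k => sr (e k)) x.1 x.2 l) x.1 x.2 then 1 else 0 : ℕ) =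
      if x.1 < x.2 then
        (if |vert g r e ξ x.1 x.2 x.1| < 1 ∧ |vert g r e ξ x.1 x.2 x.2| < 1 then 1 else 0) +
        ((if |vert g r e ξ x.1 x.2 x.1| < 1 ∧ |vert g r e ξ x.1 x.2 x.2| = 1 ∧
          KW g w r e ξ x.1 x.2 then 1 else 0) +
        (if |vert g r e ξ x.1 x.2 x.2| < 1 ∧ |vert g r e ξ x.1 x.2 x.1| = 1 ∧
          KW g w r e ξ x.2 x.1 then 1 else 0)) +
        (if |vert g r e ξ x.1 x.2 x.1| = 1 ∧ |vert g r e ξ x.1 x.2 x.2| = 1 ∧
          KW g w r e ξ x.2 x.1 ∧ KW g w r e ξ x.1 x.2 then 1 else 0) else 0 := by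
    intro x
    by_cases hx : x.1 < x.2
    · rw [if_pos hx, ← split_GT]
      refine if_congr ?_ rfl rfl
      rw [← GT_iff g hg w hw r hr e ξ hx]
      refine ⟨fun h => (KK.GT_congr g w fun l hl1 hl2 => ?_).1 h.2, fun h => ⟨hx,
        (KK.GT_congr g w fun l hl1 hl2 => ?_).2 h⟩⟩
      · dsimp only
        rw [lexsg_tau g hg r e x.1 x.2 l hx.ne hl1 hl2, sr_mul]
      · dsimp only
        rw [lexsg_tau g hg r e x.1 x.2 l hx.ne hl1 hl2, sr_mul]
    · rw [if_neg hx, if_neg (fun h => hx h.1)]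
  rw [Finset.sum_congr rfl fun x _ => hGT x, ← Finset.sum_filter, Finset.sum_add_distrib,
    Finset.sum_add_distrib]
  congr 1
  · congr 1
    · unfold n2
      rw [Finset.card_filter, Finset.sum_filter]
      refine Finset.sum_congr rfl fun x _ => ?_
      by_cases hx : x.1 < x.2
      · rw [if_pos hx]
        refine if_congr ?_ rfl rfl
        rw [prop2_iff g hg r e ξ hx.ne]
        exact ⟨fun h => h.2, fun h => ⟨hx, h⟩⟩
      · rw [if_neg hx, if_neg (fun h => hx h.1)]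
    · have hn1 : n1 g r e ξ (fun i σ => hh g w σ i) = ∑ i, ∑ l, (if l ≠ i then
          (if |vert g r e ξ i l i| < 1 ∧ |vert g r e ξ i l l| = 1 ∧ KW g w r e ξ i l
            then 1 else 0) else 0) := by
        unfold n1 b1
        refine Finset.sum_congr rfl fun i _ => ?_
        simp only [Finset.card_filter]
        rw [Finset.sum_comm]
        refine Finset.sum_congr rfl fun l _ => ?_
        by_cases hl : l ≠ i
        · rw [if_pos hl, ← count1 g hg w r e ξ hl.symm]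
        · rw [if_neg hl]
          exact Finset.sum_eq_zero fun σ _ => if_neg fun h => hl h.1
      rw [hn1, sum_pairs fun i l => if |vert g r e ξ i l i| < 1 ∧ |vert g r e ξ i l l| = 1 ∧
        KW g w r e ξ i l then 1 else 0]
      refine Finset.sum_congr rfl fun x hx => ?_
      rw [Finset.mem_filter] at hx
      rw [vert_swap g hg r hr e ξ x.2 x.1 hx.2.ne']
  · unfold n0 b0
    simp only [Finset.card_filter]
    rw [Finset.sum_comm, Finset.sum_filter]
    refine Finset.sum_congr rfl fun x _ => ?_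
    by_cases hx : x.1 < x.2
    · rw [if_pos hx, ← count0 g hg w r hr e ξ hx]
    · rw [if_neg hx]
      exact Finset.sum_eq_zero fun σ _ => if_neg fun h => hx h.1

end Pool.Agent.K2L
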