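import Pool.Agent.K2L.Defs

/-!
Definitions for the modules TOPU, TOPG and TOP.
-/

set_option autoImplicit false
open scoped BigOperators
namespace Pool.Agent.K2L

/-- a feasible direction at `v` inside the closed face with the free coordinates `Z` -/
def Feas {m : ℕ} (g : Fin m → ℝ × ℝ) (v d : Fin m → ℝ) (Z : Finset (Fin m)) : Prop :=
  ∑ k, d k • g k = 0 ∧ (∀ k, k ∉ Z → d k = 0) ∧ (∀ k, v k = 1 → d k ≤ 0) ∧ (∀ k, v k = -1 → 0 ≤ d k)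

/-- the outermost nonzero coordinate of `d` points against `e` -/
def Down {m : ℕ} (r : Fin m → ℕ) (e : Fin m → ℤˣ) (d : Fin m → ℝ) : Prop :=
  ∃ l, d l ≠ 0 ∧ (∀ k, r l < r k → d k = 0) ∧ sr (e l) * d l < 0

/-- allowed free sets at the three kinds of vertices -/
def Al2 {m : ℕ} (r : Fin m → ℕ) (e σ : Fin m → ℤˣ) (i j : Fin m) (Z : Finset (Fin m)) : Prop :=
  i ∈ Z ∧ j ∈ Z ∧ ∀ l ∈ Z, l ≠ i → l ≠ j → σ l = tau r e i j l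

def Al1 {m : ℕ} (r : Fin m → ℕ) (e σ : Fin m → ℤˣ) (i : Fin m) (Z : Finset (Fin m)) : Prop :=
  i ∈ Z ∧ (Z = {i} ∨ ((∃ a ∈ Z, a ≠ i ∧ σ a = chi i a) ∧ (∃ b ∈ Z, b ≠ i ∧ σ b ≠ chi i b) ∧
    ∀ a ∈ Z, ∀ b ∈ Z, a ≠ i → b ≠ i → σ a = chi i a → σ b ≠ chi i b → Bef r e i a b))

def Al0 {m : ℕ} (r : Fin m → ℕ) (e σ : Fin m → ℤˣ) (Z : Finset (Fin m)) : Prop :=
  Z = ∅ ∨ ((∃ a ∈ Z, ∃ b ∈ Z, ∃ c ∈ Z, Alt σ a b c) ∧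
    ∀ a ∈ Z, ∀ b ∈ Z, ∀ c ∈ Z, Alt σ a b c → OutOK r e σ a b c)

end Pool.Agent.K2L
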