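import Mathlib
import Pool.Agent.K2L.TopDefs

/-!
Module TOPU, type 1: every feasible direction of an allowed face points down.
-/

set_option autoImplicit false
open scoped BigOperators
namespace Pool.Agent.K2L.TU

open Pool.Agent.K2L

variable {m : ℕ}

theorem sr_mul (u w : ℤˣ) : sr (u * w) = sr u * sr w := by
  unfold sr
  push_cast
  rfl

theorem sr_one : sr 1 = 1 := by simp [sr]

theorem sr_sq (u : ℤˣ) : sr u * sr u = 1 := by
  rw [← sr_mul]
  have : ∀ u : ℤˣ, u * u = 1 := by decide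
  rw [this, sr_one]

theorem dt_add_left (a b c : ℝ × ℝ) : dt (a + b) c = dt a c + dt b c := by
  unfold dt; simp only [Prod.fst_add, Prod.snd_add]; ring

theorem dt_add_right (a b c : ℝ × ℝ) : dt a (b + c) = dt a b + dt a c := by
  unfold dt; simp only [Prod.fst_add, Prod.snd_add]; ring

theorem dt_smul_left (t : ℝ) (a b : ℝ × ℝ) : dt (t • a) b = t * dt a b := by
  unfold dt; simp only [Prod.smul_fst, Prod.smul_snd, smul_eq_mul]; ring

theorem dt_smul_right (t : ℝ) (a b : ℝ × ℝ) : dt a (t • b) = t * dt a b := by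
  unfold dt; simp only [Prod.smul_fst, Prod.smul_snd, smul_eq_mul]; ring

theorem dt_self (a : ℝ × ℝ) : dt a a = 0 := by unfold dt; ring

theorem dt_zero_left (a : ℝ × ℝ) : dt 0 a = 0 := by unfold dt; simp

theorem dt_zero_right (a : ℝ × ℝ) : dt a 0 = 0 := by unfold dt; simp

theorem dt_sum_left (s : Finset (Fin m)) (f : Fin m → ℝ) (g : Fin m → ℝ × ℝ) (x : ℝ × ℝ) :
    dt (∑ k ∈ s, f k • g k) x = ∑ k ∈ s, f k * dt (g k) x := by
  induction s using Finset.induction_on with
  | empty => simp [dt_zero_left]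
  | insert a s ha ih => rw [Finset.sum_insert ha, Finset.sum_insert ha, dt_add_left, ih, dt_smul_left]

theorem dt_sum_right (s : Finset (Fin m)) (f : Fin m → ℝ) (g : Fin m → ℝ × ℝ) (x : ℝ × ℝ) :
    dt x (∑ k ∈ s, f k • g k) = ∑ k ∈ s, f k * dt x (g k) := by
  induction s using Finset.induction_on with
  | empty => simp [dt_zero_right]
  | insert a s ha ih => rw [Finset.sum_insert ha, Finset.sum_insert ha, dt_add_right, ih, dt_smul_right]

theorem chi_neg {i j : Fin m} (h : i ≠ j) : chi j i = - chi i j := by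
  unfold chi
  rcases lt_or_gt_of_ne h with h1 | h1
  · rw [if_pos h1, if_neg (not_lt.2 h1.le)]
  · rw [if_pos h1, if_neg (not_lt.2 h1.le)]; rfl

theorem chi_dt {g : Fin m → ℝ × ℝ} (hg : Sorted g) {i j : Fin m} (h : i ≠ j) :
    0 < sr (chi i j) * dt (g i) (g j) := by
  unfold chi
  rcases lt_or_gt_of_ne h with h1 | h1
  · rw [if_pos h1, sr_one, one_mul]
    exact hg i j h1
  · rw [if_neg (not_lt.2 h1.le)]
    have := hg j i h1
    have e : sr (-1) = -1 := by simp [sr]
    rw [e]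
    unfold dt at *
    linarith

/-- the sign of a feasible direction at a tight coordinate -/
theorem feas_sign {g : Fin m → ℝ × ℝ} {v d : Fin m → ℝ} {Z : Finset (Fin m)}
    (hd : Feas g v d Z) {σ : Fin m → ℤˣ} {k : Fin m} (hv : v k = sr (σ k)) :
    sr (σ k) * d k ≤ 0 := by
  obtain ⟨_, _, h1, h2⟩ := hd
  rcases Int.units_eq_one_or (σ k) with h | h
  · rw [h, sr_one] at hv
    rw [h, sr_one, one_mul]
    exact h1 k hv
  · have e : sr (-1) = -1 := by simp [sr]
    rw [h, e] at hv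
    rw [h, e]
    have := h2 k hv
    linarith

theorem sr_ne (u : ℤˣ) : sr u ≠ 0 := by
  intro h
  have := sr_sq u
  rw [h] at this
  simp at this

theorem feas_sign_lt {g : Fin m → ℝ × ℝ} {v d : Fin m → ℝ} {Z : Finset (Fin m)}
    (hd : Feas g v d Z) {σ : Fin m → ℤˣ} {k : Fin m} (hv : v k = sr (σ k)) (h : d k ≠ 0) :
    sr (σ k) * d k < 0 :=
  lt_of_le_of_ne (feas_sign hd hv) (mul_ne_zero (sr_ne _) h)

/-- the outermost nonzero coordinate -/
theorem exists_outer {d : Fin m → ℝ} (r : Fin m → ℕ) (h0 : d ≠ 0) :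
    ∃ l, d l ≠ 0 ∧ ∀ k, d k ≠ 0 → r k ≤ r l := by
  obtain ⟨k, hk⟩ := Function.ne_iff.1 h0
  obtain ⟨l, hl, h⟩ := (Finset.univ.filter fun k => d k ≠ 0).exists_max_image r
    ⟨k, Finset.mem_filter.2 ⟨Finset.mem_univ _, hk⟩⟩
  exact ⟨l, (Finset.mem_filter.1 hl).2, fun k hk => h k (Finset.mem_filter.2 ⟨Finset.mem_univ _, hk⟩)⟩

theorem down_of {r : Fin m → ℕ} {e : Fin m → ℤˣ} {d : Fin m → ℝ} {l : Fin m} (hl : d l ≠ 0)
    (h : ∀ k, d k ≠ 0 → r k ≤ r l) (hs : sr (e l) * d l < 0) : Down r e d := by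
  refine ⟨l, hl, fun k hk => ?_, hs⟩
  by_contra hc
  exact absurd (h k hc) (not_le.2 hk)

/-- term of the sum of the determinants with `g i` -/
theorem term_le {g : Fin m → ℝ × ℝ} (hg : Sorted g) {σ : Fin m → ℤˣ} {d : Fin m → ℝ} {i k : Fin m}
    (hk : k ≠ i) (hA : σ k = chi i k) (hs : sr (σ k) * d k ≤ 0) : d k * dt (g i) (g k) ≤ 0 := by
  have h1 := chi_dt hg hk.symm
  have h2 := sr_sq (chi i k)
  rw [hA] at hs
  have h3 : d k * dt (g i) (g k) = (sr (chi i k) * d k) * (sr (chi i k) * dt (g i) (g k)) := by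
    linear_combination (-(d k * dt (g i) (g k))) * h2
  rw [h3]
  exact mul_nonpos_of_nonpos_of_nonneg hs h1.le

theorem term_lt {g : Fin m → ℝ × ℝ} (hg : Sorted g) {σ : Fin m → ℤˣ} {d : Fin m → ℝ} {i k : Fin m}
    (hk : k ≠ i) (hA : σ k = chi i k) (hs : sr (σ k) * d k < 0) : d k * dt (g i) (g k) < 0 := by
  refine lt_of_le_of_ne (term_le hg hk hA hs.le) fun h => ?_
  rcases mul_eq_zero.1 h with h1 | h1
  · rw [h1] at hs; simp at hs
  · have := chi_dt hg hk.symm
    rw [h1] at this; simp at this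

theorem unit_neg : ∀ u w : ℤˣ, u ≠ w → u = - w := by decide

theorem term_ge {g : Fin m → ℝ × ℝ} (hg : Sorted g) {σ : Fin m → ℤˣ} {d : Fin m → ℝ} {i k : Fin m}
    (hk : k ≠ i) (hB : σ k ≠ chi i k) (hs : sr (σ k) * d k ≤ 0) : 0 ≤ d k * dt (g i) (g k) := by
  have h1 := chi_dt hg hk.symm
  have h2 := sr_sq (chi i k)
  have hB' := unit_neg _ _ hB
  have e : sr (- chi i k) = - sr (chi i k) := by simp [sr]
  rw [hB', e] at hs
  have h3 : d k * dt (g i) (g k) = (sr (chi i k) * d k) * (sr (chi i k) * dt (g i) (g k)) := by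
    linear_combination (-(d k * dt (g i) (g k))) * h2
  rw [h3]
  exact mul_nonneg (by linarith) h1.le

theorem term_gt {g : Fin m → ℝ × ℝ} (hg : Sorted g) {σ : Fin m → ℤˣ} {d : Fin m → ℝ} {i k : Fin m}
    (hk : k ≠ i) (hB : σ k ≠ chi i k) (hs : sr (σ k) * d k < 0) : 0 < d k * dt (g i) (g k) := by
  refine lt_of_le_of_ne (term_ge hg hk hB hs.le) fun h => ?_
  rcases mul_eq_zero.1 h.symm with h1 | h1
  · rw [h1] at hs; simp at hs
  · have := chi_dt hg hk.symm
    rw [h1] at this; simp at this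

/-- both letters occur -/
theorem both_letters {g : Fin m → ℝ × ℝ} (hg : Sorted g) {σ : Fin m → ℤˣ} {d : Fin m → ℝ} {i : Fin m}
    (hsum : ∑ k, d k • g k = 0) (hs : ∀ k, k ≠ i → sr (σ k) * d k ≤ 0)
    (hex : ∃ k, k ≠ i ∧ d k ≠ 0) :
    (∃ a, a ≠ i ∧ d a ≠ 0 ∧ σ a = chi i a) ∧ ∃ b, b ≠ i ∧ d b ≠ 0 ∧ σ b ≠ chi i b := by
  have h1 : ∑ k, d k * dt (g i) (g k) = 0 := by
    rw [← dt_sum_right, hsum, dt_zero_right]
  have hlt : ∀ k, k ≠ i → d k ≠ 0 → sr (σ k) * d k < 0 := fun k hk hd =>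
    lt_of_le_of_ne (hs k hk) (mul_ne_zero (sr_ne _) hd)
  obtain ⟨k, hk, hdk⟩ := hex
  constructor
  · by_contra hcon
    push Not at hcon
    have h2 : 0 < ∑ k, d k * dt (g i) (g k) := by
      refine Finset.sum_pos' (fun j _ => ?_) ⟨k, Finset.mem_univ k, term_gt hg hk (hcon k hk hdk) (hlt k hk hdk)⟩
      by_cases hj : j = i
      · rw [hj, dt_self, mul_zero]
      · by_cases hdj : d j = 0
        · rw [hdj, zero_mul]
        · exact (term_gt hg hj (hcon j hj hdj) (hlt j hj hdj)).le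
    rw [h1] at h2
    exact lt_irrefl _ h2
  · by_contra hcon
    push Not at hcon
    have h2 : ∑ k, d k * dt (g i) (g k) < 0 := by
      refine Finset.sum_neg' (fun j _ => ?_) ⟨k, Finset.mem_univ k, term_lt hg hk (hcon k hk hdk) (hlt k hk hdk)⟩
      by_cases hj : j = i
      · rw [hj, dt_self, mul_zero]
      · by_cases hdj : d j = 0
        · rw [hdj, zero_mul]
        · exact (term_lt hg hj (hcon j hj hdj) (hlt j hj hdj)).le
    rw [h1] at h2
    exact lt_irrefl _ h2

theorem unit_a : ∀ e ca cb cab sa sb : ℤˣ, -(e * (-cab) * (-cb)) = ca → sa = ca → sb ≠ cb →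
    e * sa * sb * cab = 1 := by decide

/-- the line `i` is outside of all the others: then `d i` has the right sign -/
theorem inner_case {g : Fin m → ℝ × ℝ} (hg : Sorted g) {r : Fin m → ℕ} {e σ : Fin m → ℤˣ}
    {d : Fin m → ℝ} {i : Fin m}
    (hsum : ∑ k, d k • g k = 0) (hs : ∀ k, k ≠ i → sr (σ k) * d k ≤ 0)
    (hex : ∃ k, k ≠ i ∧ d k ≠ 0) (hout : ∀ k, k ≠ i → d k ≠ 0 → r k < r i)
    (hbef : ∀ a b, a ≠ i → b ≠ i → d a ≠ 0 → d b ≠ 0 → σ a = chi i a → σ b ≠ chi i b →
      Bef r e i a b) : sr (e i) * d i < 0 := by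
  obtain ⟨⟨a0, ha0, hda0, hsa0⟩, b0, hb0, hdb0, hsb0⟩ := both_letters hg hsum hs hex
  have hlt : ∀ k, k ≠ i → d k ≠ 0 → sr (σ k) * d k < 0 := fun k hk hd =>
    lt_of_le_of_ne (hs k hk) (mul_ne_zero (sr_ne _) hd)
  set A := Finset.univ.filter (fun k => k ≠ i ∧ σ k = chi i k) with hA
  set B := Finset.univ.filter (fun k => k ≠ i ∧ σ k ≠ chi i k) with hB
  have hdec : d i • g i + (∑ a ∈ A, d a • g a + ∑ b ∈ B, d b • g b) = 0 := by
    rw [← hsum, ← Finset.add_sum_erase _ _ (Finset.mem_univ i)]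
    congr 1
    have e1 : A = (Finset.univ.erase i).filter (fun k => σ k = chi i k) := by
      ext k; simp [hA]
    have e2 : B = (Finset.univ.erase i).filter (fun k => ¬ σ k = chi i k) := by
      ext k; simp [hB]
    rw [e1, e2, Finset.sum_filter_add_sum_filter_not]
  have h1 : 0 < dt (g i) (∑ b ∈ B, d b • g b) := by
    rw [dt_sum_right]
    refine Finset.sum_pos' (fun j hj => ?_) ⟨b0, ?_, term_gt hg hb0 hsb0 (hlt b0 hb0 hdb0)⟩
    · rw [hB, Finset.mem_filter] at hj
      exact term_ge hg hj.2.1 hj.2.2 (hs j hj.2.1)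
    · rw [hB, Finset.mem_filter]
      exact ⟨Finset.mem_univ _, hb0, hsb0⟩
  have hterm : ∀ a ∈ A, ∀ b ∈ B, d a ≠ 0 → d b ≠ 0 →
      0 < sr (e i) * (d a * (d b * dt (g a) (g b))) := by
    intro a ha b hb hda hdb
    rw [hA, Finset.mem_filter] at ha
    rw [hB, Finset.mem_filter] at hb
    obtain ⟨_, hai, hsa⟩ := ha
    obtain ⟨_, hbi, hsb⟩ := hb
    have hab : a ≠ b := by
      rintro rfl
      exact hsb hsa
    have h2 := hbef a b hai hbi hda hdb hsa hsb
    have ra := hout a hai hda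
    have rb := hout b hbi hdb
    unfold Bef tau at h2
    rw [if_neg (fun h => absurd h.1 ra.le.not_gt), if_pos rb, chi_neg hab, chi_neg hbi.symm] at h2
    have h3 := unit_a _ _ _ _ _ _ h2 hsa hsb
    have h4 : sr (e i) * sr (σ a) * sr (σ b) * sr (chi a b) = 1 := by
      rw [← sr_mul, ← sr_mul, ← sr_mul, h3, sr_one]
    have X := hlt a hai hda
    have Y := hlt b hbi hdb
    have T := chi_dt hg hab
    have h5 : sr (e i) * (d a * (d b * dt (g a) (g b))) =
        (sr (σ a) * d a) * (sr (σ b) * d b) * (sr (chi a b) * dt (g a) (g b)) := by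
      have q1 := sr_sq (σ a)
      have q2 := sr_sq (σ b)
      have q3 := sr_sq (chi a b)
      have q4 := sr_sq (e i)
      have h6 : sr (e i) = sr (σ a) * sr (σ b) * sr (chi a b) := by
        calc sr (e i) = sr (e i) * (sr (σ a) * sr (σ a)) * (sr (σ b) * sr (σ b)) *
              (sr (chi a b) * sr (chi a b)) := by rw [q1, q2, q3]; ring
          _ = (sr (e i) * sr (σ a) * sr (σ b) * sr (chi a b)) *
              (sr (σ a) * sr (σ b) * sr (chi a b)) := by ring
          _ = _ := by rw [h4, one_mul]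
      rw [h6]; ring
    rw [h5]
    exact mul_pos (mul_pos_of_neg_of_neg X Y) T
  have hterm' : ∀ a ∈ A, ∀ b ∈ B, 0 ≤ sr (e i) * (d a * (d b * dt (g a) (g b))) := by
    intro a ha b hb
    by_cases hda : d a = 0
    · rw [hda]; simp
    · by_cases hdb : d b = 0
      · rw [hdb]; simp
      · exact (hterm a ha b hb hda hdb).le
  have h2 : 0 < sr (e i) * dt (∑ a ∈ A, d a • g a) (∑ b ∈ B, d b • g b) := by
    rw [dt_sum_left, Finset.mul_sum]
    have ha0A : a0 ∈ A := by
      rw [hA, Finset.mem_filter]; exact ⟨Finset.mem_univ _, ha0, hsa0⟩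
    have hb0B : b0 ∈ B := by
      rw [hB, Finset.mem_filter]; exact ⟨Finset.mem_univ _, hb0, hsb0⟩
    have hrw : ∀ a, sr (e i) * (d a * dt (g a) (∑ b ∈ B, d b • g b)) =
        ∑ b ∈ B, sr (e i) * (d a * (d b * dt (g a) (g b))) := by
      intro a
      rw [dt_sum_right, Finset.mul_sum, Finset.mul_sum]
    refine Finset.sum_pos' (fun a ha => ?_) ⟨a0, ha0A, ?_⟩
    · rw [hrw]
      exact Finset.sum_nonneg fun b hb => hterm' a ha b hb
    · rw [hrw]
      exact Finset.sum_pos' (fun b hb => hterm' a0 ha0A b hb) ⟨b0, hb0B, hterm a0 ha0A b0 hb0B hda0 hdb0⟩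
  have h3 : dt (d i • g i + (∑ a ∈ A, d a • g a + ∑ b ∈ B, d b • g b)) (∑ b ∈ B, d b • g b) = 0 := by
    rw [hdec, dt_zero_left]
  rw [dt_add_left, dt_add_left, dt_self, add_zero, dt_smul_left] at h3
  have h4 : (sr (e i) * d i) * dt (g i) (∑ b ∈ B, d b • g b) < 0 := by
    have : (sr (e i) * d i) * dt (g i) (∑ b ∈ B, d b • g b) =
        - (sr (e i) * dt (∑ a ∈ A, d a • g a) (∑ b ∈ B, d b • g b)) := by
      linear_combination (sr (e i)) * h3
    rw [this]; linarith
  by_contra hcon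
  rw [not_lt] at hcon
  exact absurd h4 (not_lt.2 (mul_nonneg hcon h1.le))

theorem unit_b : ∀ e c s : ℤˣ, e = c → s = c → e = s := by decide

theorem topu1 (hm : 2 ≤ m) (g : Fin m → ℝ × ℝ) (hg : Sorted g) (r : Fin m → ℕ)
    (hr : Function.Injective r)
    (e σ : Fin m → ℤˣ) (i : Fin m) (Z : Finset (Fin m)) (hZ : Al1 r e σ i Z)
    (v : Fin m → ℝ) (hv : ∀ k, k ≠ i → v k = sr (σ k)) (d : Fin m → ℝ) (hd : Feas g v d Z)
    (h0 : d ≠ 0) : Down r e d := by
  have hs : ∀ k, k ≠ i → sr (σ k) * d k ≤ 0 := fun k hk => feas_sign hd (hv k hk)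
  have hsupp : ∀ k, d k ≠ 0 → k ∈ Z := fun k hk => by
    by_contra hc
    exact hk (hd.2.1 k hc)
  obtain ⟨l, hl, hmax⟩ := exists_outer r h0
  by_cases hex : ∃ k, k ≠ i ∧ d k ≠ 0
  · have hbef : ∀ a b, a ≠ i → b ≠ i → d a ≠ 0 → d b ≠ 0 → σ a = chi i a → σ b ≠ chi i b →
        Bef r e i a b := by
      intro a b hai hbi hda hdb hsa hsb
      rcases hZ.2 with h1 | ⟨_, _, h1⟩
      · have := hsupp a hda
        rw [h1, Finset.mem_singleton] at this
        exact absurd this hai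
      · exact h1 a (hsupp a hda) b (hsupp b hdb) hai hbi hsa hsb
    by_cases hout : ∀ k, k ≠ i → d k ≠ 0 → r k < r i
    · have h1 := inner_case hg hd.1 hs hex hout hbef
      have hdi : d i ≠ 0 := by
        intro h
        rw [h] at h1
        simp at h1
      refine down_of hdi (fun k hk => ?_) h1
      by_cases hki : k = i
      · rw [hki]
      · exact (hout k hki hk).le
    · push Not at hout
      obtain ⟨k, hki, hdk, hrk⟩ := hout
      have hil : r i < r l := by
        have h1 := hmax k hdk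
        have h2 : r i ≠ r k := fun h => hki (hr h).symm
        omega
      have hli : l ≠ i := by rintro rfl; exact lt_irrefl _ hil
      obtain ⟨⟨a0, ha0, hda0, hsa0⟩, b0, hb0, hdb0, hsb0⟩ := both_letters hg hd.1 hs hex
      have hsl := lt_of_le_of_ne (hs l hli) (mul_ne_zero (sr_ne _) hl)
      refine down_of hl hmax ?_
      have key : e l = σ l := by
        by_cases hsl' : σ l = chi i l
        · have h1 := hbef l b0 hli hb0 hl hdb0 hsl' hsb0
          have hne : b0 ≠ l := by rintro rfl; exact hsb0 hsl'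
          have h2 : r b0 < r l := lt_of_le_of_ne (hmax b0 hdb0) fun h => hne (hr h)
          unfold Bef tau at h1
          rw [if_pos ⟨hil, h2⟩] at h1
          rw [h1, hsl']
        · have h1 := hbef a0 l ha0 hli hda0 hl hsa0 hsl'
          have hne : a0 ≠ l := by rintro rfl; exact hsl' hsa0
          have h2 : r a0 < r l := lt_of_le_of_ne (hmax a0 hda0) fun h => hne (hr h)
          unfold Bef tau at h1
          rw [if_neg (fun h => absurd h.2 h2.le.not_gt), if_neg (not_lt.2 hil.le)] at h1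
          have : ∀ e c1 c2 s : ℤˣ, -(e * c1 * c2) = c1 → s ≠ c2 → e = s := by decide
          exact this _ _ _ _ h1 hsl'
      rw [key]
      exact hsl
  · exfalso
    push Not at hex
    have hdi : d i ≠ 0 := by
      intro h
      apply h0
      funext k
      by_cases hki : k = i
      · rw [hki, h]; rfl
      · exact hex k hki
    obtain ⟨j, hj⟩ : ∃ j : Fin m, j ≠ i := by
      have : Nontrivial (Fin m) := Fin.nontrivial_iff_two_le.2 hm
      exact exists_ne i
    have h1 : ∑ k, d k * dt (g j) (g k) = 0 := by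
      rw [← dt_sum_right, hd.1, dt_zero_right]
    rw [Finset.sum_eq_single i (fun k _ hk => by rw [hex k hk, zero_mul])
      (fun h => absurd (Finset.mem_univ i) h)] at h1
    have h2 := chi_dt hg hj
    rcases mul_eq_zero.1 h1 with h3 | h3
    · exact hdi h3
    · rw [h3] at h2; simp at h2

end Pool.Agent.K2L.TU
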