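import Mathlib
import Pool.Agent.K2L.TopU1b

/-!
Module TOPG: a direction which points strictly inside an allowed face.
-/

set_option autoImplicit false
open scoped BigOperators
namespace Pool.Agent.K2L.TU

open Pool.Agent.K2L

variable {m : ℕ}

theorem sum_single_smul (g : Fin m → ℝ × ℝ) (i : Fin m) (x : ℝ) :
    ∑ k, (if k = i then x else 0) • g k = x • g i := by
  rw [Finset.sum_eq_single i (fun k _ hk => by rw [if_neg hk, zero_smul])
    (fun h => absurd (Finset.mem_univ i) h), if_pos rfl]

/-- coordinates in a basis -/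
theorem basis_id (x y z : ℝ × ℝ) : dt y z • x = dt x z • y + dt y x • z := by
  unfold dt
  ext
  · simp only [Prod.smul_fst, Prod.fst_add, smul_eq_mul]; ring
  · simp only [Prod.smul_snd, Prod.snd_add, smul_eq_mul]; ring

theorem dt_ne {g : Fin m → ℝ × ℝ} (hg : Sorted g) {i j : Fin m} (h : i ≠ j) :
    dt (g i) (g j) ≠ 0 := by
  intro h1
  have h2 := chi_dt hg h
  rw [h1] at h2
  simp at h2

theorem basis_div {x y z : ℝ × ℝ} (h : dt y z ≠ 0) :
    x = (dt x z / dt y z) • y + (dt y x / dt y z) • z := by
  have h1 := basis_id x y z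
  have h2 : (dt y z)⁻¹ • (dt y z • x) = (dt y z)⁻¹ • (dt x z • y + dt y x • z) := by rw [h1]
  rw [smul_smul, inv_mul_cancel₀ h, one_smul, smul_add, smul_smul, smul_smul] at h2
  rw [div_eq_inv_mul, div_eq_inv_mul]
  exact h2

theorem topg2 (g : Fin m → ℝ × ℝ) (hg : Sorted g) (σ : Fin m → ℤˣ) (i j : Fin m)
    (hij : i ≠ j) (Z : Finset (Fin m)) (hi : i ∈ Z) (hj : j ∈ Z) :
    ∃ d : Fin m → ℝ, ∑ k, d k • g k = 0 ∧ (∀ k, k ∉ Z → d k = 0) ∧
      ∀ k ∈ Z, k ≠ i → k ≠ j → sr (σ k) * d k < 0 := by
  set D : Fin m → ℝ := fun k => if k ∈ Z then - sr (σ k) else 0 with hD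
  set R := ∑ k, D k • g k with hR
  have hb := basis_div (x := R) (dt_ne hg hij)
  set x := dt R (g j) / dt (g i) (g j) with hx
  set y := dt (g i) R / dt (g i) (g j) with hy
  refine ⟨fun k => D k + ((if k = i then -x else 0) + (if k = j then -y else 0)), ?_, ?_, ?_⟩
  · simp only [add_smul, Finset.sum_add_distrib]
    rw [sum_single_smul, sum_single_smul, ← hR, hb, neg_smul, neg_smul]
    abel
  · intro k hk
    have hki : k ≠ i := fun h => hk (h ▸ hi)
    have hkj : k ≠ j := fun h => hk (h ▸ hj)
    simp only [hD, if_neg hk, if_neg hki, if_neg hkj, add_zero]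
  · intro k hk hki hkj
    simp only [hD, if_pos hk, if_neg hki, if_neg hkj, add_zero]
    have := sr_sq (σ k)
    linarith

theorem topg1 (g : Fin m → ℝ × ℝ) (hg : Sorted g) (r : Fin m → ℕ) (e σ : Fin m → ℤˣ)
    (i : Fin m) (Z : Finset (Fin m)) (hZ : Al1 r e σ i Z) :
    ∃ d : Fin m → ℝ, ∑ k, d k • g k = 0 ∧ (∀ k, k ∉ Z → d k = 0) ∧
      ∀ k ∈ Z, k ≠ i → sr (σ k) * d k < 0 := by
  rcases hZ with ⟨hi, hZ | ⟨⟨a0, ha0, hai, hsa⟩, ⟨b0, hb0, hbi, hsb⟩, _⟩⟩
  · refine ⟨fun _ => 0, by simp, fun _ _ => rfl, fun k hk hki => ?_⟩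
    rw [hZ, Finset.mem_singleton] at hk
    exact absurd hk hki
  · -- weights one
    set U : Fin m → ℝ := fun k => - sr (σ k) with hU
    have hUs : ∀ k, sr (σ k) * U k < 0 := fun k => by
      have := sr_sq (σ k)
      simp only [hU]
      linarith
    set A := Z.filter (fun k => k ≠ i ∧ σ k = chi i k) with hA
    set B := Z.filter (fun k => k ≠ i ∧ σ k ≠ chi i k) with hB
    set P := ∑ k ∈ A, U k * dt (g i) (g k) with hP
    set Q := ∑ k ∈ B, U k * dt (g i) (g k) with hQ
    have hPn : P < 0 := by
      refine Finset.sum_neg' (fun k hk => ?_) ⟨a0, ?_, term_lt hg hai hsa (hUs a0)⟩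
      · rw [hA, Finset.mem_filter] at hk
        exact term_le hg hk.2.1 hk.2.2 (hUs k).le
      · rw [hA, Finset.mem_filter]; exact ⟨ha0, hai, hsa⟩
    have hQp : 0 < Q := by
      refine Finset.sum_pos' (fun k hk => ?_) ⟨b0, ?_, term_gt hg hbi hsb (hUs b0)⟩
      · rw [hB, Finset.mem_filter] at hk
        exact term_ge hg hk.2.1 hk.2.2 (hUs k).le
      · rw [hB, Finset.mem_filter]; exact ⟨hb0, hbi, hsb⟩
    set D : Fin m → ℝ := fun k => (if k ∈ A then Q * U k else 0) + (if k ∈ B then -P * U k else 0)
      with hD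
    have hsum : ∀ F : Fin m → ℝ, ∑ k, D k * F k = Q * (∑ k ∈ A, U k * F k) - P * ∑ k ∈ B, U k * F k := by
      intro F
      have e1 : ∀ k, D k * F k = (if k ∈ A then Q * (U k * F k) else 0) -
          (if k ∈ B then P * (U k * F k) else 0) := by
        intro k
        simp only [hD]
        split_ifs <;> ring
      rw [Finset.sum_congr rfl (fun k _ => e1 k), Finset.sum_sub_distrib, Finset.sum_ite_mem,
        Finset.sum_ite_mem, Finset.univ_inter, Finset.univ_inter, ← Finset.mul_sum,
        ← Finset.mul_sum]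
    set R := ∑ k, D k • g k with hR
    have h0 : dt (g i) R = 0 := by
      rw [hR, dt_sum_right, hsum (fun k => dt (g i) (g k)), ← hP, ← hQ]
      ring
    have hb := basis_div (x := R) (dt_ne hg hai.symm)
    rw [h0, zero_div, zero_smul, add_zero] at hb
    set x := dt R (g a0) / dt (g i) (g a0) with hx
    have hAB : ∀ k, k ∈ A → k ∉ B := by
      intro k hk hk'
      rw [hA, Finset.mem_filter] at hk
      rw [hB, Finset.mem_filter] at hk'
      exact hk'.2.2 hk.2.2
    refine ⟨fun k => D k + (if k = i then -x else 0), ?_, ?_, ?_⟩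
    · simp only [add_smul, Finset.sum_add_distrib]
      rw [sum_single_smul, ← hR, hb, neg_smul]
      abel
    · intro k hk
      have hki : k ≠ i := fun h => hk (h ▸ hi)
      have h1 : k ∉ A := fun h => hk (Finset.mem_filter.1 h).1
      have h2 : k ∉ B := fun h => hk (Finset.mem_filter.1 h).1
      simp only [hD, if_neg h1, if_neg h2, if_neg hki, add_zero]
    · intro k hk hki
      have h3 := hUs k
      by_cases hsk : σ k = chi i k
      · have h1 : k ∈ A := Finset.mem_filter.2 ⟨hk, hki, hsk⟩
        have h2 := hAB k h1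
        simp only [hD, if_pos h1, if_neg h2, if_neg hki, add_zero]
        have : sr (σ k) * (Q * U k) = Q * (sr (σ k) * U k) := by ring
        rw [this]
        exact mul_neg_of_pos_of_neg hQp h3
      · have h1 : k ∈ B := Finset.mem_filter.2 ⟨hk, hki, hsk⟩
        have h2 : k ∉ A := fun h => hAB k h h1
        simp only [hD, if_pos h1, if_neg h2, if_neg hki, add_zero, zero_add]
        have : sr (σ k) * (-P * U k) = (-P) * (sr (σ k) * U k) := by ring
        rw [this]
        exact mul_neg_of_pos_of_neg (by linarith) h3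

theorem topg0 (g : Fin m → ℝ × ℝ) (hg : Sorted g) (r : Fin m → ℕ) (e σ : Fin m → ℤˣ)
    (Z : Finset (Fin m)) (hZ : Al0 r e σ Z) :
    ∃ d : Fin m → ℝ, ∑ k, d k • g k = 0 ∧ (∀ k, k ∉ Z → d k = 0) ∧
      ∀ k ∈ Z, sr (σ k) * d k < 0 := by
  rcases hZ with hZ | ⟨⟨a, ha, b, hb, c, hc, hab, hbc, hac, hba⟩, _⟩
  · refine ⟨fun _ => 0, by simp, fun _ _ => rfl, fun k hk => ?_⟩
    rw [hZ] at hk
    simp at hk
  · set D : Fin m → ℝ := fun k => if k ∈ Z then - sr (σ k) else 0 with hD
    set R := ∑ k, D k • g k with hR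
    set ua := (- sr (σ a)) • g a with hua
    set ub := (- sr (σ b)) • g b with hub
    set uc := (- sr (σ c)) • g c with huc
    have hb' : σ b = - σ a := unit_neg _ _ hba
    have hsb : sr (σ b) = - sr (σ a) := by rw [hb']; simp [sr]
    have hsc : sr (σ c) = sr (σ a) := by rw [hac]
    have q := sr_sq (σ a)
    have h1 : dt ua ub = - dt (g a) (g b) := by
      rw [hua, hub, dt_smul_left, dt_smul_right, hsb]
      linear_combination (- dt (g a) (g b)) * q
    have h2 : dt ub uc = - dt (g b) (g c) := by
      rw [huc, hub, dt_smul_left, dt_smul_right, hsb, hsc]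
      linear_combination (- dt (g b) (g c)) * q
    have h3 : dt ua uc = dt (g a) (g c) := by
      rw [huc, hua, dt_smul_left, dt_smul_right, hsc]
      linear_combination (dt (g a) (g c)) * q
    have p1 : 0 < dt (g a) (g b) := hg a b hab
    have p2 : 0 < dt (g b) (g c) := hg b c hbc
    have p3 : 0 < dt (g a) (g c) := hg a c (hab.trans hbc)
    -- the positive relation
    have hrel : dt (g b) (g c) • ua + dt (g a) (g c) • ub + dt (g a) (g b) • uc = 0 := by
      have h4 := basis_id ua ub uc
      rw [h2, h3] at h4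
      have h5 : dt ub ua = dt (g a) (g b) := by
        have : dt ub ua = - dt ua ub := by unfold dt; ring
        rw [this, h1, neg_neg]
      rw [h5, neg_smul] at h4
      have h6 : dt (g b) (g c) • ua + (dt (g a) (g c) • ub + dt (g a) (g b) • uc) = 0 := by
        rw [← h4]; abel
      rw [← h6]; abel
    have hbs := basis_div (x := R) (y := ua) (z := ub) (by rw [h1]; linarith)
    set x := dt R ub / dt ua ub with hx
    set y := dt ua R / dt ua ub with hy
    set M := |x| / dt (g b) (g c) + |y| / dt (g a) (g c) with hM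
    have hM0 : 0 ≤ M := by positivity
    have hMx : 0 ≤ M * dt (g b) (g c) - x := by
      have e1 : M * dt (g b) (g c) = |x| + |y| / dt (g a) (g c) * dt (g b) (g c) := by
        rw [hM, add_mul, div_mul_cancel₀ _ p2.ne']
      have e2 : 0 ≤ |y| / dt (g a) (g c) * dt (g b) (g c) := by positivity
      have := le_abs_self x
      linarith
    have hMy : 0 ≤ M * dt (g a) (g c) - y := by
      have e1 : M * dt (g a) (g c) = |x| / dt (g b) (g c) * dt (g a) (g c) + |y| := by
        rw [hM, add_mul, div_mul_cancel₀ _ p3.ne']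
      have e2 : 0 ≤ |x| / dt (g b) (g c) * dt (g a) (g c) := by positivity
      have := le_abs_self y
      linarith
    have hMz : 0 ≤ M * dt (g a) (g b) := mul_nonneg hM0 p1.le
    refine ⟨fun k => D k + ((if k = a then - sr (σ a) * (M * dt (g b) (g c) - x) else 0) +
      ((if k = b then - sr (σ b) * (M * dt (g a) (g c) - y) else 0) +
        (if k = c then - sr (σ c) * (M * dt (g a) (g b)) else 0))), ?_, ?_, ?_⟩
    · simp only [add_smul, Finset.sum_add_distrib]
      rw [sum_single_smul, sum_single_smul, sum_single_smul, ← hR]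
      have e1 : (- sr (σ a) * (M * dt (g b) (g c) - x)) • g a = (M * dt (g b) (g c) - x) • ua := by
        rw [hua, smul_smul, mul_comm]
      have e2 : (- sr (σ b) * (M * dt (g a) (g c) - y)) • g b = (M * dt (g a) (g c) - y) • ub := by
        rw [hub, smul_smul, mul_comm]
      have e3 : (- sr (σ c) * (M * dt (g a) (g b))) • g c = (M * dt (g a) (g b)) • uc := by
        rw [huc, smul_smul, mul_comm]
      rw [e1, e2, e3]
      have e4 : R + ((M * dt (g b) (g c) - x) • ua + ((M * dt (g a) (g c) - y) • ub +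
          (M * dt (g a) (g b)) • uc)) =
          (R - (x • ua + y • ub)) + M • (dt (g b) (g c) • ua + dt (g a) (g c) • ub +
            dt (g a) (g b) • uc) := by
        simp only [smul_add, smul_smul, sub_smul]
        abel
      rw [e4, hrel, ← hbs, sub_self, smul_zero, add_zero]
    · intro k hk
      have n1 : k ≠ a := fun h => hk (h ▸ ha)
      have n2 : k ≠ b := fun h => hk (h ▸ hb)
      have n3 : k ≠ c := fun h => hk (h ▸ hc)
      simp only [hD, if_neg hk, if_neg n1, if_neg n2, if_neg n3, add_zero]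
    · intro k hk
      have hterm : ∀ l : Fin m, ∀ w : ℝ, 0 ≤ w → sr (σ k) * (if k = l then - sr (σ l) * w else 0) ≤ 0 := by
        intro l w hw
        by_cases h : k = l
        · rw [if_pos h, h]
          have := sr_sq (σ l)
          have e : sr (σ l) * (- sr (σ l) * w) = - w := by linear_combination (-w) * this
          rw [e]; linarith
        · rw [if_neg h, mul_zero]
      have t1 := hterm a _ hMx
      have t2 := hterm b _ hMy
      have t3 := hterm c _ hMz
      have t0 : sr (σ k) * D k = -1 := by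
        simp only [hD, if_pos hk]
        have := sr_sq (σ k)
        linarith
      simp only [mul_add]
      rw [t0]
      linarith

end Pool.Agent.K2L.TU
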