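import Mathlib
import Pool.Agent.K2L.TopU1b
import Pool.Agent.KK.T0W

/-!
Module TOPU, types 2 and 0: every feasible direction of an allowed face points down.
-/

set_option autoImplicit false
open scoped BigOperators
namespace Pool.Agent.K2L.TU

open Pool.Agent.K2L

variable {m : ℕ}

theorem topu2_aux (g : Fin m → ℝ × ℝ) (hg : Sorted g) (r : Fin m → ℕ)
    (hr : Function.Injective r)
    (e σ : Fin m → ℤˣ) (i j : Fin m) (hij : i ≠ j) (Z : Finset (Fin m))
    (hZ : ∀ l ∈ Z, l ≠ i → l ≠ j → σ l = tau r e i j l) (hrij : r j < r i)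
    (v : Fin m → ℝ) (hv : ∀ k, k ≠ i → k ≠ j → v k = sr (σ k)) (d : Fin m → ℝ) (hd : Feas g v d Z)
    (h0 : d ≠ 0) : Down r e d := by
  have hs : ∀ k, k ≠ i → k ≠ j → sr (σ k) * d k ≤ 0 := fun k hk hk' => feas_sign hd (hv k hk hk')
  have hsupp : ∀ k, d k ≠ 0 → k ∈ Z := fun k hk => by
    by_contra hc
    exact hk (hd.2.1 k hc)
  obtain ⟨l, hl, hmax⟩ := exists_outer r h0
  by_cases hout : ∀ k, k ≠ i → k ≠ j → d k ≠ 0 → r k < r i
  · have hji := hij.symm
    have hterm : ∀ k, k ≠ i → k ≠ j → d k ≠ 0 →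
        0 < sr (e i) * sr (chi j i) * (d k * dt (g j) (g k)) := by
      intro k hki hkj hdk
      have h1 := hZ k (hsupp k hdk) hki hkj
      have rk := hout k hki hkj hdk
      unfold tau at h1
      rw [if_neg (fun h => absurd h.1 rk.le.not_gt), if_pos hrij] at h1
      have h2 : ∀ s e c c' : ℤˣ, s = -(e * c * c') → e * c' = -(s * c) := by decide
      have h3 := h2 _ _ _ _ h1
      have h4 : sr (e i) * sr (chi j i) = -(sr (σ k) * sr (chi j k)) := by
        rw [← sr_mul, ← sr_mul, h3]
        simp [sr]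
      have X := lt_of_le_of_ne (hs k hki hkj) (mul_ne_zero (sr_ne _) hdk)
      have T := chi_dt hg hkj.symm
      rw [h4]
      have h5 : -(sr (σ k) * sr (chi j k)) * (d k * dt (g j) (g k)) =
          (-(sr (σ k) * d k)) * (sr (chi j k) * dt (g j) (g k)) := by ring
      rw [h5]
      exact mul_pos (by linarith) T
    have h1 : ∑ k, d k * dt (g j) (g k) = 0 := by
      rw [← dt_sum_right, hd.1, dt_zero_right]
    have h2 : (∑ k, sr (e i) * sr (chi j i) * (d k * dt (g j) (g k))) = 0 := by
      rw [← Finset.mul_sum, h1, mul_zero]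
    rw [← Finset.add_sum_erase _ _ (Finset.mem_univ i)] at h2
    have hnn : ∀ k ∈ Finset.univ.erase i, 0 ≤ sr (e i) * sr (chi j i) * (d k * dt (g j) (g k)) := by
      intro k hk
      have hki := Finset.ne_of_mem_erase hk
      by_cases hkj : k = j
      · rw [hkj, dt_self, mul_zero, mul_zero]
      · by_cases hdk : d k = 0
        · rw [hdk, zero_mul, mul_zero]
        · exact (hterm k hki hkj hdk).le
    have T := chi_dt hg hij.symm
    by_cases hex : ∃ k, k ≠ i ∧ k ≠ j ∧ d k ≠ 0
    · obtain ⟨k, hki, hkj, hdk⟩ := hex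
      have h3 : 0 < ∑ k ∈ Finset.univ.erase i, sr (e i) * sr (chi j i) * (d k * dt (g j) (g k)) :=
        Finset.sum_pos' hnn ⟨k, Finset.mem_erase.2 ⟨hki, Finset.mem_univ k⟩, hterm k hki hkj hdk⟩
      have h4 : (sr (e i) * d i) * (sr (chi j i) * dt (g j) (g i)) < 0 := by
        have : (sr (e i) * d i) * (sr (chi j i) * dt (g j) (g i)) =
            sr (e i) * sr (chi j i) * (d i * dt (g j) (g i)) := by ring
        rw [this]; linarith
      have h5 : sr (e i) * d i < 0 := by
        by_contra hcon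
        rw [not_lt] at hcon
        exact absurd h4 (not_lt.2 (mul_nonneg hcon T.le))
      have hdi : d i ≠ 0 := by
        intro h
        rw [h] at h5
        simp at h5
      refine down_of hdi (fun k hk => ?_) h5
      by_cases hki : k = i
      · rw [hki]
      · by_cases hkj : k = j
        · rw [hkj]; exact hrij.le
        · exact (hout k hki hkj hk).le
    · exfalso
      push Not at hex
      rw [Finset.sum_eq_zero (fun k hk => by
        by_cases hkj : k = j
        · rw [hkj, dt_self, mul_zero, mul_zero]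
        · rw [hex k (Finset.ne_of_mem_erase hk) hkj, zero_mul, mul_zero]), add_zero] at h2
      have hdi : d i = 0 := by
        rcases mul_eq_zero.1 h2 with h3 | h3
        · exact absurd h3 (mul_ne_zero (sr_ne _) (sr_ne _))
        · rcases mul_eq_zero.1 h3 with h4 | h4
          · exact h4
          · rw [h4] at T; simp at T
      have h3 : ∑ k, d k * dt (g i) (g k) = 0 := by
        rw [← dt_sum_right, hd.1, dt_zero_right]
      rw [Finset.sum_eq_single j (fun k _ hkj => by
        by_cases hki : k = i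
        · rw [hki, dt_self, mul_zero]
        · rw [hex k hki hkj, zero_mul]) (fun h => absurd (Finset.mem_univ j) h)] at h3
      have T' := chi_dt hg hij
      have hdj : d j = 0 := by
        rcases mul_eq_zero.1 h3 with h4 | h4
        · exact h4
        · rw [h4] at T'; simp at T'
      apply h0
      funext k
      by_cases hki : k = i
      · rw [hki, hdi]; rfl
      · by_cases hkj : k = j
        · rw [hkj, hdj]; rfl
        · exact hex k hki hkj
  · push Not at hout
    obtain ⟨k, hki, hkj, hdk, hrk⟩ := hout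
    have hil : r i < r l := by
      have h1 := hmax k hdk
      have h2 : r i ≠ r k := fun h => hki (hr h).symm
      omega
    have hli : l ≠ i := by rintro rfl; exact lt_irrefl _ hil
    have hlj : l ≠ j := by rintro rfl; omega
    have h1 := hZ l (hsupp l hl) hli hlj
    unfold tau at h1
    rw [if_pos ⟨hil, hrij.trans hil⟩] at h1
    refine down_of hl hmax ?_
    rw [← h1]
    exact lt_of_le_of_ne (hs l hli hlj) (mul_ne_zero (sr_ne _) hl)

theorem topu2 (g : Fin m → ℝ × ℝ) (hg : Sorted g) (r : Fin m → ℕ) (hr : Function.Injective r)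
    (e σ : Fin m → ℤˣ) (i j : Fin m) (hij : i ≠ j) (Z : Finset (Fin m)) (hZ : Al2 r e σ i j Z)
    (v : Fin m → ℝ) (hv : ∀ k, k ≠ i → k ≠ j → v k = sr (σ k)) (d : Fin m → ℝ) (hd : Feas g v d Z)
    (h0 : d ≠ 0) : Down r e d := by
  rcases lt_or_gt_of_ne (fun h => hij (hr h) : r i ≠ r j) with h | h
  · refine topu2_aux g hg r hr e σ j i hij.symm Z (fun l hl hlj hli => ?_) h v
      (fun k hk hk' => hv k hk' hk) d hd h0
    rw [hZ.2.2 l hl hli hlj]
    unfold tau
    by_cases h1 : r i < r l ∧ r j < r l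
    · rw [if_pos h1, if_pos h1.symm]
    · have h3 : ¬ (r j < r l ∧ r i < r l) := fun h2 => h1 ⟨h2.2, h2.1⟩
      rw [if_neg h1, if_neg h.le.not_gt, if_neg h3, if_pos h]
  · exact topu2_aux g hg r hr e σ i j hij Z hZ.2.2 h v hv d hd h0

theorem topu0 (g : Fin m → ℝ × ℝ) (hg : Sorted g) (r : Fin m → ℕ) (hr : Function.Injective r)
    (e σ : Fin m → ℤˣ) (Z : Finset (Fin m)) (hZ : Al0 r e σ Z)
    (v : Fin m → ℝ) (hv : ∀ k, v k = sr (σ k)) (d : Fin m → ℝ) (hd : Feas g v d Z)
    (h0 : d ≠ 0) : Down r e d := by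
  have hs : ∀ k, sr (σ k) * d k ≤ 0 := fun k => feas_sign hd (hv k)
  have hsupp : ∀ k, d k ≠ 0 → k ∈ Z := fun k hk => by
    by_contra hc
    exact hk (hd.2.1 k hc)
  obtain ⟨l, hl, hmax⟩ := exists_outer r h0
  have hZ' : (∃ a ∈ Z, ∃ b ∈ Z, ∃ c ∈ Z, Alt σ a b c) ∧
      ∀ a ∈ Z, ∀ b ∈ Z, ∀ c ∈ Z, Alt σ a b c → OutOK r e σ a b c := by
    rcases hZ with h | h
    · have := hsupp l hl
      rw [h] at this
      simp at this
    · exact h
  obtain ⟨⟨a1, _, b1, _, _, _, hab1, _⟩, hok⟩ := hZ'
  set T := Finset.univ.filter (fun k => d k ≠ 0) with hT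
  have hmem : ∀ k, k ∈ T ↔ d k ≠ 0 := fun k => by rw [hT, Finset.mem_filter]; simp
  have hspan : KK.Span (KK.bo σ) T := by
    refine ⟨⟨l, (hmem l).2 hl⟩, fun i hi => ?_⟩
    rw [hmem] at hi
    have hex : ∃ k, k ≠ i ∧ d k ≠ 0 := by
      by_contra hcon
      push Not at hcon
      obtain ⟨j, hj⟩ : ∃ j : Fin m, j ≠ i := by
        by_cases h : a1 = i
        · exact ⟨b1, fun h' => by rw [h, h'] at hab1; exact lt_irrefl _ hab1⟩
        · exact ⟨a1, h⟩
      have h1 : ∑ k, d k * dt (g j) (g k) = 0 := by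
        rw [← dt_sum_right, hd.1, dt_zero_right]
      rw [Finset.sum_eq_single i (fun k _ hk => by rw [hcon k hk, zero_mul])
        (fun h => absurd (Finset.mem_univ i) h)] at h1
      have h2 := chi_dt hg hj
      rcases mul_eq_zero.1 h1 with h3 | h3
      · exact hi h3
      · rw [h3] at h2; simp at h2
    obtain ⟨⟨a, hai, hda, hsa⟩, b, hbi, hdb, hsb⟩ := both_letters hg hd.1 (fun k _ => hs k) hex
    have key : ∀ k, k ≠ i → (σ k * chi i k = - σ i) → KK.br (KK.bo σ) k i = true := by
      intro k hk h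
      rcases lt_or_gt_of_ne hk with h1 | h1
      · rw [KK.br_lt h1, beq_iff_eq, KK.bo_eq]
        unfold chi at h
        rw [if_neg (not_lt.2 h1.le)] at h
        have : ∀ s t : ℤˣ, s * -1 = -t → t = s := by decide
        exact this _ _ h
      · rw [KK.br_gt h1]
        unfold chi at h
        rw [if_pos h1] at h
        have h2 : ¬ (KK.bo σ i = KK.bo σ k) := by
          rw [KK.bo_eq]
          have : ∀ s t : ℤˣ, s * 1 = -t → ¬ t = s := by decide
          exact this _ _ h
        revert h2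
        cases KK.bo σ i <;> cases KK.bo σ k <;> simp
    rcases Int.units_eq_one_or (σ i) with h | h
    · refine ⟨b, (hmem b).2 hdb, key b hbi ?_⟩
      rw [h]
      have : ∀ s c : ℤˣ, s ≠ c → s * c = -1 := by decide
      exact this _ _ hsb
    · refine ⟨a, (hmem a).2 hda, key a hai ?_⟩
      rw [h, hsa]
      have : ∀ c : ℤˣ, c * c = -(-1) := by decide
      exact this _
  have hins : insert l (T.erase l) = T := Finset.insert_erase ((hmem l).2 hl)
  have h1 : KK.Span (KK.bo σ) (insert l (T.erase l)) := by rw [hins]; exact hspan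
  obtain ⟨a, ha, b, hb, c, hc, hA, hH⟩ := KK.exists_has (Finset.notMem_erase l T) h1
  rw [hins, hmem] at ha hb hc
  have h2 := hok a (hsupp a ha) b (hsupp b hb) c (hsupp c hc) (KK.alt_iff.2 hA)
  obtain ⟨hab, hbc, _, _⟩ := hA
  have hlt : ∀ k, d k ≠ 0 → k ≠ l → r k < r l := fun k hk hkl =>
    lt_of_le_of_ne (hmax k hk) fun h => hkl (hr h)
  have key : e l = σ l := by
    rcases hH with rfl | rfl | rfl
    · exact h2.1 (hlt b hb hab.ne') (hlt c hc (hab.trans hbc).ne')
    · exact h2.2.1 (hlt a ha hab.ne) (hlt c hc hbc.ne')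
    · exact h2.2.2 (hlt a ha (hab.trans hbc).ne) (hlt b hb hbc.ne)
  refine down_of hl hmax ?_
  rw [key]
  exact lt_of_le_of_ne (hs l) (mul_ne_zero (sr_ne _) hl)

end Pool.Agent.K2L.TU
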