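import Pool.Agent.K2L.TopCore
import Pool.Agent.K2L.TopU2b
import Pool.Agent.K2L.TopGb

/-!
Module TOP: every pair (vertex, allowed free set) gives its own cell.
-/

set_option autoImplicit false
open scoped BigOperators
namespace Pool.Agent.K2L

noncomputable section

open scoped Classical

variable {m : ℕ}

theorem pv_abs {g : Fin m → ℝ × ℝ} {F : Finset (Fin m)} {σ : Fin m → ℤˣ} {v : Fin m → ℝ}
    (h : PV g F σ v) (k : Fin m) : |v k| ≤ 1 := by
  by_cases hk : k ∈ F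
  · exact (h.2.1 k hk).le
  · rw [h.1 k hk, abs_sr]

theorem prop2_pv {g : Fin m → ℝ × ℝ} {i j : Fin m} {σ : Fin m → ℤˣ} (hij : i ≠ j)
    (h : Prop2 g i j σ) : ∃ v, PV g {i, j} σ v := by
  obtain ⟨a, b, ha, hb, hs⟩ := h
  refine ⟨fun k => if k = i then a else if k = j then b else sr (σ k), ?_, ?_, ?_⟩
  · intro k hk
    simp only [Finset.mem_insert, Finset.mem_singleton, not_or] at hk
    simp only [if_neg hk.1, if_neg hk.2]
  · intro k hk
    simp only [Finset.mem_insert, Finset.mem_singleton] at hk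
    rcases hk with hk | hk
    · subst hk; simpa using ha
    · subst hk; simp only [if_neg hij.symm, if_true]; exact hb
  · have hi : i ∈ (Finset.univ : Finset (Fin m)) := Finset.mem_univ i
    have hj : j ∈ (Finset.univ : Finset (Fin m)).erase i :=
      Finset.mem_erase.mpr ⟨hij.symm, Finset.mem_univ j⟩
    rw [← Finset.add_sum_erase _ _ hi, ← Finset.add_sum_erase _ _ hj, ← add_assoc]
    simp only [if_true, if_neg hij.symm]
    rw [← hs]
    congr 1
    have hE : ((Finset.univ : Finset (Fin m)).erase i).erase j =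
        Finset.univ.filter (fun k => k ≠ i ∧ k ≠ j) := by
      ext k
      simp only [Finset.mem_erase, Finset.mem_univ, and_true, Finset.mem_filter, true_and]
      tauto
    rw [hE]
    apply Finset.sum_congr rfl
    intro k hk
    rw [Finset.mem_filter] at hk
    simp only [if_neg hk.2.1, if_neg hk.2.2]

theorem tie1_pv {g : Fin m → ℝ × ℝ} {i : Fin m} {σ : Fin m → ℤˣ}
    (h : Tie1 g i σ) : ∃ v, PV g {i} σ v := by
  obtain ⟨a, ha, hs⟩ := h
  refine ⟨fun k => if k = i then a else sr (σ k), ?_, ?_, ?_⟩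
  · intro k hk
    simp only [Finset.mem_singleton] at hk
    simp only [if_neg hk]
  · intro k hk
    simp only [Finset.mem_singleton] at hk
    subst hk; simpa using ha
  · rw [← Finset.add_sum_erase _ _ (Finset.mem_univ i)]
    simp only [if_true]
    rw [← hs]
    congr 1
    apply Finset.sum_congr rfl
    intro k hk
    rw [Finset.mem_erase] at hk
    simp only [if_neg hk.1]

theorem tie0_pv {g : Fin m → ℝ × ℝ} {σ : Fin m → ℤˣ}
    (h : Tie0 g σ) : ∃ v, PV g ∅ σ v := by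
  refine ⟨fun k => sr (σ k), fun k _ => rfl, ?_, h⟩
  intro k hk
  exact absurd hk (Finset.notMem_empty k)

/-- the lines which agree with `σ` at the crossing of `i` and `j` -/
def agS (r : Fin m → ℕ) (e σ : Fin m → ℤˣ) (i j : Fin m) : Finset (Fin m) :=
  Finset.univ.filter fun l => l ≠ i ∧ l ≠ j ∧ σ l = tau r e i j l

theorem agS_card (r : Fin m → ℕ) (e σ : Fin m → ℤˣ) (i j : Fin m) :
    (agS r e σ i j).card = ag r e σ i j := by
  unfold agS ag
  congr

/-- allowed sets without the line `i` -/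
def fr1 (r : Fin m → ℕ) (e σ : Fin m → ℤˣ) (i : Fin m) : Finset (Finset (Fin m)) :=
  insert ∅ (Finset.univ.filter fun Z : Finset (Fin m) => i ∉ Z ∧ (∃ a ∈ Z, σ a = chi i a) ∧
    (∃ b ∈ Z, σ b ≠ chi i b) ∧
    ∀ a ∈ Z, ∀ b ∈ Z, σ a = chi i a → σ b ≠ chi i b → Bef r e i a b)

theorem fr1_card (r : Fin m → ℕ) (e σ : Fin m → ℤˣ) (i : Fin m) :
    (fr1 r e σ i).card = W1 r e σ i := by
  unfold fr1 W1
  rw [Finset.card_insert_of_notMem]
  · rw [add_comm]
  · intro h
    rw [Finset.mem_filter] at h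
    obtain ⟨_, _, ⟨a, ha, _⟩, _⟩ := h
    exact Finset.notMem_empty a ha

def fr0 (r : Fin m → ℕ) (e σ : Fin m → ℤˣ) : Finset (Finset (Fin m)) :=
  insert ∅ (Finset.univ.filter fun Z : Finset (Fin m) => (∃ a ∈ Z, ∃ b ∈ Z, ∃ c ∈ Z, Alt σ a b c) ∧
    ∀ a ∈ Z, ∀ b ∈ Z, ∀ c ∈ Z, Alt σ a b c → OutOK r e σ a b c)

theorem fr0_card (r : Fin m → ℕ) (e σ : Fin m → ℤˣ) :
    (fr0 r e σ).card = W0 r e σ := by
  unfold fr0 W0
  rw [Finset.card_insert_of_notMem]
  · rw [add_comm]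
  · intro h
    rw [Finset.mem_filter] at h
    obtain ⟨_, ⟨a, ha, _⟩, _⟩ := h
    exact Finset.notMem_empty a ha

theorem vt2 {g : Fin m → ℝ × ℝ} (hg : Sorted g) {r : Fin m → ℕ} (hr : Function.Injective r)
    {e σ : Fin m → ℤˣ} {i j : Fin m} (hij : i ≠ j) (h : Prop2 g i j σ) {Z : Finset (Fin m)}
    (hZ : Z ⊆ agS r e σ i j) :
    Vt g r e (vx g {i, j} σ) (insert i (insert j Z)) := by
  have hp := vx_spec (prop2_pv hij h)
  have hv : ∀ k, k ≠ i → k ≠ j → vx g {i, j} σ k = sr (σ k) := by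
    intro k h1 h2
    exact hp.1 k (by simp [h1, h2])
  have hA : Al2 r e σ i j (insert i (insert j Z)) := by
    refine ⟨by simp, by simp, fun l hl h1 h2 => ?_⟩
    simp only [Finset.mem_insert] at hl
    rcases hl with hl | hl | hl
    · exact absurd hl h1
    · exact absurd hl h2
    · have := hZ hl
      unfold agS at this
      rw [Finset.mem_filter] at this
      exact this.2.2.2
  refine ⟨hp.2.2, pv_abs hp, ?_, ?_, ?_⟩
  · intro k hk
    have := (hp.mem_iff k).mp hk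
    simp only [Finset.mem_insert, Finset.mem_singleton] at this
    simp only [Finset.mem_insert]
    tauto
  · intro d hd h0
    exact TU.topu2 g hg r hr e σ i j hij _ hA _ hv d hd h0
  · obtain ⟨d, h1, h2, h3⟩ := TU.topg2 g hg σ i j hij (insert i (insert j Z)) (by simp) (by simp)
    refine ⟨d, h1, h2, fun k hk hk1 => ?_⟩
    have hki : k ≠ i := by
      intro h
      have := hp.2.1 k (by simp [h])
      rw [hk1] at this
      exact lt_irrefl _ this
    have hkj : k ≠ j := by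
      intro h
      have := hp.2.1 k (by simp [h])
      rw [hk1] at this
      exact lt_irrefl _ this
    rw [hv k hki hkj]
    exact h3 k hk hki hkj

theorem vt1 (hm : 2 ≤ m) {g : Fin m → ℝ × ℝ} (hg : Sorted g) {r : Fin m → ℕ} (hr : Function.Injective r)
    {e σ : Fin m → ℤˣ} {i : Fin m} (h : Tie1 g i σ) {Z : Finset (Fin m)}
    (hZ : Z ∈ fr1 r e σ i) :
    i ∉ Z ∧ Vt g r e (vx g {i} σ) (insert i Z) := by
  have hp := vx_spec (tie1_pv h)
  have hv : ∀ k, k ≠ i → vx g {i} σ k = sr (σ k) := by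
    intro k h1
    exact hp.1 k (by simp [h1])
  have hiZ : i ∉ Z := by
    unfold fr1 at hZ
    rw [Finset.mem_insert, Finset.mem_filter] at hZ
    rcases hZ with hZ | hZ
    · rw [hZ]; exact Finset.notMem_empty i
    · exact hZ.2.1
  have hA : Al1 r e σ i (insert i Z) := by
    refine ⟨by simp, ?_⟩
    unfold fr1 at hZ
    rw [Finset.mem_insert, Finset.mem_filter] at hZ
    rcases hZ with hZ | ⟨_, _, ⟨a, ha, ha'⟩, ⟨b, hb, hb'⟩, hB⟩
    · left; rw [hZ]
      rfl
    · right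
      refine ⟨⟨a, by simp [ha], fun h => hiZ (h ▸ ha), ha'⟩,
        ⟨b, by simp [hb], fun h => hiZ (h ▸ hb), hb'⟩, ?_⟩
      intro x hx y hy hxi hyi
      exact hB x (Finset.mem_of_mem_insert_of_ne hx hxi) y (Finset.mem_of_mem_insert_of_ne hy hyi)
  refine ⟨hiZ, hp.2.2, pv_abs hp, ?_, ?_, ?_⟩
  · intro k hk
    have := (hp.mem_iff k).mp hk
    simp only [Finset.mem_singleton] at this
    simp only [Finset.mem_insert]
    tauto
  · intro d hd h0
    exact TU.topu1 hm g hg r hr e σ i _ hA _ hv d hd h0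
  · obtain ⟨d, h1, h2, h3⟩ := TU.topg1 g hg r e σ i (insert i Z) hA
    refine ⟨d, h1, h2, fun k hk hk1 => ?_⟩
    have hki : k ≠ i := by
      intro h
      have := hp.2.1 k (by simp [h])
      rw [hk1] at this
      exact lt_irrefl _ this
    rw [hv k hki]
    exact h3 k hk hki

theorem vt0 {g : Fin m → ℝ × ℝ} (hg : Sorted g) {r : Fin m → ℕ} (hr : Function.Injective r)
    {e σ : Fin m → ℤˣ} (h : Tie0 g σ) {Z : Finset (Fin m)}
    (hZ : Z ∈ fr0 r e σ) :
    Vt g r e (vx g ∅ σ) Z := by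
  have hp := vx_spec (tie0_pv h)
  have hv : ∀ k, vx g ∅ σ k = sr (σ k) := by
    intro k
    exact hp.1 k (Finset.notMem_empty k)
  have hA : Al0 r e σ Z := by
    unfold fr0 at hZ
    rw [Finset.mem_insert, Finset.mem_filter] at hZ
    rcases hZ with hZ | hZ
    · left; exact hZ
    · right; exact hZ.2
  refine ⟨hp.2.2, pv_abs hp, ?_, ?_, ?_⟩
  · intro k hk
    have := (hp.mem_iff k).mp hk
    exact absurd this (Finset.notMem_empty k)
  · intro d hd h0
    exact TU.topu0 g hg r hr e σ Z hA _ hv d hd h0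
  · obtain ⟨d, h1, h2, h3⟩ := TU.topg0 g hg r e σ Z hA
    refine ⟨d, h1, h2, fun k hk hk1 => ?_⟩
    rw [hv k]
    exact h3 k hk

/-- the cells with interior points -/
def NGs (g : Fin m → ℝ × ℝ) : Finset (Fin m → ZMod 3) :=
  Finset.univ.filter fun s : Fin m → ZMod 3 =>
    ∃ y : Fin m → ℝ, ∑ k, y k • g k = 0 ∧ GRD.Cell s y

theorem insert_inj2 {i : Fin m} {Z Z' : Finset (Fin m)} (h : i ∉ Z) (h' : i ∉ Z')
    (he : insert i Z = insert i Z') : Z = Z' := by
  rw [← Finset.erase_insert h, ← Finset.erase_insert h', he]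

theorem sig_eq {F : Finset (Fin m)} {σ σ' : Fin m → ℤˣ} (h : ∀ k, k ∉ F → σ k = σ' k)
    (h1 : ∀ k ∈ F, σ k = 1) (h2 : ∀ k ∈ F, σ' k = 1) : σ = σ' := by
  funext k
  by_cases hk : k ∈ F
  · rw [h1 k hk, h2 k hk]
  · exact h k hk

theorem top (hm : 2 ≤ m) (g : Fin m → ℝ × ℝ) (hg : Sorted g) (r : Fin m → ℕ) (hr : Function.Injective r)
    (e : Fin m → ℤˣ) :
    (∑ p ∈ Finset.univ.filter (fun p : Fin m × Fin m => p.1 < p.2),
        ∑ σ ∈ Finset.univ.filter (fun σ : Fin m → ℤˣ => σ p.1 = 1 ∧ σ p.2 = 1 ∧ Prop2 g p.1 p.2 σ),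
          2 ^ ag r e σ p.1 p.2) +
      (∑ i : Fin m, ∑ σ ∈ Finset.univ.filter (fun σ : Fin m → ℤˣ => σ i = 1 ∧ Tie1 g i σ),
        W1 r e σ i) +
      ∑ σ ∈ Finset.univ.filter (fun σ : Fin m → ℤˣ => Tie0 g σ), W0 r e σ ≤ NG g := by
  -- the three index sets
  set T2 : Finset (Σ _ : Fin m × Fin m, Σ _ : Fin m → ℤˣ, Finset (Fin m)) :=
    (Finset.univ.filter (fun p : Fin m × Fin m => p.1 < p.2)).sigma fun p =>
      (Finset.univ.filter (fun σ : Fin m → ℤˣ =>
        σ p.1 = 1 ∧ σ p.2 = 1 ∧ Prop2 g p.1 p.2 σ)).sigma fun σ => (agS r e σ p.1 p.2).powerset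
    with hT2
  set T1 : Finset (Σ _ : Fin m, Σ _ : Fin m → ℤˣ, Finset (Fin m)) :=
    (Finset.univ : Finset (Fin m)).sigma fun i =>
      (Finset.univ.filter (fun σ : Fin m → ℤˣ => σ i = 1 ∧ Tie1 g i σ)).sigma fun σ => fr1 r e σ i
    with hT1
  set T0 : Finset (Σ _ : Fin m → ℤˣ, Finset (Fin m)) :=
    (Finset.univ.filter (fun σ : Fin m → ℤˣ => Tie0 g σ)).sigma fun σ => fr0 r e σ with hT0
  have c2 : T2.card = ∑ p ∈ Finset.univ.filter (fun p : Fin m × Fin m => p.1 < p.2),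
        ∑ σ ∈ Finset.univ.filter (fun σ : Fin m → ℤˣ => σ p.1 = 1 ∧ σ p.2 = 1 ∧ Prop2 g p.1 p.2 σ),
          2 ^ ag r e σ p.1 p.2 := by
    rw [hT2, Finset.card_sigma]
    apply Finset.sum_congr rfl
    intro p _
    rw [Finset.card_sigma]
    apply Finset.sum_congr rfl
    intro σ _
    rw [Finset.card_powerset, agS_card]
  have c1 : T1.card = ∑ i : Fin m,
      ∑ σ ∈ Finset.univ.filter (fun σ : Fin m → ℤˣ => σ i = 1 ∧ Tie1 g i σ), W1 r e σ i := by
    rw [hT1, Finset.card_sigma]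
    apply Finset.sum_congr rfl
    intro i _
    rw [Finset.card_sigma]
    apply Finset.sum_congr rfl
    intro σ _
    rw [fr1_card]
  have c0 : T0.card = ∑ σ ∈ Finset.univ.filter (fun σ : Fin m → ℤˣ => Tie0 g σ), W0 r e σ := by
    rw [hT0, Finset.card_sigma]
    apply Finset.sum_congr rfl
    intro σ _
    rw [fr0_card]
  -- the three maps
  let f2 : (Σ _ : Fin m × Fin m, Σ _ : Fin m → ℤˣ, Finset (Fin m)) → (Fin m → ZMod 3) :=
    fun x => cel (vx g {x.1.1, x.1.2} x.2.1) (insert x.1.1 (insert x.1.2 x.2.2))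
  let f1 : (Σ _ : Fin m, Σ _ : Fin m → ℤˣ, Finset (Fin m)) → (Fin m → ZMod 3) :=
    fun x => cel (vx g {x.1} x.2.1) (insert x.1 x.2.2)
  let f0 : (Σ _ : Fin m → ℤˣ, Finset (Fin m)) → (Fin m → ZMod 3) :=
    fun x => cel (vx g ∅ x.1) x.2
  -- membership facts
  have m2 : ∀ x ∈ T2, x.1.1 < x.1.2 ∧ x.2.1 x.1.1 = 1 ∧ x.2.1 x.1.2 = 1 ∧
      PV g {x.1.1, x.1.2} x.2.1 (vx g {x.1.1, x.1.2} x.2.1) ∧ x.1.1 ∉ x.2.2 ∧ x.1.2 ∉ x.2.2 ∧
      Vt g r e (vx g {x.1.1, x.1.2} x.2.1) (insert x.1.1 (insert x.1.2 x.2.2)) := by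
    intro x hx
    rw [hT2, Finset.mem_sigma, Finset.mem_sigma, Finset.mem_filter, Finset.mem_filter,
      Finset.mem_powerset] at hx
    obtain ⟨⟨_, h1⟩, ⟨_, h2, h3, h4⟩, h5⟩ := hx
    have hij : x.1.1 ≠ x.1.2 := ne_of_lt h1
    refine ⟨h1, h2, h3, vx_spec (prop2_pv hij h4), ?_, ?_, vt2 hg hr hij h4 h5⟩
    · intro h
      have := h5 h
      unfold agS at this
      rw [Finset.mem_filter] at this
      exact this.2.1 rfl
    · intro h
      have := h5 h
      unfold agS at this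
      rw [Finset.mem_filter] at this
      exact this.2.2.1 rfl
  have m1 : ∀ x ∈ T1, x.2.1 x.1 = 1 ∧ PV g {x.1} x.2.1 (vx g {x.1} x.2.1) ∧ x.1 ∉ x.2.2 ∧
      Vt g r e (vx g {x.1} x.2.1) (insert x.1 x.2.2) := by
    intro x hx
    rw [hT1, Finset.mem_sigma, Finset.mem_sigma, Finset.mem_filter] at hx
    obtain ⟨_, ⟨_, h2, h4⟩, h5⟩ := hx
    have h6 := vt1 hm hg hr h4 h5
    exact ⟨h2, vx_spec (tie1_pv h4), h6.1, h6.2⟩
  have m0 : ∀ x ∈ T0, PV g ∅ x.1 (vx g ∅ x.1) ∧ Vt g r e (vx g ∅ x.1) x.2 := by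
    intro x hx
    rw [hT0, Finset.mem_sigma, Finset.mem_filter] at hx
    obtain ⟨⟨_, h4⟩, h5⟩ := hx
    exact ⟨vx_spec (tie0_pv h4), vt0 hg hr h4 h5⟩
  -- injectivity
  have i2 : Set.InjOn f2 T2 := by
    rintro ⟨⟨i, j⟩, σ, Z⟩ hx ⟨⟨i', j'⟩, σ', Z'⟩ hx' he
    obtain ⟨a1, a2, a3, a4, a5, a6, a7⟩ := m2 _ (Finset.mem_coe.mp hx)
    obtain ⟨b1, b2, b3, b4, b5, b6, b7⟩ := m2 _ (Finset.mem_coe.mp hx')
    obtain ⟨h1, h2⟩ := cel_inj hr a7 b7 he
    dsimp only at a1 a2 a3 a4 a5 a6 b1 b2 b3 b4 b5 b6 h1 h2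
    rw [h1] at a4
    obtain ⟨hF, hS⟩ := a4.inj b4
    have hi : i = i' ∧ j = j' := by
      have e1 : i ∈ ({i', j'} : Finset (Fin m)) := by rw [← hF]; simp
      have e2 : j ∈ ({i', j'} : Finset (Fin m)) := by rw [← hF]; simp
      have e3 : i' ∈ ({i, j} : Finset (Fin m)) := by rw [hF]; simp
      have e4 : j' ∈ ({i, j} : Finset (Fin m)) := by rw [hF]; simp
      simp only [Finset.mem_insert, Finset.mem_singleton] at e1 e2 e3 e4
      rcases e1 with e1 | e1
      · rcases e2 with e2 | e2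
        · exfalso; rw [e1, e2] at a1; exact lt_irrefl _ a1
        · exact ⟨e1, e2⟩
      · rcases e2 with e2 | e2
        · exfalso; rw [e1, e2] at a1; exact lt_asymm a1 b1
        · exfalso; rw [e1, e2] at a1; exact lt_irrefl _ a1
    obtain ⟨rfl, rfl⟩ := hi
    have hσ : σ = σ' := by
      apply sig_eq (F := {i, j}) hS
      · intro k hk
        simp only [Finset.mem_insert, Finset.mem_singleton] at hk
        rcases hk with rfl | rfl
        · exact a2
        · exact a3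
      · intro k hk
        simp only [Finset.mem_insert, Finset.mem_singleton] at hk
        rcases hk with rfl | rfl
        · exact b2
        · exact b3
    subst hσ
    have hij : i ≠ j := ne_of_lt a1
    have hZ : Z = Z' := by
      apply insert_inj2 a6 b6
      apply insert_inj2 (i := i) _ _ h2
      · simp [hij, a5]
      · simp [hij, b5]
    rw [hZ]
  have i1 : Set.InjOn f1 T1 := by
    rintro ⟨i, σ, Z⟩ hx ⟨i', σ', Z'⟩ hx' he
    obtain ⟨a2, a4, a5, a7⟩ := m1 _ (Finset.mem_coe.mp hx)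
    obtain ⟨b2, b4, b5, b7⟩ := m1 _ (Finset.mem_coe.mp hx')
    obtain ⟨h1, h2⟩ := cel_inj hr a7 b7 he
    dsimp only at a2 a4 a5 b2 b4 b5 h1 h2
    rw [h1] at a4
    obtain ⟨hF, hS⟩ := a4.inj b4
    have hi : i = i' := Finset.singleton_injective hF
    subst hi
    have hσ : σ = σ' := by
      apply sig_eq (F := {i}) hS
      · intro k hk
        rw [Finset.mem_singleton] at hk
        rw [hk]; exact a2
      · intro k hk
        rw [Finset.mem_singleton] at hk
        rw [hk]; exact b2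
    subst hσ
    rw [insert_inj2 a5 b5 h2]
  have i0 : Set.InjOn f0 T0 := by
    rintro ⟨σ, Z⟩ hx ⟨σ', Z'⟩ hx' he
    obtain ⟨a4, a7⟩ := m0 _ (Finset.mem_coe.mp hx)
    obtain ⟨b4, b7⟩ := m0 _ (Finset.mem_coe.mp hx')
    obtain ⟨h1, h2⟩ := cel_inj hr a7 b7 he
    dsimp only at a4 b4 h1 h2
    rw [h1] at a4
    obtain ⟨_, hS⟩ := a4.inj b4
    have hσ : σ = σ' := funext fun k => hS k (Finset.notMem_empty k)
    subst hσ
    rw [h2]
  -- disjointness
  have d21 : Disjoint (T2.image f2) (T1.image f1) := by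
    rw [Finset.disjoint_left]
    intro s hs hs'
    obtain ⟨x, hx, rfl⟩ := Finset.mem_image.mp hs
    obtain ⟨y, hy, he⟩ := Finset.mem_image.mp hs'
    obtain ⟨a1, a2, a3, a4, a5, a6, a7⟩ := m2 _ hx
    obtain ⟨b2, b4, b5, b7⟩ := m1 _ hy
    obtain ⟨h1, _⟩ := cel_inj hr b7 a7 he
    rw [h1] at b4
    obtain ⟨hF, _⟩ := b4.inj a4
    have hc := congrArg Finset.card hF
    rw [Finset.card_singleton, Finset.card_pair (ne_of_lt a1)] at hc
    omega
  have d20 : Disjoint (T2.image f2) (T0.image f0) := by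
    rw [Finset.disjoint_left]
    intro s hs hs'
    obtain ⟨x, hx, rfl⟩ := Finset.mem_image.mp hs
    obtain ⟨y, hy, he⟩ := Finset.mem_image.mp hs'
    obtain ⟨a1, a2, a3, a4, a5, a6, a7⟩ := m2 _ hx
    obtain ⟨b4, b7⟩ := m0 _ hy
    obtain ⟨h1, _⟩ := cel_inj hr b7 a7 he
    rw [h1] at b4
    obtain ⟨hF, _⟩ := b4.inj a4
    have hc := congrArg Finset.card hF
    rw [Finset.card_empty, Finset.card_pair (ne_of_lt a1)] at hc
    omega
  have d10 : Disjoint (T1.image f1) (T0.image f0) := by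
    rw [Finset.disjoint_left]
    intro s hs hs'
    obtain ⟨x, hx, rfl⟩ := Finset.mem_image.mp hs
    obtain ⟨y, hy, he⟩ := Finset.mem_image.mp hs'
    obtain ⟨a2, a4, a5, a7⟩ := m1 _ hx
    obtain ⟨b4, b7⟩ := m0 _ hy
    obtain ⟨h1, _⟩ := cel_inj hr b7 a7 he
    rw [h1] at b4
    obtain ⟨hF, _⟩ := b4.inj a4
    have hc := congrArg Finset.card hF
    rw [Finset.card_empty, Finset.card_singleton] at hc
    omega
  -- conclusion
  have hsub : (T2.image f2 ∪ T1.image f1) ∪ T0.image f0 ⊆ NGs g := by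
    intro s hs
    rw [Finset.mem_union, Finset.mem_union] at hs
    unfold NGs
    rw [Finset.mem_filter]
    refine ⟨Finset.mem_univ s, ?_⟩
    rcases hs with (hs | hs) | hs
    · obtain ⟨x, hx, rfl⟩ := Finset.mem_image.mp hs
      exact cel_good (m2 x hx).2.2.2.2.2.2
    · obtain ⟨x, hx, rfl⟩ := Finset.mem_image.mp hs
      exact cel_good (m1 x hx).2.2.2
    · obtain ⟨x, hx, rfl⟩ := Finset.mem_image.mp hs
      exact cel_good (m0 x hx).2
  have hNG : NG g = (NGs g).card := by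
    unfold NG NGs
    congr
  rw [← c2, ← c1, ← c0, hNG]
  calc T2.card + T1.card + T0.card
      = (T2.image f2).card + (T1.image f1).card + (T0.image f0).card := by
        rw [Finset.card_image_of_injOn i2, Finset.card_image_of_injOn i1,
          Finset.card_image_of_injOn i0]
    _ = ((T2.image f2 ∪ T1.image f1) ∪ T0.image f0).card := by
        rw [Finset.card_union_of_disjoint (Finset.disjoint_union_left.mpr ⟨d20, d10⟩),
          Finset.card_union_of_disjoint d21]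
    _ ≤ (NGs g).card := Finset.card_le_card hsub

end

end Pool.Agent.K2L
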