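import Pool.Agent.K2L.Law
import Pool.Agent.K2L.Core
import Pool.Agent.K2L.Pert
import Pool.Agent.K2L.Top
import Pool.Agent.K2L.Word
import Pool.Agent.K2L.Avg1Final
import Pool.Agent.K2L.Avg0

/-!
# Kalai's inequality with two-dimensional Gale vectors: assembly
-/

set_option autoImplicit false

open scoped BigOperators

namespace Pool.Agent.K2L

theorem ordsO_ne : ∀ k : ℕ, ordsO k ≠ []
  | 0 => by simp [ordsO, core6O]
  | k + 1 => by
    obtain ⟨o, ho⟩ := List.exists_mem_of_ne_nil _ (ordsO_ne k)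
    apply List.ne_nil_of_mem (a := Ord.cons 0 o)
    rw [ordsO, List.mem_flatMap]
    exact ⟨0, List.mem_finRange _, List.mem_map.mpr ⟨o, ho, rfl⟩⟩

theorem core {m : ℕ} (hm : 6 ≤ m) (g : Fin m → ℝ × ℝ) (hg : Sorted g) : 3 ^ m ≤ 9 * NG g := by
  obtain ⟨k, rfl⟩ : ∃ k, m = k + 6 := ⟨m - 6, by omega⟩
  refine core_of hm g hg (KK.ords (k + 6)) ?_ rkL ?_
    (fun r hr e => top (by omega) g hg r hr e) (pert (by omega) g hg) ?_ ?_
  · rw [ords_eq]
    intro h
    exact ordsO_ne k (List.map_eq_nil_iff.mp h)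
  · intro o ho
    rw [ords_eq, List.mem_map] at ho
    obtain ⟨o', _, rfl⟩ := ho
    rw [rkL_toL]
    exact rk_injective o'
  · intro σ i s
    exact avg1 hm σ i s
  · intro σ h hh ha
    exact avg0 hm σ h hh ha

theorem hS : GRD.HS := hS_of fun _ hm g hg => core hm g hg

end Pool.Agent.K2L
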