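import Mathlib

/-!
# Type 1 averages: the arithmetic inequality
-/

set_option autoImplicit false

open scoped BigOperators

namespace Pool.Agent.K2L

theorem pow_lb (β : ℕ) (h : 5 ≤ β) : ((β : ℤ) + 2) ^ 2 ≤ 2 * 2 ^ β := by
  induction β, h using Nat.le_induction with
  | base => norm_num
  | succ β hβ ih =>
    push_cast
    have h2 : (2 : ℤ) ^ (β + 1) = 2 * 2 ^ β := by ring
    rw [h2]
    have : (5 : ℤ) ≤ β := by exact_mod_cast hβ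
    nlinarith

/-- twice the total bound -/
def Q2 (α β : ℕ) (R LB : ℤ) : ℤ :=
  24 * (α : ℤ) * (α - 1) * (2 ^ β - 2) + 24 * (β : ℤ) * (β - 1) * (2 ^ α - 2) +
    12 * (α : ℤ) * β * (2 ^ min α β - 8) + 4 * R + 8 * ((α : ℤ) + β) * LB

/-- sum of the gains of the near words, both ends `A` -/
def R1 (α β : ℕ) : ℤ := 6 * (α : ℤ) * 2 ^ β - 12 * α - 3 * β * 2 ^ β - 12 * β

/-- the same, different ends -/
def R3 (α β : ℕ) : ℤ :=
  6 * ((α : ℤ) - 1) * (2 ^ β - 2) + 6 * ((β : ℤ) - 1) * (2 ^ α - 2) - 3 * 2 ^ α - 3 * 2 ^ β - 24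

theorem key_sq {x y b : ℤ} (hx : 2 ≤ x) (hy : 0 ≤ y) (hb : (y + 2) ^ 2 ≤ 2 * b) :
    2 * (x + y) ^ 2 ≤ b * x ^ 2 := by
  have h1 : 2 * (x + y) ≤ x * (y + 2) := by nlinarith
  have h2 : (2 * (x + y)) ^ 2 ≤ (x * (y + 2)) ^ 2 := by
    apply pow_le_pow_left₀ _ h1
    linarith
  have h3 : x ^ 2 * (y + 2) ^ 2 ≤ x ^ 2 * (2 * b) := mul_le_mul_of_nonneg_left hb (sq_nonneg x)
  nlinarith

theorem two_pow_ge (α : ℕ) (h : 2 ≤ α) : (4 : ℤ) ≤ 2 ^ α := by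
  calc (4 : ℤ) = 2 ^ 2 := by norm_num
    _ ≤ 2 ^ α := pow_le_pow_right₀ (by norm_num) h

theorem Q_case1 (α β : ℕ) (h2 : 2 ≤ α) (hαβ : α ≤ β) (h7 : 7 ≤ α + β) :
    0 ≤ Q2 α β (R1 α β) (12 - 4 * 2 ^ α + 2 * 2 ^ β) := by
  by_cases h5 : 5 ≤ β
  · have hb := pow_lb β h5
    have ha := two_pow_ge α h2
    have x2 : (2 : ℤ) ≤ α := by exact_mod_cast h2
    have y5 : (5 : ℤ) ≤ β := by exact_mod_cast h5
    have xy : (α : ℤ) ≤ β := by exact_mod_cast hαβ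
    have hs := key_sq x2 (by linarith) hb
    have hb0 : (0 : ℤ) ≤ 2 ^ β := by positivity
    have e : Q2 α β (R1 α β) (12 - 4 * 2 ^ α + 2 * 2 ^ β) =
        4 * (2 ^ β * (6 * (α : ℤ) ^ 2 + 4 * α + β) +
          2 ^ α * (6 * (β : ℤ) ^ 2 - 14 * β + 3 * α * β - 8 * α) -
          12 * ((α : ℤ) + β) ^ 2 + 24 * (α + β)) := by
      rw [Q2, R1, min_eq_left hαβ]; ring
    rw [e]
    have c1 : 0 ≤ 6 * (β : ℤ) ^ 2 - 14 * β + 3 * α * β - 8 * α := by nlinarith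
    have c2 : 0 ≤ (2 : ℤ) ^ α * (6 * (β : ℤ) ^ 2 - 14 * β + 3 * α * β - 8 * α) :=
      mul_nonneg (by positivity) c1
    have c3 : 0 ≤ (2 : ℤ) ^ β * (4 * (α : ℤ) + β) := mul_nonneg hb0 (by linarith)
    nlinarith
  · have h : β = 4 := by omega
    subst h
    have : α = 3 ∨ α = 4 := by omega
    rcases this with rfl | rfl <;> norm_num [Q2, R1]

theorem Q_case2 (α β : ℕ) (h2 : 2 ≤ β) (hαβ : β < α) (h7 : 7 ≤ α + β) :
    0 ≤ Q2 α β (R1 α β) (12 - 6 * 2 ^ β) := by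
  by_cases h5 : 5 ≤ α
  · have ha := pow_lb α h5
    have hb := two_pow_ge β h2
    have y2 : (2 : ℤ) ≤ β := by exact_mod_cast h2
    have x5 : (5 : ℤ) ≤ α := by exact_mod_cast h5
    have xy : (β : ℤ) + 1 ≤ α := by exact_mod_cast hαβ
    have hs := key_sq y2 (by linarith : (0 : ℤ) ≤ α) ha
    have e : Q2 α β (R1 α β) (12 - 6 * 2 ^ β) =
        12 * (2 ^ β * (2 * (α : ℤ) ^ 2 + α * β - 4 * α - 5 * β) +
          2 ^ α * (2 * (β : ℤ) ^ 2 - 2 * β) -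
          4 * ((α : ℤ) + β) ^ 2 + 8 * (α + β)) := by
      rw [Q2, R1, min_eq_right hαβ.le]; ring
    rw [e]
    have c1 : 0 ≤ 2 * (α : ℤ) ^ 2 + α * β - 4 * α - 5 * β := by nlinarith
    have c2 : 4 * (2 * (α : ℤ) ^ 2 + α * β - 4 * α - 5 * β) ≤
        2 ^ β * (2 * (α : ℤ) ^ 2 + α * β - 4 * α - 5 * β) :=
      mul_le_mul_of_nonneg_right hb c1
    have c3 : 0 ≤ (2 : ℤ) ^ α * ((β : ℤ) ^ 2 - 2 * β) := mul_nonneg (by positivity) (by nlinarith)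
    have c4 : 0 ≤ 6 * (α : ℤ) ^ 2 - 2 * (β : ℤ) ^ 2 - 8 * α - 12 * β := by nlinarith
    nlinarith
  · have h : α = 4 := by omega
    have h' : β = 3 := by omega
    subst h; subst h'
    norm_num [Q2, R1]

theorem Q_case3 (α β : ℕ) (h2 : 2 ≤ α) (hαβ : α ≤ β) (h7 : 7 ≤ α + β) :
    0 ≤ Q2 α β (R3 α β) (12 - 6 * 2 ^ α) := by
  by_cases h5 : 5 ≤ β
  · have hb := pow_lb β h5
    have ha := two_pow_ge α h2
    have x2 : (2 : ℤ) ≤ α := by exact_mod_cast h2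
    have y5 : (5 : ℤ) ≤ β := by exact_mod_cast h5
    have xy : (α : ℤ) ≤ β := by exact_mod_cast hαβ
    have hs := key_sq x2 (by linarith : (0 : ℤ) ≤ β) hb
    have hb0 : (0 : ℤ) ≤ 2 ^ β := by positivity
    have e : Q2 α β (R3 α β) (12 - 6 * 2 ^ α) =
        12 * (2 ^ β * (2 * (α : ℤ) ^ 2 - 3) +
          2 ^ α * (2 * (β : ℤ) ^ 2 + α * β - 4 * α - 4 * β - 3) -
          4 * ((α : ℤ) + β) ^ 2 + 8 * (α + β)) := by
      rw [Q2, R3, min_eq_left hαβ]; ring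
    rw [e]
    have c1 : 0 ≤ 2 * (β : ℤ) ^ 2 + α * β - 4 * α - 4 * β - 3 := by nlinarith
    have c2 : 4 * (2 * (β : ℤ) ^ 2 + α * β - 4 * α - 4 * β - 3) ≤
        2 ^ α * (2 * (β : ℤ) ^ 2 + α * β - 4 * α - 4 * β - 3) :=
      mul_le_mul_of_nonneg_right ha c1
    have c3 : 0 ≤ (2 : ℤ) ^ β * (3 * (α : ℤ) ^ 2 - 12) := mul_nonneg hb0 (by nlinarith)
    have c4 : 0 ≤ 13 * (β : ℤ) ^ 2 + 2 * α * β - 3 * (α : ℤ) ^ 2 - 16 * α - 16 * β - 24 := by nlinarith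
    nlinarith
  · have h : β = 4 := by omega
    subst h
    have : α = 3 ∨ α = 4 := by omega
    rcases this with rfl | rfl <;> norm_num [Q2, R3]

theorem Q2_symm (α β : ℕ) (R LB : ℤ) : Q2 α β R LB = Q2 β α R LB := by
  rw [Q2, Q2, min_comm]; ring

theorem R3_symm (α β : ℕ) : R3 α β = R3 β α := by
  rw [R3, R3]; ring

theorem Q_case3' (α β : ℕ) (h2 : 2 ≤ α) (h2' : 2 ≤ β) (h7 : 7 ≤ α + β) :
    0 ≤ Q2 α β (R3 α β) (12 - 6 * 2 ^ min α β) := by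
  rcases le_total α β with h | h
  · rw [min_eq_left h]; exact Q_case3 α β h2 h h7
  · rw [min_eq_right h, Q2_symm, R3_symm]; exact Q_case3 β α h2' h (by omega)

end Pool.Agent.K2L
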