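import Pool.Agent.K2L.Avg1b
import Pool.Agent.K2L.Avg1c

/-!
# Type 1 averages: the induction step
-/

set_option autoImplicit false

open scoped BigOperators

namespace Pool.Agent.K2L

/-- the average of `D3` (times the mass) -/
noncomputable def Tk (k : ℕ) (σ : Fin (k + 6) → ℤˣ) (i : Fin (k + 6)) : ℤ :=
  Ek k (fun o => ∑ e : Fin (k + 6) → ℤˣ, D3 (word o e σ i))

/-- the average gain -/
noncomputable def GE (k : ℕ) (ρ : Fin (k + 6) → ℤˣ) (q : Fin (k + 6)) (x : Bool) : ℤ :=
  Ek k (fun o => ∑ e : Fin (k + 6) → ℤˣ, G x (word o e ρ q))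

/-- the mass -/
noncomputable def Um (k : ℕ) : ℤ := ((ordsO k).length : ℤ) * 2 ^ (k + 6)

theorem Um_nonneg (k : ℕ) : 0 ≤ Um k := by unfold Um; positivity

theorem Um_succ (k : ℕ) : Um (k + 1) = 2 * (k + 7) * Um k := by
  unfold Um
  rw [length_ordsO]
  push_cast
  ring

theorem Tk_succ (k : ℕ) (σ : Fin (k + 7) → ℤˣ) (i : Fin (k + 7)) :
    Tk (k + 1) σ i = ∑ j : Fin (k + 7),
      if j = i then Um k * (D3 (near i 1 σ) + D3 (near i (-1) σ))
      else 3 * Tk k (rm j σ) (dr j i) + GE k (rm j σ) (dr j i) (lt' σ i j) := by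
  unfold Tk
  rw [Ek_succ]
  apply Finset.sum_congr rfl
  intro j _
  by_cases h : j = i
  · subst h
    rw [if_pos rfl]
    have h1 : ∀ o : Ord (k + 6), ∑ e : Fin (k + 6 + 1) → ℤˣ, D3 (word (.cons j o) e σ j) =
        2 ^ (k + 6) * (D3 (near j 1 σ) + D3 (near j (-1) σ)) := fun o => sum_word_self j o σ D3
    have h2 : Ek k (fun o => ∑ e : Fin (k + 6 + 1) → ℤˣ, D3 (word (.cons j o) e σ j)) =
        Ek k (fun _ => 2 ^ (k + 6) * (D3 (near j 1 σ) + D3 (near j (-1) σ))) := Ek_congr k h1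
    refine h2.trans ?_
    rw [Ek_const, Um]
    ring
  · rw [if_neg h]
    have hne : i ≠ j := fun h' => h h'.symm
    have hi : j.succAbove (dr j i) = i := sa_dr hne
    have h1 : ∀ o : Ord (k + 6), ∑ e : Fin (k + 6 + 1) → ℤˣ, D3 (word (.cons j o) e σ i) =
        3 * (∑ e' : Fin (k + 6) → ℤˣ, D3 (word o e' (rm j σ) (dr j i))) +
          ∑ e' : Fin (k + 6) → ℤˣ, G (lt' σ i j) (word o e' (rm j σ) (dr j i)) := by
      intro o
      have h3 := sum_word_other j o σ (dr j i) D3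
      rw [hi] at h3
      rw [h3, Finset.mul_sum, ← Finset.sum_add_distrib]
      apply Finset.sum_congr rfl
      intro e' _
      exact insertion _ _ (word_ne_nil (n := k + 4) o e' (rm j σ) (dr j i))
    have h2 : Ek k (fun o => ∑ e : Fin (k + 6 + 1) → ℤˣ, D3 (word (.cons j o) e σ i)) =
        Ek k (fun o => 3 * (∑ e' : Fin (k + 6) → ℤˣ, D3 (word o e' (rm j σ) (dr j i))) +
          ∑ e' : Fin (k + 6) → ℤˣ, G (lt' σ i j) (word o e' (rm j σ) (dr j i))) := Ek_congr k h1
    refine h2.trans ?_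
    rw [Ek_add, Ek_mul]
    rfl

/-- gain of the insertion of `x` after `y` -/
def cE (a b : ℕ) (x y f l : Bool) : ℤ :=
  Gn a b (decide (y ≠ x ∧ l ≠ x)) + Gn a b (decide (f ≠ x ∧ y ≠ x))

/-- average of a function of the two ends -/
noncomputable def HE (k : ℕ) (τ : Fin (k + 6) → ℤˣ) (s : Fin (k + 6)) (c : Bool → Bool → ℤ) : ℤ :=
  Ek k (fun o => ∑ e : Fin (k + 6) → ℤˣ, c (fst' (word o e τ s)) (lst' (word o e τ s)))

theorem HE_add (k : ℕ) (τ : Fin (k + 6) → ℤˣ) (s : Fin (k + 6)) (c c' : Bool → Bool → ℤ) :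
    HE k τ s c + HE k τ s c' = HE k τ s (fun f l => c f l + c' f l) := by
  unfold HE
  rw [← Ek_add]
  apply Ek_congr
  intro o
  rw [Finset.sum_add_distrib]

theorem HE_lb (k : ℕ) (τ : Fin (k + 6) → ℤˣ) (s : Fin (k + 6)) (c : Bool → Bool → ℤ) (b : ℤ)
    (h : ∀ f l, b ≤ c f l) : Um k * b ≤ HE k τ s c := by
  unfold HE
  have h1 : Ek k (fun _ => 2 ^ (k + 6) * b) ≤ Ek k (fun o => ∑ e : Fin (k + 6) → ℤˣ,
      c (fst' (word o e τ s)) (lst' (word o e τ s))) := by
    apply Ek_mono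
    intro o
    calc (2 : ℤ) ^ (k + 6) * b = ∑ _e : Fin (k + 6) → ℤˣ, b := by
          simp only [Finset.sum_const, Finset.card_univ, Fintype.card_fun, Fintype.card_units_int,
            Fintype.card_fin, nsmul_eq_mul]
          push_cast
          ring
      _ ≤ _ := Finset.sum_le_sum fun e _ => h _ _
  rw [Ek_const] at h1
  unfold Um
  linarith

theorem G_near (m : ℕ) (x : Bool) (q : Fin (m + 2)) (ρ : Fin (m + 2) → ℤˣ) (u : ℤˣ) :
    G x (near q u ρ) = Gn (nl ρ q x) (nl ρ q (!x))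
      (decide (lt' ρ q (nx q) ≠ x ∧ lt' ρ q (pv q) ≠ x)) := by
  have hne : (nrL q).map (lt' ρ q) ≠ [] := by
    intro h
    have h1 := count_near q (-1) ρ true
    have h2 := count_near q (-1) ρ false
    have h3 := nl_total ρ q
    rw [near_neg, h] at h1 h2
    simp at h1 h2
    omega
  unfold G
  rw [count_near, count_near]
  rcases Int.units_eq_one_or u with hu | hu
  · rw [hu, near_one, fst'_reverse _ hne, lst'_reverse _ hne, nrL_fst, nrL_lst]
    congr 1
    simp only [decide_eq_decide]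
    exact and_comm
  · rw [hu, near_neg, nrL_fst, nrL_lst]

theorem GE_succ (k : ℕ) (ρ : Fin (k + 7) → ℤˣ) (q : Fin (k + 7)) (x : Bool) :
    GE (k + 1) ρ q x = ∑ l : Fin (k + 7),
      if l = q then 2 * Um k * Gn (nl ρ q x) (nl ρ q (!x))
        (decide (lt' ρ q (nx q) ≠ x ∧ lt' ρ q (pv q) ≠ x))
      else HE k (rm l ρ) (dr l q) (cE (nl ρ q x) (nl ρ q (!x)) x (lt' ρ q l)) := by
  unfold GE
  rw [Ek_succ]
  apply Finset.sum_congr rfl
  intro l _
  by_cases h : l = q
  · subst h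
    rw [if_pos rfl]
    have h1 : ∀ o : Ord (k + 6), ∑ e : Fin (k + 6 + 1) → ℤˣ, G x (word (.cons l o) e ρ l) =
        2 ^ (k + 6) * (G x (near l 1 ρ) + G x (near l (-1) ρ)) := fun o => sum_word_self l o ρ (G x)
    have h2 : Ek k (fun o => ∑ e : Fin (k + 6 + 1) → ℤˣ, G x (word (.cons l o) e ρ l)) =
        Ek k (fun _ => 2 ^ (k + 6) * (G x (near l 1 ρ) + G x (near l (-1) ρ))) := Ek_congr k h1
    refine h2.trans ?_
    rw [Ek_const, Um, G_near (k + 5), G_near (k + 5)]
    ring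
  · rw [if_neg h]
    have hne : q ≠ l := fun h' => h h'.symm
    have hi : l.succAbove (dr l q) = q := sa_dr hne
    unfold HE
    apply Ek_congr
    intro o
    have h3 := sum_word_other l o ρ (dr l q) (G x)
    rw [hi] at h3
    refine h3.trans ?_
    apply Finset.sum_congr rfl
    intro e' _
    have hw := word_ne_nil (n := k + 4) o e' (rm l ρ) (dr l q)
    have hc : ∀ y : Bool, (lt' ρ q l :: word o e' (rm l ρ) (dr l q)).count y = nl ρ q y := by
      intro y
      have := nl_succAbove ρ l (dr l q) y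
      rw [hi] at this
      rw [this, List.count_cons, count_word]
      by_cases h2 : lt' ρ q l = y
      · simp [h2, add_comm]
      · simp [h2]
    have hc' : ∀ y : Bool, (word o e' (rm l ρ) (dr l q) ++ [lt' ρ q l]).count y = nl ρ q y := by
      intro y
      rw [← hc y, List.count_append, List.count_cons, List.count_cons]
      simp
    unfold G cE
    rw [hc, hc, hc', hc', lst'_cons _ _ hw, lst'_append _ _ (by simp), fst'_append _ _ hw]
    rfl

/-- the letters in the two ambient orders -/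
theorem cE_pair (a b : ℕ) (ha : 1 ≤ a) (hb : 1 ≤ b) (f l : Bool) :
    6 * (2 : ℤ) ^ min a b - 48 ≤ cE (a - 1) b true false f l + cE (b - 1) a false true f l := by
  have h1 : (2 : ℤ) ^ min a b ≤ 2 ^ a := pow_le_pow_right₀ (by norm_num) (min_le_left _ _)
  have h2 : (2 : ℤ) ^ min a b ≤ 2 ^ b := pow_le_pow_right₀ (by norm_num) (min_le_right _ _)
  have h3 : (2 : ℤ) ^ a = 2 * 2 ^ (a - 1) := by
    rw [← pow_succ', Nat.sub_add_cancel ha]
  have h4 : (2 : ℤ) ^ b = 2 * 2 ^ (b - 1) := by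
    rw [← pow_succ', Nat.sub_add_cancel hb]
  unfold cE Gn
  cases f <;> cases l <;> simp <;> linarith

/-- the bound for a pair of letters -/
def Kp (α β : ℕ) (x y : Bool) : ℤ :=
  if x = y then 24 * (2 ^ (if x then β else α) - 2) else 6 * 2 ^ min α β - 48

theorem cE_Kp (α β : ℕ) (ha : 1 ≤ α) (hb : 1 ≤ β) (N : Bool → ℕ) (hN : N true = α)
    (hN' : N false = β) (x y f l : Bool) :
    Kp α β x y ≤ cE (N x - 1) (N (!x)) x y f l + cE (N y - 1) (N (!y)) y x f l := by
  cases x <;> cases y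
  · simp only [Kp, cE, Gn, Bool.not_false, hN]
    simp
    linarith
  · have := cE_pair α β ha hb f l
    simp only [Kp, Bool.not_false, Bool.not_true, hN, hN']
    simp
    linarith
  · have := cE_pair α β ha hb f l
    simp only [Kp, Bool.not_false, Bool.not_true, hN, hN']
    simp
    linarith
  · simp only [Kp, cE, Gn, Bool.not_true, hN']
    simp
    linarith

end Pool.Agent.K2L
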