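import Pool.Agent.K2L.Avg1

/-!
# Type 1 averages: the induction step, conclusion
-/

set_option autoImplicit false

open scoped BigOperators

namespace Pool.Agent.K2L

theorem nl_rm {k : ℕ} (σ : Fin (k + 8) → ℤˣ) (i j : Fin (k + 8)) (h : i ≠ j) (y : Bool) :
    nl σ i y = (if lt' σ i j = y then 1 else 0) + nl (rm j σ) (dr j i) y := by
  have := nl_succAbove σ j (dr j i) y
  rwa [sa_dr (n := k + 6) h] at this

/-- gain of the near word after the removal of `j` -/
noncomputable def rr {k : ℕ} (σ : Fin (k + 8) → ℤˣ) (i j : Fin (k + 8)) : ℤ :=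
  Gn (nl σ i (lt' σ i j) - 1) (nl σ i (!(lt' σ i j)))
    (decide (lt' (rm j σ) (dr j i) (nx (dr j i)) ≠ lt' σ i j ∧
      lt' (rm j σ) (dr j i) (pv (dr j i)) ≠ lt' σ i j))

/-- pair term -/
noncomputable def ff {k : ℕ} (σ : Fin (k + 8) → ℤˣ) (i j : Fin (k + 8)) (l : Fin (k + 7)) : ℤ :=
  if j ≠ i ∧ j.succAbove l ≠ i then
    HE k (rm l (rm j σ)) (dr l (dr j i))
      (cE (nl σ i (lt' σ i j) - 1) (nl σ i (!(lt' σ i j))) (lt' σ i j) (lt' σ i (j.succAbove l)))
  else 0

theorem GE_eq {k : ℕ} (σ : Fin (k + 8) → ℤˣ) (i j : Fin (k + 8)) (h : i ≠ j) :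
    GE (k + 1) (rm j σ) (dr j i) (lt' σ i j) = 2 * Um k * rr σ i j + ∑ l, ff σ i j l := by
  have hi : j.succAbove (dr j i) = i := sa_dr (n := k + 6) h
  have h1 : nl (rm j σ) (dr j i) (lt' σ i j) = nl σ i (lt' σ i j) - 1 := by
    have := nl_rm σ i j h (lt' σ i j)
    rw [if_pos rfl] at this
    omega
  have h2 : nl (rm j σ) (dr j i) (!(lt' σ i j)) = nl σ i (!(lt' σ i j)) := by
    have := nl_rm σ i j h (!(lt' σ i j))
    rw [if_neg (by cases lt' σ i j <;> simp), zero_add] at this
    exact this.symm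
  rw [GE_succ, h1, h2]
  have h3 : ∀ l : Fin (k + 7), (if l = dr j i then 2 * Um k * Gn (nl σ i (lt' σ i j) - 1)
      (nl σ i (!(lt' σ i j))) (decide (lt' (rm j σ) (dr j i) (nx (dr j i)) ≠ lt' σ i j ∧
        lt' (rm j σ) (dr j i) (pv (dr j i)) ≠ lt' σ i j))
      else HE k (rm l (rm j σ)) (dr l (dr j i)) (cE (nl σ i (lt' σ i j) - 1)
        (nl σ i (!(lt' σ i j))) (lt' σ i j) (lt' (rm j σ) (dr j i) l))) =
      (if l = dr j i then 2 * Um k * rr σ i j else 0) + ff σ i j l := by
    intro l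
    by_cases hl : l = dr j i
    · have : j.succAbove l = i := by rw [hl, hi]
      rw [if_pos hl, if_pos hl, ff, if_neg (by rintro ⟨_, h4⟩; exact h4 this), add_zero]
      rfl
    · have : j.succAbove l ≠ i := by
        intro h4
        apply hl
        apply Fin.succAbove_right_injective (p := j)
        rw [h4, hi]
      rw [if_neg hl, if_neg hl, ff, if_pos ⟨fun h5 => h h5.symm, this⟩, zero_add, lt'_rm, hi]
  rw [Finset.sum_congr rfl (fun l _ => h3 l), Finset.sum_add_distrib, Finset.sum_ite_eq' ]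
  simp

theorem ff_pair {k : ℕ} (σ : Fin (k + 8) → ℤˣ) (i j : Fin (k + 8)) (l : Fin (k + 7))
    (ha : 1 ≤ nl σ i true) (hb : 1 ≤ nl σ i false) :
    (if j ≠ i ∧ j.succAbove l ≠ i then
      Um k * Kp (nl σ i true) (nl σ i false) (lt' σ i j) (lt' σ i (j.succAbove l)) else 0) ≤
    ff σ i j l + ff σ i (j.succAbove l) (l.predAbove j) := by
  unfold ff
  rw [Fin.succAbove_succAbove_predAbove]
  by_cases h : j ≠ i ∧ j.succAbove l ≠ i
  · rw [if_pos h, if_pos h, if_pos ⟨h.2, h.1⟩, rm_swap,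
      dr_swap (n := k + 5) i j l (fun h' => h.1 h'.symm) (fun h' => h.2 h'.symm), HE_add]
    apply HE_lb
    intro f l'
    exact cE_Kp _ _ ha hb (nl σ i) rfl rfl _ _ _ _
  · have h' : ¬ (j.succAbove l ≠ i ∧ j ≠ i) := fun h2 => h ⟨h2.2, h2.1⟩
    rw [if_neg h, if_neg h, if_neg h', add_zero]

theorem sum_ff {k : ℕ} (σ : Fin (k + 8) → ℤˣ) (i : Fin (k + 8))
    (ha : 1 ≤ nl σ i true) (hb : 1 ≤ nl σ i false) :
    Um k * (24 * (nl σ i true : ℤ) * (nl σ i true - 1) * (2 ^ nl σ i false - 2) +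
      24 * (nl σ i false : ℤ) * (nl σ i false - 1) * (2 ^ nl σ i true - 2) +
      12 * (nl σ i true : ℤ) * nl σ i false * (2 ^ min (nl σ i true) (nl σ i false) - 8)) ≤
      2 * ∑ j, ∑ l, ff σ i j l := by
  have h1 := sum_swap (n := k + 6) (fun j l => ff σ i j l)
  have h2 : 2 * ∑ j, ∑ l, ff σ i j l =
      ∑ j : Fin (k + 8), ∑ l : Fin (k + 7), (ff σ i j l + ff σ i (j.succAbove l) (l.predAbove j)) := by
    simp only [Finset.sum_add_distrib]
    linarith
  rw [h2]
  have h3 : ∑ j : Fin (k + 8), ∑ l : Fin (k + 7), (if j ≠ i ∧ j.succAbove l ≠ i then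
      Um k * Kp (nl σ i true) (nl σ i false) (lt' σ i j) (lt' σ i (j.succAbove l)) else 0) ≤
      ∑ j : Fin (k + 8), ∑ l : Fin (k + 7), (ff σ i j l + ff σ i (j.succAbove l) (l.predAbove j)) :=
    Finset.sum_le_sum fun j _ => Finset.sum_le_sum fun l _ => ff_pair σ i j l ha hb
  refine le_trans (le_of_eq ?_) h3
  have h4 := sum_pairs σ i (fun x y => Um k * Kp (nl σ i true) (nl σ i false) x y)
  rw [h4]
  simp only [Kp]
  simp
  ring

/-- the step, in terms of lower bounds for the near words -/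
theorem step_core {k : ℕ} (IH : ∀ (σ : Fin (k + 7) → ℤˣ) (i : Fin (k + 7)), 0 ≤ Tk (k + 1) σ i)
    (σ : Fin (k + 8) → ℤˣ) (i : Fin (k + 8)) (ha : 1 ≤ nl σ i true) (hb : 1 ≤ nl σ i false)
    (rb : Fin (k + 8) → ℤ) (hrb : ∀ j, i ≠ j → rb j ≤ rr σ i j) (R LB : ℤ)
    (hR : ∑ j, (if j = i then 0 else rb j) = R)
    (h1 : LB ≤ D3 (near i 1 σ)) (h2 : LB ≤ D3 (near i (-1) σ))
    (hQ : 0 ≤ Q2 (nl σ i true) (nl σ i false) R LB) : 0 ≤ Tk (k + 2) σ i := by
  have hU := Um_nonneg k
  have e1 := Tk_succ (k + 1) σ i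
  have e2 : ∀ j : Fin (k + 8), (if j = i then 4 * ((k : ℤ) + 7) * Um k * LB else 0) +
      (2 * Um k * (if j = i then 0 else rb j) + ∑ l, ff σ i j l) ≤
      (if j = i then Um (k + 1) * (D3 (near i 1 σ) + D3 (near i (-1) σ))
      else 3 * Tk (k + 1) (rm j σ) (dr j i) + GE (k + 1) (rm j σ) (dr j i) (lt' σ i j)) := by
    intro j
    by_cases h : j = i
    · subst h
      rw [if_pos rfl, if_pos rfl, if_pos rfl, Um_succ]
      have h3 : ∑ l, ff σ j j l = 0 := by
        apply Finset.sum_eq_zero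
        intro l _
        rw [ff, if_neg (by simp)]
      rw [h3]
      have hk : (0 : ℤ) ≤ 2 * ((k : ℤ) + 7) * Um k := by positivity
      nlinarith [mul_le_mul_of_nonneg_left h1 hk, mul_le_mul_of_nonneg_left h2 hk]
    · rw [if_neg h, if_neg h, if_neg h, GE_eq σ i j (fun h' => h h'.symm)]
      have h3 := IH (rm j σ) (dr j i)
      have h4 := mul_le_mul_of_nonneg_left (hrb j (fun h' => h h'.symm))
        (by positivity : (0 : ℤ) ≤ 2 * Um k)
      linarith
  have e3 := Finset.sum_le_sum (fun j (_ : j ∈ Finset.univ) => e2 j)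
  rw [← e1] at e3
  have e4 : ∑ j : Fin (k + 8), ((if j = i then 4 * ((k : ℤ) + 7) * Um k * LB else 0) +
      (2 * Um k * (if j = i then 0 else rb j) + ∑ l, ff σ i j l)) =
      4 * ((k : ℤ) + 7) * Um k * LB + 2 * Um k * R + ∑ j, ∑ l, ff σ i j l := by
    rw [Finset.sum_add_distrib, Finset.sum_add_distrib, ← Finset.mul_sum, hR,
      Finset.sum_ite_eq' Finset.univ i]
    simp
    ring
  rw [e4] at e3
  have e5 := sum_ff σ i ha hb
  have e6 : ((nl σ i true : ℤ) + nl σ i false) = k + 7 := by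
    have := nl_total (m := k + 7) σ i
    exact_mod_cast this
  have e7 : 0 ≤ Um k * Q2 (nl σ i true) (nl σ i false) R LB := mul_nonneg hU hQ
  rw [Q2, e6] at e7
  have e3' : 4 * ((k : ℤ) + 7) * Um k * LB + 2 * Um k * R + ∑ j, ∑ l, ff σ i j l ≤
      Tk (k + 2) σ i := e3
  nlinarith

theorem Gn_mono (a b : ℕ) (p q : Bool) (h : q = true → p = true) : Gn a b p ≤ Gn a b q := by
  have h1 : (0 : ℤ) < 2 ^ a := by positivity
  have h2 : (1 : ℤ) ≤ 2 ^ b := one_le_pow₀ (by norm_num)
  unfold Gn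
  cases p <;> cases q <;> simp at h ⊢ <;> linarith

/-- ends of the near word after the removal of `j` -/
theorem ends_rm {k : ℕ} (σ : Fin (k + 8) → ℤˣ) (i j : Fin (k + 8)) (h : i ≠ j) :
    (j ≠ nx i → lt' (rm j σ) (dr j i) (nx (dr j i)) = lt' σ i (nx i)) ∧
    (j ≠ pv i → lt' (rm j σ) (dr j i) (pv (dr j i)) = lt' σ i (pv i)) := by
  have hi : j.succAbove (dr j i) = i := sa_dr (n := k + 6) h
  constructor
  · intro h1
    rw [lt'_rm, hi]
    have := succAbove_nx (n := k + 5) j (dr j i) (by rwa [hi])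
    rw [this, hi]
  · intro h1
    rw [lt'_rm, hi]
    have := succAbove_pv (n := k + 5) j (dr j i) (by rwa [hi])
    rw [this, hi]

/-- equal ends -/
theorem rr_same {k : ℕ} (σ : Fin (k + 8) → ℤˣ) (i j : Fin (k + 8)) (h : i ≠ j)
    (hyz : lt' σ i (nx i) = lt' σ i (pv i)) :
    Gn (nl σ i (lt' σ i j) - 1) (nl σ i (!(lt' σ i j)))
      (decide (lt' σ i j ≠ lt' σ i (nx i))) ≤ rr σ i j := by
  apply Gn_mono
  intro h1
  rw [decide_eq_true_eq] at h1 ⊢
  obtain ⟨e1, e2⟩ := ends_rm σ i j h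
  by_cases h2 : j = nx i
  · have h3 : j ≠ pv i := by rw [h2]; exact nx_ne_pv (n := k + 5) i
    rw [e2 h3] at h1
    rw [hyz]
    exact fun h4 => h1.2 h4.symm
  · rw [e1 h2] at h1
    exact fun h4 => h1.1 h4.symm

/-- different ends -/
theorem rr_diff {k : ℕ} (σ : Fin (k + 8) → ℤˣ) (i j : Fin (k + 8)) (h : i ≠ j)
    (hyz : lt' σ i (nx i) ≠ lt' σ i (pv i)) :
    Gn (nl σ i (lt' σ i j) - 1) (nl σ i (!(lt' σ i j))) (decide (j = nx i ∨ j = pv i)) ≤
      rr σ i j := by
  apply Gn_mono
  intro h1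
  rw [decide_eq_true_eq] at h1 ⊢
  obtain ⟨e1, e2⟩ := ends_rm σ i j h
  by_contra h2
  rw [not_or] at h2
  rw [e1 h2.1, e2 h2.2] at h1
  apply hyz
  cases hx : lt' σ i j <;> cases hy : lt' σ i (nx i) <;> cases hz : lt' σ i (pv i) <;>
    simp [hx, hy, hz] at h1 ⊢

theorem near_ends {k : ℕ} (σ : Fin (k + 8) → ℤˣ) (i : Fin (k + 8)) (y : Bool)
    (h1 : lt' σ i (nx i) = y) (h2 : lt' σ i (pv i) = y) (u : ℤˣ) :
    12 - 4 * 2 ^ nl σ i y + 2 * 2 ^ nl σ i (!y) ≤ D3 (near i u σ) := by
  have hne : (nrL i).map (lt' σ i) ≠ [] := by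
    intro h
    have h1 := count_near i (-1) σ true
    have h2 := count_near i (-1) σ false
    have h3 := nl_total (m := k + 7) σ i
    rw [near_neg, h] at h1 h2
    simp at h1 h2
    omega
  rcases Int.units_eq_one_or u with hu | hu
  · have := D3_ends (near i u σ) y (by rw [hu, near_one]; simpa using hne)
      (by rw [hu, near_one, fst'_reverse _ hne, nrL_lst (n := k + 6), h2])
      (by rw [hu, near_one, lst'_reverse _ hne, nrL_fst (n := k + 6), h1])
    rwa [count_near, count_near] at this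
  · have := D3_ends (near i u σ) y (by rw [hu, near_neg]; simpa using hne)
      (by rw [hu, near_neg, nrL_fst (n := k + 6), h1])
      (by rw [hu, near_neg, nrL_lst (n := k + 6), h2])
    rwa [count_near, count_near] at this

theorem near_lb {k : ℕ} (σ : Fin (k + 8) → ℤˣ) (i : Fin (k + 8)) (y : Bool) (u : ℤˣ) :
    12 - 6 * 2 ^ nl σ i y ≤ D3 (near i u σ) := by
  have := D3_lb (near i u σ) y
  rwa [count_near] at this

theorem step {k : ℕ} (IH : ∀ (σ : Fin (k + 7) → ℤˣ) (i : Fin (k + 7)), 0 ≤ Tk (k + 1) σ i)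
    (σ : Fin (k + 8) → ℤˣ) (i : Fin (k + 8)) : 0 ≤ Tk (k + 2) σ i := by
  have htot := nl_total (m := k + 7) σ i
  by_cases hmin : ∃ y, nl σ i y ≤ 1
  · obtain ⟨y, hy⟩ := hmin
    have h0 : Ek (k + 2) (fun _ => 0) ≤ Tk (k + 2) σ i := by
      apply Ek_mono
      intro o
      apply Finset.sum_nonneg
      intro e _
      have h1 := D3_lb (word o e σ i) y
      rw [count_word] at h1
      have h2 : (2 : ℤ) ^ nl σ i y ≤ 2 ^ 1 := pow_le_pow_right₀ (by norm_num) hy
      linarith
    rw [Ek_const, mul_zero] at h0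
    exact h0
  · push Not at hmin
    have ha := hmin true
    have hb := hmin false
    have hga : (2 : ℤ) ^ nl σ i true = 2 * 2 ^ (nl σ i true - 1) := by
      rw [← pow_succ', Nat.sub_add_cancel (by omega)]
    have hgb : (2 : ℤ) ^ nl σ i false = 2 * 2 ^ (nl σ i false - 1) := by
      rw [← pow_succ', Nat.sub_add_cancel (by omega)]
    by_cases hyz : lt' σ i (nx i) = lt' σ i (pv i)
    · -- equal ends
      cases hy : lt' σ i (nx i)
      · -- both `B`
        have hsum : ∑ j, (if j = i then 0 else Gn (nl σ i (lt' σ i j) - 1)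
            (nl σ i (!(lt' σ i j))) (decide (lt' σ i j ≠ lt' σ i (nx i)))) =
            R1 (nl σ i false) (nl σ i true) := by
          have := sum_letters σ i (fun x => Gn (nl σ i x - 1) (nl σ i (!x))
            (decide (x ≠ lt' σ i (nx i))))
          rw [this, hy]
          simp [Gn, R1]
          rw [hga]
          ring
        have hrb := fun j (h : i ≠ j) => rr_same σ i j h hyz
        rcases lt_or_ge (nl σ i true) (nl σ i false) with hlt | hle
        · refine step_core IH σ i (by omega) (by omega) _ hrb _ (12 - 6 * 2 ^ nl σ i true) hsum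
            (near_lb σ i true 1) (near_lb σ i true (-1)) ?_
          rw [Q2_symm]
          exact Q_case2 _ _ (by omega) hlt (by omega)
        · refine step_core IH σ i (by omega) (by omega) _ hrb _
            (12 - 4 * 2 ^ nl σ i false + 2 * 2 ^ nl σ i (!false)) hsum
            (near_ends σ i false hy (hyz ▸ hy) 1) (near_ends σ i false hy (hyz ▸ hy) (-1)) ?_
          rw [Q2_symm]
          exact Q_case1 _ _ (by omega) hle (by omega)
      · -- both `A`
        have hsum : ∑ j, (if j = i then 0 else Gn (nl σ i (lt' σ i j) - 1)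
            (nl σ i (!(lt' σ i j))) (decide (lt' σ i j ≠ lt' σ i (nx i)))) =
            R1 (nl σ i true) (nl σ i false) := by
          have := sum_letters σ i (fun x => Gn (nl σ i x - 1) (nl σ i (!x))
            (decide (x ≠ lt' σ i (nx i))))
          rw [this, hy]
          simp [Gn, R1]
          rw [hgb]
          ring
        have hrb := fun j (h : i ≠ j) => rr_same σ i j h hyz
        rcases lt_or_ge (nl σ i false) (nl σ i true) with hlt | hle
        · refine step_core IH σ i (by omega) (by omega) _ hrb _ (12 - 6 * 2 ^ nl σ i false) hsum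
            (near_lb σ i false 1) (near_lb σ i false (-1)) ?_
          exact Q_case2 _ _ (by omega) hlt (by omega)
        · refine step_core IH σ i (by omega) (by omega) _ hrb _
            (12 - 4 * 2 ^ nl σ i true + 2 * 2 ^ nl σ i (!true)) hsum
            (near_ends σ i true hy (hyz ▸ hy) 1) (near_ends σ i true hy (hyz ▸ hy) (-1)) ?_
          exact Q_case1 _ _ (by omega) hle (by omega)
    · -- different ends
      have hsum : ∑ j, (if j = i then 0 else Gn (nl σ i (lt' σ i j) - 1)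
          (nl σ i (!(lt' σ i j))) (decide (j = nx i ∨ j = pv i))) =
          R3 (nl σ i true) (nl σ i false) := by
        have h1 := sum_letters σ i (fun x => Gn (nl σ i x - 1) (nl σ i (!x)) false)
        have hnn : nx i ≠ i := nx_ne (n := k + 6) i
        have hpp : pv i ≠ i := pv_ne (n := k + 6) i
        have hnp : nx i ≠ pv i := nx_ne_pv (n := k + 5) i
        have h2 : ∀ j, (if j = i then 0 else Gn (nl σ i (lt' σ i j) - 1)
            (nl σ i (!(lt' σ i j))) (decide (j = nx i ∨ j = pv i))) =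
            (if j = i then 0 else (fun x => Gn (nl σ i x - 1) (nl σ i (!x)) false) (lt' σ i j)) -
            (if j = nx i then (fun x => Gn (nl σ i x - 1) (nl σ i (!x)) false -
              Gn (nl σ i x - 1) (nl σ i (!x)) true) (lt' σ i (nx i)) else 0) -
            (if j = pv i then (fun x => Gn (nl σ i x - 1) (nl σ i (!x)) false -
              Gn (nl σ i x - 1) (nl σ i (!x)) true) (lt' σ i (pv i)) else 0) := by
          intro j
          by_cases hj : j = i
          · subst hj
            simp [hnn.symm, hpp.symm]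
          · by_cases hj1 : j = nx i
            · subst hj1
              simp [hj, hnp]
            · by_cases hj2 : j = pv i
              · subst hj2
                simp [hj, hnp.symm]
              · simp [hj, hj1, hj2]
        rw [Finset.sum_congr rfl (fun j _ => h2 j), Finset.sum_sub_distrib,
          Finset.sum_sub_distrib, h1, Finset.sum_ite_eq' Finset.univ (nx i),
          Finset.sum_ite_eq' Finset.univ (pv i)]
        cases hy : lt' σ i (nx i) <;> cases hz : lt' σ i (pv i)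
        · exact absurd (hy.trans hz.symm) hyz
        · simp [Gn, R3]
          rw [hga, hgb]
          ring
        · simp [Gn, R3]
          rw [hga, hgb]
          ring
        · exact absurd (hy.trans hz.symm) hyz
      have hrb := fun j (h : i ≠ j) => rr_diff σ i j h hyz
      have hmn : ∀ u, 12 - 6 * (2 : ℤ) ^ min (nl σ i true) (nl σ i false) ≤ D3 (near i u σ) := by
        intro u
        rcases le_total (nl σ i true) (nl σ i false) with h | h
        · rw [min_eq_left h]; exact near_lb σ i true u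
        · rw [min_eq_right h]; exact near_lb σ i false u
      exact step_core IH σ i (by omega) (by omega) _ hrb _ _ hsum (hmn 1) (hmn (-1))
        (Q_case3' _ _ (by omega) (by omega) (by omega))

/-- all type 1 averages are nonnegative, given the two base cases -/
theorem avgD_of_base
    (h0 : ∀ (σ : Fin 6 → ℤˣ) (i : Fin 6),
      0 ≤ ((ordsO 0).map fun o => ∑ e : Fin 6 → ℤˣ, D3 (word o e σ i)).sum)
    (h1 : ∀ (σ : Fin 7 → ℤˣ) (i : Fin 7),
      0 ≤ ((ordsO 1).map fun o => ∑ e : Fin 7 → ℤˣ, D3 (word o e σ i)).sum)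
    (k : ℕ) (σ : Fin (k + 6) → ℤˣ) (i : Fin (k + 6)) :
    0 ≤ ((ordsO k).map fun o => ∑ e : Fin (k + 6) → ℤˣ, D3 (word o e σ i)).sum := by
  have key : ∀ k : ℕ, (∀ (σ : Fin (k + 6) → ℤˣ) (i : Fin (k + 6)), 0 ≤ Tk k σ i) ∧
      (∀ (σ : Fin (k + 7) → ℤˣ) (i : Fin (k + 7)), 0 ≤ Tk (k + 1) σ i) := by
    intro k
    induction k with
    | zero => exact ⟨h0, h1⟩
    | succ k ih => exact ⟨ih.2, fun σ i => step ih.2 σ i⟩
  exact (key k).1 σ i

end Pool.Agent.K2L
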