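import Pool.Agent.K2L.Words
import Pool.Agent.K2L.Law

/-!
# Type 1 averages: the words of an order with a new outermost line
-/

set_option autoImplicit false

open scoped BigOperators

namespace Pool.Agent.K2L

/-! ### the functional -/

/-- sum over the family of orders -/
def Ek (k : ℕ) (F : Ord (k + 6) → ℤ) : ℤ := ((ordsO k).map F).sum

theorem list_sum_map_add {α : Type*} (L : List α) (f g : α → ℤ) :
    (L.map fun a => f a + g a).sum = (L.map f).sum + (L.map g).sum := by
  induction L with
  | nil => simp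
  | cons a L ih => simp only [List.map_cons, List.sum_cons, ih]; ring

theorem list_sum_map_mul {α : Type*} (L : List α) (c : ℤ) (f : α → ℤ) :
    (L.map fun a => c * f a).sum = c * (L.map f).sum := by
  induction L with
  | nil => simp
  | cons a L ih => simp only [List.map_cons, List.sum_cons, ih]; ring

theorem list_sum_map_mono {α : Type*} (L : List α) (f g : α → ℤ) (h : ∀ a, f a ≤ g a) :
    (L.map f).sum ≤ (L.map g).sum := by
  induction L with
  | nil => simp
  | cons a L ih => simp only [List.map_cons, List.sum_cons]; exact add_le_add (h a) ih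

theorem list_sum_map_const {α : Type*} (L : List α) (c : ℤ) :
    (L.map fun _ => c).sum = (L.length : ℤ) * c := by
  induction L with
  | nil => simp
  | cons a L ih => simp only [List.map_cons, List.sum_cons, ih, List.length_cons]; push_cast; ring

theorem Ek_add (k : ℕ) (F F' : Ord (k + 6) → ℤ) : Ek k (fun o => F o + F' o) = Ek k F + Ek k F' :=
  list_sum_map_add _ _ _

theorem Ek_mul (k : ℕ) (c : ℤ) (F : Ord (k + 6) → ℤ) : Ek k (fun o => c * F o) = c * Ek k F :=
  list_sum_map_mul _ _ _

theorem Ek_mono (k : ℕ) {F F' : Ord (k + 6) → ℤ} (h : ∀ o, F o ≤ F' o) : Ek k F ≤ Ek k F' :=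
  list_sum_map_mono _ _ _ h

theorem Ek_const (k : ℕ) (c : ℤ) : Ek k (fun _ => c) = ((ordsO k).length : ℤ) * c :=
  list_sum_map_const _ _

theorem Ek_congr (k : ℕ) {F F' : Ord (k + 6) → ℤ} (h : ∀ o, F o = F' o) : Ek k F = Ek k F' := by
  have : F = F' := funext h
  rw [this]

theorem list_sum_flatMap {α β : Type*} (L : List α) (g : α → List β) (f : β → ℤ) :
    ((L.flatMap g).map f).sum = (L.map fun a => ((g a).map f).sum).sum := by
  induction L with
  | nil => simp
  | cons a L ih => simp only [List.flatMap_cons, List.map_append, List.sum_append, ih, List.map_cons,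
      List.sum_cons]

theorem sum_finRange {n : ℕ} (f : Fin n → ℤ) : ((List.finRange n).map f).sum = ∑ j, f j :=
  (Fin.sum_univ_def f).symm

theorem Ek_succ (k : ℕ) (F : Ord (k + 7) → ℤ) :
    Ek (k + 1) F = ∑ j : Fin (k + 7), Ek k (fun o => F (.cons j o)) := by
  show ((((List.finRange (k + 7)).flatMap fun l => (ordsO k).map fun o => Ord.cons l o)).map F).sum = _
  rw [list_sum_flatMap, sum_finRange]
  apply Finset.sum_congr rfl
  intro j _
  rw [List.map_map]
  rfl

theorem length_ordsO (k : ℕ) : (ordsO (k + 1)).length = (k + 7) * (ordsO k).length := by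
  have h := Ek_succ k (fun _ => (1 : ℤ))
  rw [Ek_const (k + 1)] at h
  simp only [Ek_const k, Finset.sum_const, Finset.card_univ, Fintype.card_fin, nsmul_eq_mul,
    mul_one] at h
  exact_mod_cast h

/-! ### sums over signs -/

theorem sum_units (f : ℤˣ → ℤ) : ∑ u : ℤˣ, f u = f 1 + f (-1) := by
  rw [show (Finset.univ : Finset ℤˣ) = {1, -1} from rfl]
  exact Finset.sum_pair (by decide)

theorem sum_units' (f : ℤˣ → ℤ) (c : ℤˣ) : ∑ u : ℤˣ, f u = f c + f (-c) := by
  rw [sum_units]
  rcases Int.units_eq_one_or c with h | h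
  · rw [h]
  · rw [h, neg_neg]; ring

theorem sum_signs {n : ℕ} (j : Fin (n + 1)) (F : (Fin (n + 1) → ℤˣ) → ℤ) :
    ∑ e : Fin (n + 1) → ℤˣ, F e =
      ∑ e' : Fin n → ℤˣ, ∑ u : ℤˣ, F (Fin.insertNth (α := fun _ => ℤˣ) j u e') := by
  rw [← Equiv.sum_comp (Fin.insertNthEquiv (fun _ : Fin (n + 1) => ℤˣ) j) F,
    Fintype.sum_prod_type, Finset.sum_comm]
  rfl

/-! ### the word -/

/-- the letter of the line `l` on the line `i` -/
def lt' {m : ℕ} (σ : Fin m → ℤˣ) (i l : Fin m) : Bool := decide (σ l = chi i l)

/-- removal of a line -/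
def rm {n : ℕ} {α : Type} (j : Fin (n + 1)) (σ : Fin (n + 1) → α) : Fin n → α :=
  fun k => σ (j.succAbove k)

theorem chi_succAbove {n : ℕ} (j : Fin (n + 1)) (a b : Fin n) :
    chi (j.succAbove a) (j.succAbove b) = chi a b := by
  unfold chi
  simp only [Fin.succAbove_lt_succAbove_iff]

theorem lt'_rm {n : ℕ} (σ : Fin (n + 1) → ℤˣ) (j : Fin (n + 1)) (a b : Fin n) :
    lt' (rm j σ) a b = lt' σ (j.succAbove a) (j.succAbove b) := by
  unfold lt' rm
  rw [chi_succAbove]

theorem word_self {n : ℕ} (j : Fin (n + 1)) (o : Ord n) (e σ : Fin (n + 1) → ℤˣ) :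
    word (.cons j o) e σ j = near j (e j) σ := by
  show Fin.insertNth (α := fun _ => List Bool) j (near j (e j) σ) _ j = _
  rw [Fin.insertNth_apply_same]

theorem word_other {n : ℕ} (j : Fin (n + 1)) (o : Ord n) (e σ : Fin (n + 1) → ℤˣ) (q : Fin n) :
    word (.cons j o) e σ (j.succAbove q) =
      if e j = chi (j.succAbove q) j then
        lt' σ (j.succAbove q) j :: word o (rm j e) (rm j σ) q
      else word o (rm j e) (rm j σ) q ++ [lt' σ (j.succAbove q) j] := by
  show Fin.insertNth (α := fun _ => List Bool) j (near j (e j) σ) _ (j.succAbove q) = _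
  rw [Fin.insertNth_apply_succAbove]
  rfl

/-- both sides of a new outermost line -/
theorem sum_word_other {n : ℕ} (j : Fin (n + 1)) (o : Ord n) (σ : Fin (n + 1) → ℤˣ) (q : Fin n)
    (F : List Bool → ℤ) :
    ∑ e : Fin (n + 1) → ℤˣ, F (word (.cons j o) e σ (j.succAbove q)) =
      ∑ e' : Fin n → ℤˣ, (F (lt' σ (j.succAbove q) j :: word o e' (rm j σ) q) +
        F (word o e' (rm j σ) q ++ [lt' σ (j.succAbove q) j])) := by
  rw [sum_signs j]
  apply Finset.sum_congr rfl
  intro e' _
  rw [sum_units' _ (chi (j.succAbove q) j)]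
  have hr : ∀ u : ℤˣ, rm j (Fin.insertNth (α := fun _ => ℤˣ) j u e') = e' := by
    intro u; funext k; unfold rm; rw [Fin.insertNth_apply_succAbove]
  have hne : - chi (j.succAbove q) j ≠ chi (j.succAbove q) j := by
    rcases Int.units_eq_one_or (chi (j.succAbove q) j) with h | h <;> rw [h] <;> decide
  rw [word_other, word_other, Fin.insertNth_apply_same, Fin.insertNth_apply_same, hr, hr,
    if_pos rfl, if_neg hne]

theorem sum_word_self {n : ℕ} (j : Fin (n + 1)) (o : Ord n) (σ : Fin (n + 1) → ℤˣ)
    (F : List Bool → ℤ) :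
    ∑ e : Fin (n + 1) → ℤˣ, F (word (.cons j o) e σ j) =
      2 ^ n * (F (near j 1 σ) + F (near j (-1) σ)) := by
  rw [sum_signs j]
  have h : ∀ e' : Fin n → ℤˣ, ∑ u : ℤˣ, F (word (.cons j o)
      (Fin.insertNth (α := fun _ => ℤˣ) j u e') σ j) = F (near j 1 σ) + F (near j (-1) σ) := by
    intro e'
    rw [sum_units, word_self, word_self, Fin.insertNth_apply_same, Fin.insertNth_apply_same]
  simp only [h, Finset.sum_const, Finset.card_univ, Fintype.card_fun, Fintype.card_units_int,
    Fintype.card_fin, nsmul_eq_mul]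
  push_cast
  ring

/-! ### counts -/

/-- number of the letters `y` on the line `i` -/
def nl {m : ℕ} (σ : Fin m → ℤˣ) (i : Fin m) (y : Bool) : ℕ :=
  ∑ l : Fin m, if l ≠ i ∧ lt' σ i l = y then 1 else 0

theorem nl_succAbove {n : ℕ} (σ : Fin (n + 1) → ℤˣ) (j : Fin (n + 1)) (q : Fin n) (y : Bool) :
    nl σ (j.succAbove q) y = (if lt' σ (j.succAbove q) j = y then 1 else 0) + nl (rm j σ) q y := by
  unfold nl
  rw [Fin.sum_univ_succAbove _ j]
  congr 1
  · have : j ≠ j.succAbove q := (Fin.succAbove_ne j q).symm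
    simp [this]
  · apply Finset.sum_congr rfl
    intro l _
    rw [lt'_rm]
    have : j.succAbove l ≠ j.succAbove q ↔ l ≠ q := by
      rw [Ne, Fin.succAbove_right_inj]
    simp only [this]

/-- the near list of lines -/
def nrL {n : ℕ} (j : Fin (n + 1)) : List (Fin (n + 1)) :=
  (List.finRange (n + 1)).filter (fun l => j < l) ++ (List.finRange (n + 1)).filter (fun l => l < j)

theorem near_neg {n : ℕ} (j : Fin (n + 1)) (σ : Fin (n + 1) → ℤˣ) :
    near j (-1) σ = (nrL j).map (lt' σ j) := by
  simp only [near, if_true]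
  rfl

theorem near_one {n : ℕ} (j : Fin (n + 1)) (σ : Fin (n + 1) → ℤˣ) :
    near j 1 σ = ((nrL j).map (lt' σ j)).reverse := by
  have : (1 : ℤˣ) ≠ -1 := by decide
  simp only [near, if_neg this]
  rfl

theorem count_filter_finRange {m : ℕ} (p : Fin m → Prop) [DecidablePred p] (f : Fin m → Bool)
    (y : Bool) : (((List.finRange m).filter fun l => p l).map f).count y =
      ∑ l : Fin m, if p l ∧ f l = y then 1 else 0 := by
  rw [Fin.sum_univ_def]
  induction List.finRange m with
  | nil => simp
  | cons a L ih =>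
    rw [List.filter_cons]
    by_cases h : p a
    · simp only [h, decide_true, if_true, List.map_cons, List.count_cons, ih, List.sum_cons,
        true_and]
      by_cases h2 : f a = y
      · simp [h2, add_comm]
      · simp [h2]
    · simp [h, ih]

theorem count_near {n : ℕ} (j : Fin (n + 1)) (u : ℤˣ) (σ : Fin (n + 1) → ℤˣ) (y : Bool) :
    (near j u σ).count y = nl σ j y := by
  have h : ((nrL j).map (lt' σ j)).count y = nl σ j y := by
    unfold nrL nl
    rw [List.map_append, List.count_append, count_filter_finRange, count_filter_finRange,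
      ← Finset.sum_add_distrib]
    apply Finset.sum_congr rfl
    intro l _
    rcases lt_trichotomy l j with h | h | h
    · have h1 : ¬ (j < l) := not_lt.2 h.le
      have h2 : l ≠ j := h.ne
      simp [h, h1, h2]
    · simp [h]
    · have h1 : ¬ (l < j) := not_lt.2 h.le
      have h2 : l ≠ j := h.ne'
      simp [h, h1, h2]
  rcases Int.units_eq_one_or u with hu | hu
  · rw [hu, near_one, List.count_reverse, h]
  · rw [hu, near_neg, h]

theorem count_word {n : ℕ} (o : Ord n) (y : Bool) : ∀ (e σ : Fin n → ℤˣ) (i : Fin n),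
    (word o e σ i).count y = nl σ i y := by
  induction o with
  | nil => intro e σ i; exact i.elim0
  | cons j o ih =>
    intro e σ i
    rcases Fin.eq_self_or_eq_succAbove j i with h | ⟨q, h⟩
    · rw [h, word_self, count_near]
    · rw [h, word_other, nl_succAbove]
      have hc := ih (rm j e) (rm j σ) q
      by_cases h1 : e j = chi (j.succAbove q) j
      · rw [if_pos h1, List.count_cons, hc]
        by_cases h2 : lt' σ (j.succAbove q) j = y
        · simp [h2, add_comm]
        · simp [h2]
      · rw [if_neg h1, List.count_append, hc]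
        by_cases h2 : lt' σ (j.succAbove q) j = y
        · simp [h2, add_comm]
        · simp [h2]

theorem nl_total {m : ℕ} (σ : Fin (m + 1) → ℤˣ) (i : Fin (m + 1)) : nl σ i true + nl σ i false = m := by
  unfold nl
  rw [← Finset.sum_add_distrib]
  have h : ∀ l : Fin (m + 1), ((if l ≠ i ∧ lt' σ i l = true then 1 else 0) +
      (if l ≠ i ∧ lt' σ i l = false then 1 else 0) : ℕ) = if l ≠ i then 1 else 0 := by
    intro l
    by_cases h1 : l = i
    · simp [h1]
    · cases h2 : lt' σ i l <;> simp [h1]
  simp only [h]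
  rw [Fin.sum_univ_succAbove _ i]
  simp

theorem word_ne_nil {n : ℕ} (o : Ord (n + 2)) (e σ : Fin (n + 2) → ℤˣ) (i : Fin (n + 2)) :
    word o e σ i ≠ [] := by
  intro h
  have h1 := count_word o true e σ i
  have h2 := count_word o false e σ i
  have h3 := nl_total σ i
  rw [h] at h1 h2
  simp at h1 h2
  omega

theorem length_word {n : ℕ} (o : Ord (n + 1)) (e σ : Fin (n + 1) → ℤˣ) (i : Fin (n + 1)) :
    (word o e σ i).length = n := by
  rw [length_eq_count, count_word, count_word, nl_total]

end Pool.Agent.K2L
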