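import Pool.Agent.K2L.Avg1a

/-!
# Type 1 averages: ends of the near words, removal of a line, pair symmetrisation
-/

set_option autoImplicit false

open scoped BigOperators

namespace Pool.Agent.K2L

/-! ### ends of the near words -/

theorem fst'_map {m : ℕ} (L : List (Fin m)) (h : L.Pairwise (· < ·)) (x : Fin m) (hx : x ∈ L)
    (hmin : ∀ y ∈ L, x ≤ y) (f : Fin m → Bool) : fst' (L.map f) = f x := by
  cases L with
  | nil => simp at hx
  | cons a L =>
    rw [List.mem_cons] at hx
    rcases hx with hx | hx
    · subst hx; simp [fst']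
    · have h1 := (List.pairwise_cons.1 h).1 x hx
      have h2 := hmin a (List.mem_cons_self)
      exact absurd h1 (not_lt.2 h2)

theorem lst'_cons (a : Bool) (w : List Bool) (hw : w ≠ []) : lst' (a :: w) = lst' w := by
  cases w with
  | nil => exact absurd rfl hw
  | cons b w =>
    show (a :: b :: w).getLastD true = (b :: w).getLastD true
    rw [List.getLastD_cons, List.getLastD_cons, List.getLastD_cons]

theorem lst'_map {m : ℕ} (L : List (Fin m)) (h : L.Pairwise (· < ·)) (x : Fin m) (hx : x ∈ L)
    (hmax : ∀ y ∈ L, y ≤ x) (f : Fin m → Bool) : lst' (L.map f) = f x := by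
  induction L with
  | nil => simp at hx
  | cons a L ih =>
    rw [List.pairwise_cons] at h
    by_cases hL : L = []
    · subst hL
      simp at hx
      subst hx
      simp [lst']
    · have hxL : x ∈ L := by
        rw [List.mem_cons] at hx
        rcases hx with hx | hx
        · exfalso
          obtain ⟨b, hb⟩ := List.exists_mem_of_ne_nil L hL
          have h1 := h.1 b hb
          have h2 := hmax b (List.mem_cons_of_mem _ hb)
          rw [hx] at h2
          exact absurd h1 (not_lt.2 h2)
        · exact hx
      rw [List.map_cons, lst'_cons _ _ (by simpa using hL)]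
      exact ih h.2 hxL (fun y hy => hmax y (List.mem_cons_of_mem _ hy))

theorem fst'_append (u w : List Bool) (hu : u ≠ []) : fst' (u ++ w) = fst' u := by
  cases u with
  | nil => exact absurd rfl hu
  | cons a u => rfl

theorem lst'_append (u w : List Bool) (hw : w ≠ []) : lst' (u ++ w) = lst' w := by
  induction u with
  | nil => rfl
  | cons a u ih =>
    rw [List.cons_append, lst'_cons _ _ (by simp [hw]), ih]

theorem fst'_reverse (w : List Bool) (hw : w ≠ []) : fst' w.reverse = lst' w := by
  induction w with
  | nil => exact absurd rfl hw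
  | cons a w ih =>
    by_cases h : w = []
    · subst h; rfl
    · rw [List.reverse_cons, fst'_append _ _ (by simpa using h), ih h, lst'_cons _ _ h]

theorem lst'_reverse (w : List Bool) (hw : w ≠ []) : lst' w.reverse = fst' w := by
  cases w with
  | nil => exact absurd rfl hw
  | cons a w =>
    rw [List.reverse_cons, lst'_append _ _ (by simp)]
    rfl

/-- cyclic successor -/
def nx {n : ℕ} (q : Fin (n + 1)) : Fin (n + 1) :=
  ⟨if q.val < n then q.val + 1 else 0, by split_ifs <;> omega⟩

/-- cyclic predecessor -/
def pv {n : ℕ} (q : Fin (n + 1)) : Fin (n + 1) :=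
  ⟨if q.val = 0 then n else q.val - 1, by have := q.isLt; split_ifs <;> omega⟩

theorem sorted_filter {m : ℕ} (p : Fin m → Prop) [DecidablePred p] :
    ((List.finRange m).filter fun l => p l).Pairwise (· < ·) :=
  (List.pairwise_lt_finRange m).filter _

theorem mem_filter' {m : ℕ} (p : Fin m → Prop) [DecidablePred p] (x : Fin m) :
    x ∈ (List.finRange m).filter (fun l => p l) ↔ p x := by
  simp

theorem nrL_fst {n : ℕ} (q : Fin (n + 2)) (f : Fin (n + 2) → Bool) :
    fst' ((nrL q).map f) = f (nx q) := by
  unfold nrL
  rw [List.map_append]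
  by_cases h : q.val < n + 1
  · have hv : (nx q).val = q.val + 1 := by simp [nx, h]
    have hm : nx q ∈ (List.finRange (n + 2)).filter (fun l => q < l) := by
      rw [mem_filter']; rw [Fin.lt_def, hv]; omega
    rw [fst'_append _ _ (by intro h0; rw [List.map_eq_nil_iff] at h0; rw [h0] at hm; simp at hm)]
    apply fst'_map _ (sorted_filter _) _ hm
    intro y hy
    rw [mem_filter', Fin.lt_def] at hy
    rw [Fin.le_def, hv]
    omega
  · have hq := q.isLt
    have hv : (nx q).val = 0 := by simp [nx, h]
    have hA : (List.finRange (n + 2)).filter (fun l => q < l) = [] := by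
      rw [List.filter_eq_nil_iff]
      intro l _
      have := l.isLt
      simp only [decide_eq_true_eq, Fin.lt_def]
      omega
    rw [hA]
    apply fst'_map _ (sorted_filter _)
    · rw [mem_filter', Fin.lt_def, hv]; omega
    · intro y _
      rw [Fin.le_def, hv]
      omega

theorem nrL_lst {n : ℕ} (q : Fin (n + 2)) (f : Fin (n + 2) → Bool) :
    lst' ((nrL q).map f) = f (pv q) := by
  unfold nrL
  rw [List.map_append]
  by_cases h : q.val = 0
  · have hv : (pv q).val = n + 1 := by simp [pv, h]
    have hB : (List.finRange (n + 2)).filter (fun l => l < q) = [] := by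
      rw [List.filter_eq_nil_iff]
      intro l _
      simp only [decide_eq_true_eq, Fin.lt_def]
      omega
    rw [hB, List.map_nil, List.append_nil]
    apply lst'_map _ (sorted_filter _)
    · rw [mem_filter', Fin.lt_def, hv]; omega
    · intro y _
      have := y.isLt
      rw [Fin.le_def, hv]
      omega
  · have hq := q.isLt
    have hv : (pv q).val = q.val - 1 := by simp [pv, h]
    have hm : pv q ∈ (List.finRange (n + 2)).filter (fun l => l < q) := by
      rw [mem_filter']; rw [Fin.lt_def, hv]; omega
    rw [lst'_append _ _ (by intro h0; rw [List.map_eq_nil_iff] at h0; rw [h0] at hm; simp at hm)]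
    apply lst'_map _ (sorted_filter _) _ hm
    intro y hy
    rw [mem_filter', Fin.lt_def] at hy
    rw [Fin.le_def, hv]
    omega

theorem nx_ne {n : ℕ} (q : Fin (n + 2)) : nx q ≠ q := by
  intro h
  have h1 := congrArg Fin.val h
  simp only [nx] at h1
  have := q.isLt
  split_ifs at h1 <;> omega

theorem pv_ne {n : ℕ} (q : Fin (n + 2)) : pv q ≠ q := by
  intro h
  have h1 := congrArg Fin.val h
  simp only [pv] at h1
  have := q.isLt
  split_ifs at h1 <;> omega

theorem nx_ne_pv {n : ℕ} (q : Fin (n + 3)) : nx q ≠ pv q := by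
  intro h
  have h1 := congrArg Fin.val h
  simp only [nx, pv] at h1
  have := q.isLt
  split_ifs at h1 <;> omega

theorem succAbove_val {n : ℕ} (j : Fin (n + 1)) (q : Fin n) :
    (j.succAbove q).val = if q.val < j.val then q.val else q.val + 1 := by
  unfold Fin.succAbove
  simp only [Fin.lt_def, Fin.val_castSucc]
  split_ifs <;> simp

theorem succAbove_nx {n : ℕ} (j : Fin (n + 3)) (q : Fin (n + 2)) (h : j ≠ nx (j.succAbove q)) :
    j.succAbove (nx q) = nx (j.succAbove q) := by
  have h1 : j.val ≠ (nx (j.succAbove q)).val := fun h' => h (Fin.ext h')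
  apply Fin.ext
  have hq := q.isLt
  have hj := j.isLt
  simp only [nx, succAbove_val] at *
  split_ifs at * <;> omega

theorem succAbove_pv {n : ℕ} (j : Fin (n + 3)) (q : Fin (n + 2)) (h : j ≠ pv (j.succAbove q)) :
    j.succAbove (pv q) = pv (j.succAbove q) := by
  have h1 : j.val ≠ (pv (j.succAbove q)).val := fun h' => h (Fin.ext h')
  apply Fin.ext
  have hq := q.isLt
  have hj := j.isLt
  simp only [pv, succAbove_val] at *
  split_ifs at * <;> omega

/-! ### removal -/

/-- the index of `i` after the removal of `j` -/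
noncomputable def dr {n : ℕ} (j i : Fin (n + 2)) : Fin (n + 1) :=
  if h : i ≠ j then (Fin.exists_succAbove_eq h).choose else 0

theorem sa_dr {n : ℕ} {j i : Fin (n + 2)} (h : i ≠ j) : j.succAbove (dr j i) = i := by
  unfold dr
  rw [dif_pos h]
  exact (Fin.exists_succAbove_eq h).choose_spec

theorem dr_sa {n : ℕ} (j : Fin (n + 2)) (q : Fin (n + 1)) : dr j (j.succAbove q) = q :=
  Fin.succAbove_right_injective (sa_dr (Fin.succAbove_ne j q))

/-- swapping the two outermost lines -/
theorem sum_swap {n : ℕ} (f : Fin (n + 2) → Fin (n + 1) → ℤ) :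
    ∑ j, ∑ l, f j l = ∑ j : Fin (n + 2), ∑ l : Fin (n + 1), f (j.succAbove l) (l.predAbove j) := by
  let s : Fin (n + 2) × Fin (n + 1) → Fin (n + 2) × Fin (n + 1) :=
    fun p => (p.1.succAbove p.2, p.2.predAbove p.1)
  have hs : Function.Involutive s := by
    rintro ⟨j, l⟩
    show ((j.succAbove l).succAbove (l.predAbove j), (l.predAbove j).predAbove (j.succAbove l)) = (j, l)
    rw [Fin.succAbove_succAbove_predAbove, Fin.predAbove_predAbove_succAbove]
  rw [← Fintype.sum_prod_type', ← Fintype.sum_prod_type']
  exact (Equiv.sum_comp (Function.Involutive.toPerm s hs) (fun p => f p.1 p.2)).symm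

theorem rm_swap {n : ℕ} {α : Type} (σ : Fin (n + 2) → α) (j : Fin (n + 2)) (l : Fin (n + 1)) :
    rm (l.predAbove j) (rm (j.succAbove l) σ) = rm l (rm j σ) := by
  funext k
  unfold rm
  rw [Fin.succAbove_succAbove_succAbove_predAbove]

theorem dr_swap {n : ℕ} (i j : Fin (n + 3)) (l : Fin (n + 2)) (h1 : i ≠ j)
    (h2 : i ≠ j.succAbove l) :
    dr (l.predAbove j) (dr (j.succAbove l) i) = dr l (dr j i) := by
  have h3 : dr j i ≠ l := by
    intro h
    apply h2
    rw [← h, sa_dr h1]
  have h4 : dr (j.succAbove l) i ≠ l.predAbove j := by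
    intro h
    apply h1
    have := sa_dr h2
    rw [h, Fin.succAbove_succAbove_predAbove] at this
    exact this.symm
  have e1 : j.succAbove (l.succAbove (dr l (dr j i))) = i := by rw [sa_dr h3, sa_dr h1]
  have e2 : (j.succAbove l).succAbove ((l.predAbove j).succAbove
      (dr (l.predAbove j) (dr (j.succAbove l) i))) = i := by rw [sa_dr h4, sa_dr h2]
  rw [Fin.succAbove_succAbove_succAbove_predAbove] at e2
  exact Fin.succAbove_right_injective (Fin.succAbove_right_injective (e2.trans e1.symm))

/-! ### sums over the letters -/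

theorem sum_letters {m : ℕ} (σ : Fin m → ℤˣ) (i : Fin m) (g : Bool → ℤ) :
    ∑ j : Fin m, (if j = i then 0 else g (lt' σ i j)) =
      (nl σ i true : ℤ) * g true + (nl σ i false : ℤ) * g false := by
  unfold nl
  push_cast
  rw [Finset.sum_mul, Finset.sum_mul, ← Finset.sum_add_distrib]
  apply Finset.sum_congr rfl
  intro j _
  by_cases h : j = i
  · simp [h]
  · cases h2 : lt' σ i j <;> simp [h]

theorem sum_pairs {n : ℕ} (σ : Fin (n + 1) → ℤˣ) (i : Fin (n + 1)) (K : Bool → Bool → ℤ) :
    ∑ j : Fin (n + 1), ∑ l : Fin n,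
      (if j ≠ i ∧ j.succAbove l ≠ i then K (lt' σ i j) (lt' σ i (j.succAbove l)) else 0) =
      (nl σ i true : ℤ) * ((nl σ i true : ℤ) * K true true + (nl σ i false : ℤ) * K true false -
        K true true) +
      (nl σ i false : ℤ) * ((nl σ i true : ℤ) * K false true + (nl σ i false : ℤ) * K false false -
        K false false) := by
  rw [← sum_letters σ i (fun x => (nl σ i true : ℤ) * K x true + (nl σ i false : ℤ) * K x false -
    K x x)]
  apply Finset.sum_congr rfl
  intro j _
  by_cases h : j = i
  · simp [h]
  · rw [if_neg h]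
    have h1 := sum_letters σ i (K (lt' σ i j))
    rw [Fin.sum_univ_succAbove _ j, if_neg h] at h1
    have h2 : ∑ l : Fin n, (if j ≠ i ∧ j.succAbove l ≠ i then
        K (lt' σ i j) (lt' σ i (j.succAbove l)) else 0) =
        ∑ l : Fin n, (if j.succAbove l = i then 0 else K (lt' σ i j) (lt' σ i (j.succAbove l))) := by
      apply Finset.sum_congr rfl
      intro l _
      by_cases h3 : j.succAbove l = i
      · simp [h3]
      · simp [h, h3]
    rw [h2]
    linarith

end Pool.Agent.K2L
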