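import Pool.Agent.K2L.Defs

/-!
# Kalai's inequality with two-dimensional Gale vectors: the main inequality

From the lower bound `top` for the number of the cells and the parity of the number of the tiles
containing a point, the sum of the local surpluses is at most `2 (9 N - 3 ^ m)`.
-/

set_option autoImplicit false

open scoped BigOperators

namespace Pool.Agent.K2L

/-! ### weights -/

theorem wt_eq {m : ℕ} (ξ : Fin m → ℤˣ) : wt ξ = ∏ l, (if ξ l = 1 then 2 else 1) := by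
  unfold wt
  rw [Finset.prod_ite]
  simp

theorem sum_prod_units {m : ℕ} (f : Fin m → ℤˣ → ℕ) :
    ∑ ξ : Fin m → ℤˣ, ∏ l, f l (ξ l) = ∏ l, ∑ u : ℤˣ, f l u := by
  rw [Finset.prod_univ_sum]
  rw [Fintype.piFinset_univ]

theorem sum_wt {m : ℕ} : ∑ ξ : Fin m → ℤˣ, wt ξ = 3 ^ m := by
  simp only [wt_eq]
  rw [sum_prod_units (fun _ u => if u = 1 then 2 else 1)]
  have : ∑ u : ℤˣ, (if u = 1 then 2 else 1) = 3 := by decide
  simp

theorem sum_wt_cond {m : ℕ} (i j : Fin m) (hij : i < j) (t σ : Fin m → ℤˣ) :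
    ∑ ξ : Fin m → ℤˣ, wt ξ * (if ∀ k, k ≠ i → k ≠ j → ξ k * t k = σ k then 1 else 0) =
      9 * 2 ^ (Finset.univ.filter fun l => l ≠ i ∧ l ≠ j ∧ σ l = t l).card := by
  have h1 : ∀ ξ : Fin m → ℤˣ,
      wt ξ * (if ∀ k, k ≠ i → k ≠ j → ξ k * t k = σ k then 1 else 0) =
        ∏ l, (if ξ l = 1 then 2 else 1) * (if l ≠ i → l ≠ j → ξ l * t l = σ l then 1 else 0) := by
    intro ξ
    rw [Finset.prod_mul_distrib, ← wt_eq, Finset.prod_boole]
    simp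
  simp only [h1]
  rw [sum_prod_units (fun l u => (if u = 1 then 2 else 1) *
    (if l ≠ i → l ≠ j → u * t l = σ l then 1 else 0))]
  have h2 : ∀ l, ∑ u : ℤˣ, (if u = 1 then 2 else 1) *
      (if l ≠ i → l ≠ j → u * t l = σ l then 1 else 0) =
      (if l = i ∨ l = j then 3 else 1) * (if l ≠ i ∧ l ≠ j ∧ σ l = t l then 2 else 1) := by
    intro l
    by_cases hi : l = i
    · simp only [hi]
      simp
    by_cases hj : l = j
    · simp only [hj]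
      simp
    simp only [hi, hj, or_self, if_false, one_mul, ne_eq, not_false_eq_true, true_and,
      forall_true_left]
    generalize σ l = a
    generalize t l = b
    revert a b
    decide
  simp only [h2]
  rw [Finset.prod_mul_distrib]
  congr 1
  · rw [Finset.prod_ite]
    have : (Finset.univ.filter fun x => x = i ∨ x = j) = {i, j} := by
      ext x; simp
    rw [this]
    simp [Finset.card_pair hij.ne]
  · rw [Finset.prod_ite]
    simp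

theorem prop2_congr {m : ℕ} (g : Fin m → ℝ × ℝ) (i j : Fin m) {σ σ' : Fin m → ℤˣ}
    (h : ∀ k, k ≠ i → k ≠ j → σ k = σ' k) : Prop2 g i j σ ↔ Prop2 g i j σ' := by
  unfold Prop2
  have : ∑ k ∈ Finset.univ.filter (fun k => k ≠ i ∧ k ≠ j), sr (σ k) • g k =
      ∑ k ∈ Finset.univ.filter (fun k => k ≠ i ∧ k ≠ j), sr (σ' k) • g k := by
    apply Finset.sum_congr rfl
    intro k hk
    rw [Finset.mem_filter] at hk
    rw [h k hk.2.1 hk.2.2]
  rw [this]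

open scoped Classical in
theorem sum_pair {m : ℕ} (g : Fin m → ℝ × ℝ) (r : Fin m → ℕ) (e : Fin m → ℤˣ) (i j : Fin m)
    (hij : i < j) :
    ∑ σ ∈ Finset.univ.filter (fun σ : Fin m → ℤˣ => σ i = 1 ∧ σ j = 1 ∧ Prop2 g i j σ),
      9 * 2 ^ ag r e σ i j =
    ∑ ξ : Fin m → ℤˣ, wt ξ * (if Prop2 g i j (fun k => ξ k * tau r e i j k) then 1 else 0) := by
  have h1 : ∀ σ : Fin m → ℤˣ, 9 * 2 ^ ag r e σ i j = ∑ ξ : Fin m → ℤˣ,
      wt ξ * (if ∀ k, k ≠ i → k ≠ j → ξ k * tau r e i j k = σ k then 1 else 0) := by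
    intro σ
    rw [sum_wt_cond i j hij (tau r e i j) σ]
    rfl
  simp only [h1]
  rw [Finset.sum_comm]
  apply Finset.sum_congr rfl
  intro ξ _
  rw [← Finset.mul_sum]
  congr 1
  rw [Finset.sum_boole]
  split_ifs with hP
  · set σ0 : Fin m → ℤˣ := fun k => if k = i ∨ k = j then 1 else ξ k * tau r e i j k with hσ0
    have : (((Finset.univ.filter (fun σ : Fin m → ℤˣ => σ i = 1 ∧ σ j = 1 ∧ Prop2 g i j σ)).filter
        fun σ => ∀ k, k ≠ i → k ≠ j → ξ k * tau r e i j k = σ k)) = {σ0} := by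
      ext σ
      simp only [Finset.mem_filter, Finset.mem_univ, true_and, Finset.mem_singleton]
      constructor
      · rintro ⟨⟨a, b, _⟩, c⟩
        funext k
        simp only [hσ0]
        by_cases hk : k = i ∨ k = j
        · rw [if_pos hk]
          rcases hk with rfl | rfl <;> assumption
        · rw [if_neg hk]
          push Not at hk
          rw [c k hk.1 hk.2]
      · rintro rfl
        refine ⟨⟨by simp [hσ0], by simp [hσ0], ?_⟩, ?_⟩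
        · rw [prop2_congr g i j (σ' := fun k => ξ k * tau r e i j k)]
          · exact hP
          · intro k hi hj
            simp [hσ0, hi, hj]
        · intro k hi hj
          simp [hσ0, hi, hj]
    rw [this]
    simp
  · have : (((Finset.univ.filter (fun σ : Fin m → ℤˣ => σ i = 1 ∧ σ j = 1 ∧ Prop2 g i j σ)).filter
        fun σ => ∀ k, k ≠ i → k ≠ j → ξ k * tau r e i j k = σ k)) = ∅ := by
      rw [Finset.filter_eq_empty_iff]
      intro σ hσ hc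
      rw [Finset.mem_filter] at hσ
      exact hP ((prop2_congr g i j (fun k hi hj => hc k hi hj)).mpr hσ.2.2.2)
    rw [this]
    simp

open scoped Classical in
/-- the weighted number of the pairs -/
noncomputable def T2 {m : ℕ} (g : Fin m → ℝ × ℝ) (r : Fin m → ℕ) (e : Fin m → ℤˣ) : ℕ :=
  ∑ p ∈ Finset.univ.filter (fun p : Fin m × Fin m => p.1 < p.2),
    ∑ σ ∈ Finset.univ.filter (fun σ : Fin m → ℤˣ => σ p.1 = 1 ∧ σ p.2 = 1 ∧ Prop2 g p.1 p.2 σ),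
      2 ^ ag r e σ p.1 p.2

open scoped Classical in
theorem nine_T2 {m : ℕ} (g : Fin m → ℝ × ℝ) (r : Fin m → ℕ) (e : Fin m → ℤˣ) :
    9 * T2 g r e = ∑ ξ : Fin m → ℤˣ, wt ξ * n2 g r e ξ := by
  unfold T2 n2
  rw [Finset.mul_sum]
  simp only [Finset.mul_sum]
  have h1 : ∀ ξ : Fin m → ℤˣ, wt ξ * (Finset.univ.filter fun p : Fin m × Fin m => p.1 < p.2 ∧
      Prop2 g p.1 p.2 (fun k => ξ k * tau r e p.1 p.2 k)).card =
      ∑ p ∈ Finset.univ.filter (fun p : Fin m × Fin m => p.1 < p.2),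
        wt ξ * (if Prop2 g p.1 p.2 (fun k => ξ k * tau r e p.1 p.2 k) then 1 else 0) := by
    intro ξ
    rw [← Finset.mul_sum, Finset.sum_boole, Finset.filter_filter]
    simp
  simp only [h1]
  rw [Finset.sum_comm]
  apply Finset.sum_congr rfl
  rintro ⟨i, j⟩ hp
  rw [Finset.mem_filter] at hp
  exact sum_pair g r e i j hp.2

/-! ### pairing -/

theorem sum_pairing {α : Type} [DecidableEq α] (T : Finset α) (ι : α → α) (p : α → Prop)
    [DecidablePred p] (h1 : ∀ x ∈ T, ι x ∈ T) (h2 : ∀ x ∈ T, ι (ι x) = x)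
    (h3 : ∀ x ∈ T, p (ι x) ↔ ¬ p x) (f : α → ℕ) :
    ∑ x ∈ T, f x = ∑ x ∈ T.filter p, (f x + f (ι x)) := by
  rw [Finset.sum_add_distrib, ← Finset.sum_filter_add_sum_filter_not T p f]
  congr 1
  symm
  apply Finset.sum_nbij' ι ι
  · intro x hx
    rw [Finset.mem_filter] at hx ⊢
    refine ⟨h1 x hx.1, ?_⟩
    rw [h3 x hx.1]
    exact not_not.mpr hx.2
  · intro x hx
    rw [Finset.mem_filter] at hx ⊢
    exact ⟨h1 x hx.1, (h3 x hx.1).mpr hx.2⟩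
  · intro x hx
    exact h2 x (Finset.mem_filter.mp hx).1
  · intro x hx
    exact h2 x (Finset.mem_filter.mp hx).1
  · intro x hx
    rfl

theorem mod_sum_le {α : Type} (T : Finset α) (f : α → ℕ) :
    (∑ x ∈ T, f x) % 2 ≤ ∑ x ∈ T, (f x % 2) := by
  rw [Finset.sum_nat_mod]
  exact Nat.mod_le _ _

/-- the opposite sign vector on an edge -/
def op1 {m : ℕ} (i : Fin m) (σ : Fin m → ℤˣ) : Fin m → ℤˣ := Function.update (-σ) i 1

theorem op1_apply {m : ℕ} (i : Fin m) (σ : Fin m → ℤˣ) {k : Fin m} (hk : k ≠ i) :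
    op1 i σ k = -σ k := by
  simp [op1, hk]

theorem tie1_congr {m : ℕ} (g : Fin m → ℝ × ℝ) (i : Fin m) {σ σ' : Fin m → ℤˣ}
    (h : ∀ k, k ≠ i → σ k = σ' k) : Tie1 g i σ ↔ Tie1 g i σ' := by
  unfold Tie1
  have : ∑ k ∈ Finset.univ.erase i, sr (σ k) • g k = ∑ k ∈ Finset.univ.erase i, sr (σ' k) • g k := by
    apply Finset.sum_congr rfl
    intro k hk
    rw [h k (Finset.ne_of_mem_erase hk)]
  rw [this]

theorem sr_neg (u : ℤˣ) : sr (-u) = - sr u := by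
  simp [sr]

theorem tie1_neg {m : ℕ} (g : Fin m → ℝ × ℝ) (i : Fin m) {σ : Fin m → ℤˣ}
    (h : Tie1 g i σ) : Tie1 g i (-σ) := by
  obtain ⟨a, ha, hs⟩ := h
  refine ⟨-a, by rwa [abs_neg], ?_⟩
  have : ∑ k ∈ Finset.univ.erase i, sr ((-σ) k) • g k = -∑ k ∈ Finset.univ.erase i, sr (σ k) • g k := by
    rw [← Finset.sum_neg_distrib]
    apply Finset.sum_congr rfl
    intro k _
    rw [Pi.neg_apply, sr_neg, neg_smul]
  rw [this, neg_smul, ← neg_add, hs, neg_zero]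

theorem tie0_neg {m : ℕ} (g : Fin m → ℝ × ℝ) {σ : Fin m → ℤˣ}
    (h : Tie0 g σ) : Tie0 g (-σ) := by
  unfold Tie0 at h ⊢
  have : ∑ k, sr ((-σ) k) • g k = -∑ k, sr (σ k) • g k := by
    rw [← Finset.sum_neg_distrib]
    apply Finset.sum_congr rfl
    intro k _
    rw [Pi.neg_apply, sr_neg, neg_smul]
  rw [this, h, neg_zero]

theorem W1_congr {m : ℕ} (r : Fin m → ℕ) (e : Fin m → ℤˣ) (i : Fin m) {σ σ' : Fin m → ℤˣ}
    (h : ∀ k, k ≠ i → σ k = σ' k) : W1 r e σ i = W1 r e σ' i := by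
  unfold W1
  congr 2
  apply Finset.filter_congr
  intro Z _
  apply and_congr_right
  intro hi
  have hk : ∀ a ∈ Z, σ a = σ' a := fun a ha => h a (fun hh => hi (hh ▸ ha))
  constructor
  · rintro ⟨⟨a, ha, h1⟩, ⟨b, hb, h2⟩, h3⟩
    refine ⟨⟨a, ha, by rw [← hk a ha]; exact h1⟩, ⟨b, hb, by rw [← hk b hb]; exact h2⟩, ?_⟩
    intro a ha b hb h4 h5
    exact h3 a ha b hb (by rw [hk a ha]; exact h4) (by rw [hk b hb]; exact h5)
  · rintro ⟨⟨a, ha, h1⟩, ⟨b, hb, h2⟩, h3⟩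
    refine ⟨⟨a, ha, by rw [hk a ha]; exact h1⟩, ⟨b, hb, by rw [hk b hb]; exact h2⟩, ?_⟩
    intro a ha b hb h4 h5
    exact h3 a ha b hb (by rw [← hk a ha]; exact h4) (by rw [← hk b hb]; exact h5)

theorem b1_congr {m : ℕ} (r : Fin m → ℕ) (e ξ : Fin m → ℤˣ) (i : Fin m) {σ σ' : Fin m → ℤˣ}
    (h : ∀ k, k ≠ i → σ k = σ' k) (s : ℤˣ) : b1 r e ξ σ i s = b1 r e ξ σ' i s := by
  unfold b1
  congr 1
  apply Finset.filter_congr
  intro l _
  apply and_congr_right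
  intro hi
  rw [h l hi]
  apply and_congr_left
  intro _
  apply forall_congr'
  intro k
  apply forall_congr'
  intro hk
  rw [h k hk]

section

variable {m : ℕ} (hm : 2 ≤ m) (g : Fin m → ℝ × ℝ) 
    (s : Fin m → (Fin m → ℤˣ) → ℤˣ) (h : (Fin m → ℤˣ) → (Fin m → ℤˣ)) (hs : Shift s h)
    (r : Fin m → ℕ) (e : Fin m → ℤˣ)

open scoped Classical in
/-- the ties on the line `i` -/
noncomputable def TT (g : Fin m → ℝ × ℝ) (i : Fin m) : Finset (Fin m → ℤˣ) :=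
  Finset.univ.filter (fun σ : Fin m → ℤˣ => σ i = 1 ∧ Tie1 g i σ)

open scoped Classical in
/-- the ties at vertices -/
noncomputable def TZ (g : Fin m → ℝ × ℝ) : Finset (Fin m → ℤˣ) :=
  Finset.univ.filter (fun σ : Fin m → ℤˣ => Tie0 g σ)

theorem mem_TT {g : Fin m → ℝ × ℝ} {i : Fin m} {σ : Fin m → ℤˣ} :
    σ ∈ TT g i ↔ σ i = 1 ∧ Tie1 g i σ := by
  classical
  simp [TT]

theorem mem_TZ {g : Fin m → ℝ × ℝ} {σ : Fin m → ℤˣ} : σ ∈ TZ g ↔ Tie0 g σ := by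
  classical
  simp [TZ]

theorem op1_mem {i : Fin m} {σ : Fin m → ℤˣ} (hσ : σ ∈ TT g i) : op1 i σ ∈ TT g i := by
  rw [mem_TT] at hσ ⊢
  refine ⟨by simp [op1], ?_⟩
  rw [tie1_congr g i (σ' := -σ) (fun k hk => op1_apply i σ hk)]
  exact tie1_neg g i hσ.2

theorem op1_op1 {i : Fin m} {σ : Fin m → ℤˣ} (hσ : σ ∈ TT g i) : op1 i (op1 i σ) = σ := by
  rw [mem_TT] at hσ
  funext k
  by_cases hk : k = i
  · subst hk
    simp [op1, hσ.1]
  · rw [op1_apply _ _ hk, op1_apply _ _ hk, neg_neg]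

theorem unit_cases (u : ℤˣ) : (-u = 1) ↔ ¬ (u = 1) := by
  revert u; decide

include hm in
theorem pair1 (i : Fin m) : ∃ R : Finset (Fin m → ℤˣ), ∀ f : (Fin m → ℤˣ) → ℕ,
    ∑ σ ∈ TT g i, f σ = ∑ σ ∈ R, (f σ + f (op1 i σ)) := by
  have : ∃ k : Fin m, k ≠ i := by
    have : Nontrivial (Fin m) := Fin.nontrivial_iff_two_le.mpr hm
    exact exists_ne i
  obtain ⟨k, hk⟩ := this
  refine ⟨(TT g i).filter (fun σ => σ k = 1), fun f => ?_⟩
  apply sum_pairing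
  · intro σ hσ
    exact op1_mem g hσ
  · intro σ hσ
    exact op1_op1 g hσ
  · intro σ _
    rw [op1_apply i σ hk]
    exact unit_cases _

include hm in
theorem pair0 : ∃ R : Finset (Fin m → ℤˣ), ∀ f : (Fin m → ℤˣ) → ℕ,
    ∑ σ ∈ TZ g, f σ = ∑ σ ∈ R, (f σ + f (-σ)) := by
  refine ⟨(TZ g).filter (fun σ => σ ⟨0, by omega⟩ = 1), fun f => ?_⟩
  apply sum_pairing
  · intro σ hσ
    rw [mem_TZ] at hσ ⊢
    exact tie0_neg g hσ
  · intro σ _
    exact neg_neg σ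
  · intro σ _
    exact unit_cases _

include hs in
theorem b1_op1 (ξ : Fin m → ℤˣ) (i : Fin m) (σ : Fin m → ℤˣ) :
    b1 r e ξ (op1 i σ) i (s i (op1 i σ)) = b1 r e ξ (-σ) i (-s i σ) := by
  rw [b1_congr r e ξ i (σ' := -σ) (fun k hk => op1_apply i σ hk)]
  rw [hs.s_inv i (op1 i σ) (-σ) (fun k hk => op1_apply i σ hk), hs.s_neg]

/-- the local bit on an edge -/
def B1 (r : Fin m → ℕ) (e ξ : Fin m → ℤˣ) (i : Fin m) (s : Fin m → (Fin m → ℤˣ) → ℤˣ)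
    (σ : Fin m → ℤˣ) : ℕ :=
  (b1 r e ξ σ i (s i σ) + b1 r e ξ (-σ) i (-s i σ)) % 2

/-- the local bit at a vertex -/
def B0 (r : Fin m → ℕ) (e ξ : Fin m → ℤˣ) (h : (Fin m → ℤˣ) → (Fin m → ℤˣ))
    (σ : Fin m → ℤˣ) : ℕ :=
  (b0 r e ξ σ (h σ) + b0 r e ξ (-σ) (-h σ)) % 2

include hm hs in
theorem mod_n1 (ξ : Fin m → ℤˣ) :
    2 * (n1 g r e ξ s % 2) ≤ ∑ i : Fin m, ∑ σ ∈ TT g i, B1 r e ξ i s σ := by
  have hi : ∀ i : Fin m, 2 * ((∑ σ ∈ TT g i, b1 r e ξ σ i (s i σ)) % 2) ≤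
      ∑ σ ∈ TT g i, B1 r e ξ i s σ := by
    intro i
    obtain ⟨R, hR⟩ := pair1 hm g i
    rw [hR, hR]
    have h1 : ∀ σ, b1 r e ξ σ i (s i σ) + b1 r e ξ (op1 i σ) i (s i (op1 i σ)) =
        b1 r e ξ σ i (s i σ) + b1 r e ξ (-σ) i (-s i σ) := by
      intro σ
      rw [b1_op1 s h hs r e]
    have h2 : ∀ σ, B1 r e ξ i s (op1 i σ) = B1 r e ξ i s σ := by
      intro σ
      unfold B1
      rw [b1_op1 s h hs r e]
      have h3 : s i (op1 i σ) = - s i σ := by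
        rw [hs.s_inv i (op1 i σ) (-σ) (fun k hk => op1_apply i σ hk), hs.s_neg]
      rw [h3, neg_neg]
      rw [b1_congr r e ξ i (σ := -op1 i σ) (σ' := σ)
        (fun k hk => by rw [Pi.neg_apply, op1_apply i σ hk, neg_neg])]
      rw [add_comm]
    simp only [h1, h2]
    have h4 : ∑ x ∈ R, (B1 r e ξ i s x + B1 r e ξ i s x) = 2 * ∑ x ∈ R, B1 r e ξ i s x := by
      rw [Finset.mul_sum]
      apply Finset.sum_congr rfl
      intro x _
      ring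
    rw [h4]
    apply Nat.mul_le_mul_left
    exact mod_sum_le _ _
  calc 2 * (n1 g r e ξ s % 2)
      ≤ 2 * ∑ i : Fin m, ((∑ σ ∈ TT g i, b1 r e ξ σ i (s i σ)) % 2) := by
        apply Nat.mul_le_mul_left
        exact mod_sum_le Finset.univ (fun i => ∑ σ ∈ TT g i, b1 r e ξ σ i (s i σ))
    _ = ∑ i : Fin m, 2 * ((∑ σ ∈ TT g i, b1 r e ξ σ i (s i σ)) % 2) := by
        rw [Finset.mul_sum]
    _ ≤ _ := Finset.sum_le_sum (fun i _ => hi i)

include hm hs in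
theorem mod_n0 (ξ : Fin m → ℤˣ) :
    2 * (n0 g r e ξ h % 2) ≤ ∑ σ ∈ TZ g, B0 r e ξ h σ := by
  obtain ⟨R, hR⟩ := pair0 hm g
  have e1 : n0 g r e ξ h = ∑ σ ∈ TZ g, b0 r e ξ σ (h σ) := rfl
  rw [e1, hR, hR]
  have h1 : ∀ σ, b0 r e ξ σ (h σ) + b0 r e ξ (-σ) (h (-σ)) =
      b0 r e ξ σ (h σ) + b0 r e ξ (-σ) (-h σ) := by
    intro σ
    rw [hs.h_neg]
  have h2 : ∀ σ, B0 r e ξ h (-σ) = B0 r e ξ h σ := by
    intro σ
    unfold B0
    rw [hs.h_neg, neg_neg, neg_neg, add_comm]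
  simp only [h1, h2]
  have h4 : ∑ x ∈ R, (B0 r e ξ h x + B0 r e ξ h x) = 2 * ∑ x ∈ R, B0 r e ξ h x := by
    rw [Finset.mul_sum]
    apply Finset.sum_congr rfl
    intro x _
    ring
  rw [h4]
  apply Nat.mul_le_mul_left
  exact mod_sum_le _ _

include hm hs in
theorem bound_xi (ξ : Fin m → ℤˣ) (hodd : Odd (n2 g r e ξ + n1 g r e ξ s + n0 g r e ξ h)) :
    2 ≤ 2 * n2 g r e ξ + (∑ i : Fin m, ∑ σ ∈ TT g i, B1 r e ξ i s σ) +
      ∑ σ ∈ TZ g, B0 r e ξ h σ := by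
  have h1 := mod_n1 hm g s h hs r e ξ
  have h0 := mod_n0 hm g s h hs r e ξ
  rw [Nat.odd_iff] at hodd
  omega

theorem sum_B1 (i : Fin m) (σ : Fin m → ℤˣ) :
    ∑ ξ : Fin m → ℤˣ, wt ξ * B1 r e ξ i s σ = C1 r e σ i (s i σ) := rfl

theorem sum_B0 (σ : Fin m → ℤˣ) :
    ∑ ξ : Fin m → ℤˣ, wt ξ * B0 r e ξ h σ = C0 r e σ (h σ) := rfl

include hm hs in
theorem bound_sum (hodd : ∀ ξ : Fin m → ℤˣ, Odd (n2 g r e ξ + n1 g r e ξ s + n0 g r e ξ h)) :
    2 * 3 ^ m ≤ 2 * (9 * T2 g r e) + (∑ i : Fin m, ∑ σ ∈ TT g i, C1 r e σ i (s i σ)) +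
      ∑ σ ∈ TZ g, C0 r e σ (h σ) := by
  rw [nine_T2]
  have h1 : (∑ i : Fin m, ∑ σ ∈ TT g i, C1 r e σ i (s i σ)) =
      ∑ ξ : Fin m → ℤˣ, wt ξ * ∑ i : Fin m, ∑ σ ∈ TT g i, B1 r e ξ i s σ := by
    simp only [Finset.mul_sum]
    rw [Finset.sum_comm]
    apply Finset.sum_congr rfl
    intro i _
    rw [Finset.sum_comm]
    rfl
  have h0 : (∑ σ ∈ TZ g, C0 r e σ (h σ)) =
      ∑ ξ : Fin m → ℤˣ, wt ξ * ∑ σ ∈ TZ g, B0 r e ξ h σ := by
    simp only [Finset.mul_sum]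
    rw [Finset.sum_comm]
    rfl
  rw [h1, h0, ← sum_wt, Finset.mul_sum, Finset.mul_sum, ← Finset.sum_add_distrib,
    ← Finset.sum_add_distrib]
  apply Finset.sum_le_sum
  intro ξ _
  have := Nat.mul_le_mul_left (wt ξ) (bound_xi hm g s h hs r e ξ (hodd ξ))
  nlinarith [this]

include hm in
theorem sum_W1 (i : Fin m) :
    ∑ σ ∈ TT g i, (W1 r e σ i + W1 r e (-σ) i) = 2 * ∑ σ ∈ TT g i, W1 r e σ i := by
  obtain ⟨R, hR⟩ := pair1 hm g i
  rw [hR, hR]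
  have h1 : ∀ σ, W1 r e (op1 i σ) i = W1 r e (-σ) i :=
    fun σ => W1_congr r e i (fun k hk => op1_apply i σ hk)
  have h2 : ∀ σ, W1 r e (-op1 i σ) i = W1 r e σ i :=
    fun σ => W1_congr r e i (fun k hk => by rw [Pi.neg_apply, op1_apply i σ hk, neg_neg])
  simp only [h1, h2]
  rw [Finset.mul_sum]
  apply Finset.sum_congr rfl
  intro x _
  ring

include hm in
theorem sum_W0 :
    ∑ σ ∈ TZ g, (W0 r e σ + W0 r e (-σ)) = 2 * ∑ σ ∈ TZ g, W0 r e σ := by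
  obtain ⟨R, hR⟩ := pair0 hm g
  rw [hR, hR]
  simp only [neg_neg]
  rw [Finset.mul_sum]
  apply Finset.sum_congr rfl
  intro x _
  ring

include hm hs in
/-- the main inequality from the lower bound `top` -/
theorem main_of_top
    (htop : T2 g r e + (∑ i : Fin m, ∑ σ ∈ TT g i, W1 r e σ i) + ∑ σ ∈ TZ g, W0 r e σ ≤ NG g)
    (hodd : ∀ ξ : Fin m → ℤˣ, Odd (n2 g r e ξ + n1 g r e ξ s + n0 g r e ξ h)) :
    (∑ i : Fin m, ∑ σ ∈ TT g i, X1 r e σ i (s i σ)) + ∑ σ ∈ TZ g, X0 r e σ (h σ) ≤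
      2 * (9 * (NG g : ℤ) - 3 ^ m) := by
  have hb := bound_sum hm g s h hs r e hodd
  have e1 : (∑ i : Fin m, ∑ σ ∈ TT g i, X1 r e σ i (s i σ)) =
      18 * ((∑ i : Fin m, ∑ σ ∈ TT g i, W1 r e σ i : ℕ) : ℤ) -
        ((∑ i : Fin m, ∑ σ ∈ TT g i, C1 r e σ i (s i σ) : ℕ) : ℤ) := by
    have hW : (18 : ℤ) * ((∑ i : Fin m, ∑ σ ∈ TT g i, W1 r e σ i : ℕ) : ℤ) =
        9 * ((∑ i : Fin m, ∑ σ ∈ TT g i, (W1 r e σ i + W1 r e (-σ) i) : ℕ) : ℤ) := by
      simp only [sum_W1 hm g r e]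
      rw [← Finset.mul_sum]
      push_cast
      ring
    rw [hW]
    push_cast
    simp only [X1]
    rw [Finset.mul_sum, ← Finset.sum_sub_distrib]
    apply Finset.sum_congr rfl
    intro i _
    rw [Finset.mul_sum, ← Finset.sum_sub_distrib]
  have e0 : (∑ σ ∈ TZ g, X0 r e σ (h σ)) =
      18 * ((∑ σ ∈ TZ g, W0 r e σ : ℕ) : ℤ) - ((∑ σ ∈ TZ g, C0 r e σ (h σ) : ℕ) : ℤ) := by
    have hW : (18 : ℤ) * ((∑ σ ∈ TZ g, W0 r e σ : ℕ) : ℤ) =
        9 * ((∑ σ ∈ TZ g, (W0 r e σ + W0 r e (-σ)) : ℕ) : ℤ) := by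
      rw [sum_W0 hm g r e]
      push_cast
      ring
    rw [hW]
    push_cast
    simp only [X0]
    rw [Finset.mul_sum, ← Finset.sum_sub_distrib]
  rw [e1, e0]
  zify at hb htop
  push_cast
  linarith

end

end Pool.Agent.K2L
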