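import Pool.Agent.K2L.TopDefs

/-!
The injection from pairs (vertex, free set) to cells: abstract part of the module TOP.
-/

set_option autoImplicit false
open scoped BigOperators
namespace Pool.Agent.K2L

noncomputable section

open scoped Classical

variable {m : ℕ}

theorem sr_cases (u : ℤˣ) : sr u = 1 ∨ sr u = -1 := by
  rcases Int.units_eq_one_or u with h | h
  · left; rw [h]; simp [sr]
  · right; rw [h]; simp [sr]

theorem sr_one : sr 1 = 1 := by simp [sr]

theorem abs_sr (u : ℤˣ) : |sr u| = 1 := by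
  rcases sr_cases u with h | h <;> rw [h] <;> simp

theorem sr_inj {u u' : ℤˣ} (h : sr u = sr u') : u = u' := by
  unfold sr at h
  have h1 : ((u : ℤ)) = (u' : ℤ) := by exact_mod_cast h
  exact Units.ext h1

/-- `v` is the vertex with free coordinates `F` and signs `σ` -/
def PV (g : Fin m → ℝ × ℝ) (F : Finset (Fin m)) (σ : Fin m → ℤˣ) (v : Fin m → ℝ) : Prop :=
  (∀ k, k ∉ F → v k = sr (σ k)) ∧ (∀ k ∈ F, |v k| < 1) ∧ ∑ k, v k • g k = 0

theorem PV.mem_iff {g : Fin m → ℝ × ℝ} {F : Finset (Fin m)} {σ : Fin m → ℤˣ} {v : Fin m → ℝ}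
    (h : PV g F σ v) (k : Fin m) : |v k| < 1 ↔ k ∈ F := by
  constructor
  · intro hk
    by_contra hF
    rw [h.1 k hF, abs_sr] at hk
    exact lt_irrefl _ hk
  · intro hk
    exact h.2.1 k hk

theorem PV.inj {g : Fin m → ℝ × ℝ} {F F' : Finset (Fin m)} {σ σ' : Fin m → ℤˣ} {v : Fin m → ℝ}
    (h : PV g F σ v) (h' : PV g F' σ' v) : F = F' ∧ ∀ k, k ∉ F → σ k = σ' k := by
  have hF : F = F' := by
    ext k
    rw [← h.mem_iff k, h'.mem_iff k]
  refine ⟨hF, fun k hk => ?_⟩
  apply sr_inj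
  rw [← h.1 k hk, h'.1 k (hF ▸ hk)]

/-- the vertex with free coordinates `F` and signs `σ`, if there is one -/
def vx (g : Fin m → ℝ × ℝ) (F : Finset (Fin m)) (σ : Fin m → ℤˣ) : Fin m → ℝ :=
  if h : ∃ v, PV g F σ v then h.choose else 0

theorem vx_spec {g : Fin m → ℝ × ℝ} {F : Finset (Fin m)} {σ : Fin m → ℤˣ}
    (h : ∃ v, PV g F σ v) : PV g F σ (vx g F σ) := by
  unfold vx
  rw [dif_pos h]
  exact h.choose_spec

/-- `v` is a vertex, it is the unique top of the closed face with free set `Z` and this face has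
interior points -/
def Vt (g : Fin m → ℝ × ℝ) (r : Fin m → ℕ) (e : Fin m → ℤˣ) (v : Fin m → ℝ)
    (Z : Finset (Fin m)) : Prop :=
  ∑ k, v k • g k = 0 ∧ (∀ k, |v k| ≤ 1) ∧ (∀ k, |v k| < 1 → k ∈ Z) ∧
    (∀ d : Fin m → ℝ, Feas g v d Z → d ≠ 0 → Down r e d) ∧
    ∃ d : Fin m → ℝ, ∑ k, d k • g k = 0 ∧ (∀ k, k ∉ Z → d k = 0) ∧
      ∀ k ∈ Z, |v k| = 1 → v k * d k < 0

/-- the cell of a vertex and a free set -/
def cel (v : Fin m → ℝ) (Z : Finset (Fin m)) : Fin m → ZMod 3 :=
  fun k => if k ∈ Z then 0 else if v k = 1 then 1 else 2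

theorem one_ne_zero3 : (1 : ZMod 3) ≠ 0 := by decide

theorem two_ne_zero3 : (2 : ZMod 3) ≠ 0 := by decide

theorem one_ne_two3 : (1 : ZMod 3) ≠ 2 := by decide

theorem cel_eq_zero (v : Fin m → ℝ) (Z : Finset (Fin m)) (k : Fin m) : cel v Z k = 0 ↔ k ∈ Z := by
  unfold cel
  by_cases hk : k ∈ Z
  · simp [hk]
  · by_cases h1 : v k = 1
    · simp [hk, h1]
    · simp only [hk, h1, if_false, iff_false]
      exact two_ne_zero3

theorem abs_eq_one_cases {x : ℝ} (h : |x| ≤ 1) (h' : ¬ |x| < 1) : x = 1 ∨ x = -1 := by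
  have h1 : |x| = 1 := le_antisymm h (not_lt.mp h')
  rcases abs_choice x with h2 | h2
  · left; rw [← h2, h1]
  · right
    rw [h2] at h1
    linarith

theorem cel_good {g : Fin m → ℝ × ℝ} {r : Fin m → ℕ} {e : Fin m → ℤˣ} {v : Fin m → ℝ}
    {Z : Finset (Fin m)} (h : Vt g r e v Z) :
    ∃ y : Fin m → ℝ, ∑ k, y k • g k = 0 ∧ GRD.Cell (cel v Z) y := by
  obtain ⟨h1, h2, h3, _, d, hd1, hd2, hd3⟩ := h
  -- for each coordinate a bound on the step
  have hb : ∀ k : Fin m, ∃ t : ℝ, 0 < t ∧ ∀ x : ℝ, 0 < x → x ≤ t → k ∈ Z → |v k + x * d k| < 1 := by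
    intro k
    by_cases hk : k ∈ Z
    · by_cases hv : |v k| < 1
      · refine ⟨(1 - |v k|) / (|d k| + 1), by
          apply div_pos (by linarith)
          have := abs_nonneg (d k)
          linarith, fun x hx hxt _ => ?_⟩
        have hp : 0 < |d k| + 1 := by have := abs_nonneg (d k); linarith
        have hx1 : x * (|d k| + 1) ≤ 1 - |v k| := by
          rwa [le_div_iff₀ hp] at hxt
        calc |v k + x * d k| ≤ |v k| + |x * d k| := abs_add_le _ _
          _ = |v k| + x * |d k| := by rw [abs_mul, abs_of_pos hx]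
          _ < |v k| + x * (|d k| + 1) := by nlinarith
          _ ≤ 1 := by linarith
      · have h4 : |v k| = 1 := le_antisymm (h2 k) (not_lt.mp hv)
        have h5 := hd3 k hk h4
        have hp : 0 < |d k| := by
          rw [abs_pos]
          intro h0
          rw [h0, mul_zero] at h5
          exact lt_irrefl _ h5
        refine ⟨1 / |d k|, by positivity, fun x hx hxt _ => ?_⟩
        have hx1 : x * |d k| ≤ 1 := by rwa [le_div_iff₀ hp] at hxt
        rcases abs_eq_one_cases (h2 k) hv with h6 | h6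
        · rw [h6, one_mul] at h5
          rw [abs_of_neg h5] at hx1
          rw [h6, abs_lt]
          constructor <;> nlinarith
        · rw [h6] at h5
          have h7 : 0 < d k := by linarith
          rw [abs_of_pos h7] at hx1
          rw [h6, abs_lt]
          constructor <;> nlinarith
    · exact ⟨1, one_pos, fun x _ _ hk' => absurd hk' hk⟩
  choose t ht0 ht using hb
  obtain ⟨x, hx0, hx⟩ : ∃ x : ℝ, 0 < x ∧ ∀ k, x ≤ t k := by
    by_cases hne : Nonempty (Fin m)
    · obtain ⟨k0, _, hk0⟩ := Finset.exists_min_image Finset.univ t ⟨hne.some, Finset.mem_univ _⟩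
      exact ⟨t k0, ht0 k0, fun k => hk0 k (Finset.mem_univ k)⟩
    · exact ⟨1, one_pos, fun k => absurd ⟨k⟩ hne⟩
  refine ⟨fun k => v k + x * d k, ?_, fun k => ⟨fun hk => ?_, fun hk => ?_⟩⟩
  · simp only [add_smul, Finset.sum_add_distrib, mul_smul, ← Finset.smul_sum, h1, hd1]
    simp
  · exact ht k x hx0 (hx k) ((cel_eq_zero v Z k).mp hk)
  · have hkZ : k ∉ Z := fun h => hk ((cel_eq_zero v Z k).mpr h)
    have hv : ¬ |v k| < 1 := fun h => hkZ (h3 k h)
    simp only [hd2 k hkZ, mul_zero, add_zero]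
    unfold cel
    rw [if_neg hkZ]
    rcases abs_eq_one_cases (h2 k) hv with h6 | h6
    · rw [if_pos h6, h6, GRD.sg_one]
    · have h7 : v k ≠ 1 := by rw [h6]; norm_num
      rw [if_neg h7, h6, GRD.sg_two]

theorem Down.not_neg {r : Fin m → ℕ} (hr : Function.Injective r) {e : Fin m → ℤˣ}
    {d : Fin m → ℝ} (h : Down r e d) (h' : Down r e (-d)) : False := by
  obtain ⟨l, hl, hl1, hl2⟩ := h
  obtain ⟨l', hl', hl1', hl2'⟩ := h'
  have h1 : l = l' := by
    apply hr
    rcases lt_trichotomy (r l) (r l') with h | h | h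
    · exfalso
      apply hl'
      have := hl1 l' h
      simp [this]
    · exact h
    · exfalso
      apply hl
      have := hl1' l h
      simpa using this
  subst h1
  simp only [Pi.neg_apply, mul_neg] at hl2'
  linarith

theorem cel_inj {g : Fin m → ℝ × ℝ} {r : Fin m → ℕ} (hr : Function.Injective r)
    {e : Fin m → ℤˣ} {v v' : Fin m → ℝ} {Z Z' : Finset (Fin m)} (h : Vt g r e v Z)
    (h' : Vt g r e v' Z') (hc : cel v Z = cel v' Z') : v = v' ∧ Z = Z' := by
  have hZ : Z = Z' := by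
    ext k
    rw [← cel_eq_zero v Z k, ← cel_eq_zero v' Z' k, hc]
  subst hZ
  obtain ⟨h1, h2, h3, h4, _⟩ := h
  obtain ⟨h1', h2', h3', h4', _⟩ := h'
  have hoff : ∀ k, k ∉ Z → v k = v' k := by
    intro k hk
    have hv : ¬ |v k| < 1 := fun h => hk (h3 k h)
    have hv' : ¬ |v' k| < 1 := fun h => hk (h3' k h)
    have hck := congrFun hc k
    unfold cel at hck
    rw [if_neg hk, if_neg hk] at hck
    rcases abs_eq_one_cases (h2 k) hv with h6 | h6 <;>
      rcases abs_eq_one_cases (h2' k) hv' with h6' | h6'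
    · rw [h6, h6']
    · rw [if_pos h6, if_neg (by rw [h6']; norm_num)] at hck
      exact absurd hck one_ne_two3
    · rw [if_neg (by rw [h6]; norm_num), if_pos h6'] at hck
      exact absurd hck.symm one_ne_two3
    · rw [h6, h6']
  refine ⟨?_, rfl⟩
  by_contra hne
  have hd : v' - v ≠ 0 := fun h => hne (sub_eq_zero.mp h).symm
  have hd' : v - v' ≠ 0 := fun h => hne (sub_eq_zero.mp h)
  have hF : ∀ w w' : Fin m → ℝ, ∑ k, w k • g k = 0 → ∑ k, w' k • g k = 0 → (∀ k, |w' k| ≤ 1) →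
      (∀ k, k ∉ Z → w k = w' k) → Feas g w (w' - w) Z := by
    intro w w' hw hw' hb ho
    refine ⟨?_, fun k hk => ?_, fun k hk => ?_, fun k hk => ?_⟩
    · simp only [Pi.sub_apply, sub_smul, Finset.sum_sub_distrib, hw, hw', sub_zero]
    · simp [ho k hk]
    · have := (abs_le.mp (hb k)).2
      simp only [Pi.sub_apply, hk]
      linarith
    · have := (abs_le.mp (hb k)).1
      simp only [Pi.sub_apply, hk]
      linarith
  have hD := h4 (v' - v) (hF v v' h1 h1' h2' hoff) hd
  have hD' := h4' (v - v') (hF v' v h1' h1 h2 fun k hk => (hoff k hk).symm) hd'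
  rw [show v - v' = -(v' - v) by ring] at hD'
  exact Down.not_neg hr hD hD'

end

end Pool.Agent.K2L
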