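import Pool.Agent.K2L.Defs

/-!
# Cyclic words: insertion lemma and lower bounds for `D3`
-/

set_option autoImplicit false

open scoped BigOperators

namespace Pool.Agent.K2L

/-- the weight of a level -/
def fw (n e : ℕ) : ℤ := 2 ^ e + 2 ^ (n - e)

theorem sgap_nil (n : ℕ) (p : Bool) (e : ℕ) : sgap n p e [] = 0 := rfl

theorem sgap_cons (n : ℕ) (p : Bool) (e : ℕ) (x : Bool) (w : List Bool) :
    sgap n p e (x :: w) = (if p = x then fw n e else 0) + sgap n x (if x then e + 1 else e - 1) w :=
  rfl

theorem fw_shift {n e : ℕ} (h : e ≤ n) : fw (n + 1) (e + 1) + fw (n + 1) e = 3 * fw n e := by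
  have h1 : n + 1 - (e + 1) = n - e := by omega
  have h2 : n + 1 - e = (n - e) + 1 := by omega
  rw [fw, fw, fw, h1, h2, pow_succ, pow_succ]
  ring

theorem count_cons_true (w : List Bool) :
    (true :: w).count true = w.count true + 1 ∧ (true :: w).count false = w.count false := by
  simp

theorem count_cons_false (w : List Bool) :
    (false :: w).count true = w.count true ∧ (false :: w).count false = w.count false + 1 := by
  simp

theorem length_eq_count (w : List Bool) : w.length = w.count true + w.count false := by
  induction w with
  | nil => rfl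
  | cons x w ih =>
    cases x
    · obtain ⟨h1, h2⟩ := count_cons_false w
      rw [h1, h2, List.length_cons, ih]; ring
    · obtain ⟨h1, h2⟩ := count_cons_true w
      rw [h1, h2, List.length_cons, ih]; ring

/-- shift of the levels -/
theorem sgap_shift (n : ℕ) (w : List Bool) : ∀ (p : Bool) (e : ℕ), w.count false ≤ e →
    e + w.count true ≤ n → sgap (n + 1) p (e + 1) w + sgap (n + 1) p e w = 3 * sgap n p e w := by
  induction w with
  | nil => intro p e _ _; simp [sgap_nil]
  | cons x w ih =>
    intro p e h1 h2
    rw [sgap_cons, sgap_cons, sgap_cons]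
    have he : e ≤ n := by omega
    have hf := fw_shift he
    cases x
    · obtain ⟨c1, c2⟩ := count_cons_false w
      rw [c1] at h2; rw [c2] at h1
      have h3 := ih false (e - 1) (by omega) (by omega)
      have h4 : e - 1 + 1 = e := by omega
      rw [h4] at h3
      simp only [Bool.false_eq_true, if_false, Nat.add_sub_cancel]
      split_ifs <;> linarith
    · obtain ⟨c1, c2⟩ := count_cons_true w
      rw [c1] at h2; rw [c2] at h1
      have h3 := ih true (e + 1) (by omega) (by omega)
      simp only [if_true]
      split_ifs <;> linarith

/-- the level after a word -/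
theorem sgap_append (n : ℕ) (x : Bool) (w : List Bool) : ∀ (p : Bool) (e : ℕ), w.count false ≤ e →
    sgap n p e (w ++ [x]) = sgap n p e w +
      if w.getLastD p = x then fw n (e + w.count true - w.count false) else 0 := by
  induction w with
  | nil =>
    intro p e _
    simp [sgap_cons, sgap_nil]
  | cons y w ih =>
    intro p e h1
    rw [List.cons_append, sgap_cons, sgap_cons]
    cases y
    · obtain ⟨c1, c2⟩ := count_cons_false w
      rw [c2] at h1
      rw [ih false _ (by simp; omega), c1, c2]
      have h4 : e - 1 + w.count true - w.count false = e + w.count true - (w.count false + 1) := by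
        omega
      simp only [Bool.false_eq_true, if_false, h4, List.getLastD_cons]
      ring
    · obtain ⟨c1, c2⟩ := count_cons_true w
      rw [c2] at h1
      rw [ih true _ (by simp; omega), c1, c2]
      have h4 : e + 1 + w.count true - w.count false = e + (w.count true + 1) - w.count false := by
        omega
      simp only [if_true, h4, List.getLastD_cons]
      ring

/-- first letter and last letter -/
def fst' (w : List Bool) : Bool := w.headD true
def lst' (w : List Bool) : Bool := w.getLastD true

/-- the gain: `a` letters equal to the inserted one, `b` other letters, `bad` = both ends differ -/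
def Gn (a b : ℕ) (bad : Bool) : ℤ := if bad then -(6 * (2 ^ a + 2)) else 6 * (2 ^ b - 2)

/-- gain of the insertion of `x` -/
def G (x : Bool) (w : List Bool) : ℤ :=
  Gn (w.count x) (w.count (!x)) (decide (fst' w ≠ x ∧ lst' w ≠ x))

theorem D3_eq (w : List Bool) : D3 w = sgap w.length (lst' w) (w.count false) w -
    3 * (2 ^ w.count true + 2 ^ w.count false - 4) := rfl

theorem sgap_first (n : ℕ) (p q : Bool) (e : ℕ) (w : List Bool) (hw : w ≠ []) :
    sgap n p e w = sgap n q e w + (if p = fst' w then fw n e else 0) -
      (if q = fst' w then fw n e else 0) := by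
  cases w with
  | nil => exact absurd rfl hw
  | cons x w =>
    rw [sgap_cons, sgap_cons]
    simp only [fst', List.headD_cons]
    ring

theorem insertion (x : Bool) (w : List Bool) (hw : w ≠ []) :
    D3 (x :: w) + D3 (w ++ [x]) = 3 * D3 w + G x w := by
  obtain ⟨A, hA⟩ : ∃ A, A = w.count true := ⟨_, rfl⟩
  obtain ⟨B, hB⟩ : ∃ B, B = w.count false := ⟨_, rfl⟩
  have hn : w.length = A + B := by rw [hA, hB]; exact length_eq_count w
  have hl1 : lst' (x :: w) = lst' w := by
    cases w with
    | nil => exact absurd rfl hw
    | cons y w => simp [lst']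
  have hl2 : lst' (w ++ [x]) = x := by simp [lst']
  have hc1 : ∀ y : Bool, (w ++ [x]).count y = (x :: w).count y := by
    intro y
    rw [List.count_append, List.count_cons, List.count_cons]
    simp
  have hlen1 : (x :: w).length = A + B + 1 := by rw [List.length_cons, hn]
  have hlen2 : (w ++ [x]).length = A + B + 1 := by rw [List.length_append, hn]; rfl
  have hlx : w.getLastD x = lst' w := by
    cases w with
    | nil => exact absurd rfl hw
    | cons y w => show (y :: w).getLastD x = (y :: w).getLastD true; rw [List.getLastD_cons, List.getLastD_cons]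
  rw [D3_eq, D3_eq, D3_eq, hl1, hl2, hc1, hc1, hlen1, hlen2, hn, sgap_cons,
    sgap_append _ _ _ _ _ (by rw [List.count_cons]; omega), hlx]
  have hG : G x w = Gn (w.count x) (w.count (!x)) (decide (fst' w ≠ x ∧ lst' w ≠ x)) := rfl
  rw [hG]
  cases x
  · -- a letter `B`
    obtain ⟨c1, c2⟩ := count_cons_false w
    rw [c1, c2, ← hA, ← hB]
    have hs := sgap_shift (A + B) w false B (by omega) (by omega)
    have hf := sgap_first (A + B) false (lst' w) B w hw
    have e1 : B + 1 + A - B = A + 1 := by omega
    have e2 : A + B - B = A := by omega
    have e3 : A + B + 1 - (B + 1) = A := by omega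
    have e4 : A + B + 1 - (A + 1) = B := by omega
    simp only [Bool.false_eq_true, if_false, Nat.add_sub_cancel, e1, Bool.not_false]
    rw [← hA]
    simp only [fw, e2, e3, e4, pow_succ] at *
    simp only [Gn, decide_eq_true_eq]
    cases hF : fst' w <;> cases hL : lst' w <;> simp [hF, hL] at * <;> linarith
  · obtain ⟨c1, c2⟩ := count_cons_true w
    rw [c1, c2, ← hA, ← hB]
    have hs := sgap_shift (A + B) w true B (by omega) (by omega)
    have hf := sgap_first (A + B) true (lst' w) B w hw
    have e1 : B + A - B = A := by omega
    have e2 : A + B - B = A := by omega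
    have e3 : A + B + 1 - A = B + 1 := by omega
    have e4 : A + B + 1 - B = A + 1 := by omega
    simp only [if_true, e1, Bool.not_true]
    rw [← hB]
    simp only [fw, e2, e3, e4, pow_succ] at *
    simp only [Gn, decide_eq_true_eq]
    cases hF : fst' w <;> cases hL : lst' w <;> simp [hF, hL] at * <;> linarith

/-! ### lower bounds -/

/-- sum over the gaps with both letters equal to `y` -/
def sg2 (y : Bool) (n : ℕ) : Bool → ℕ → List Bool → ℤ
  | _, _, [] => 0
  | p, e, x :: w => (if p = x ∧ x = y then fw n e else 0) +
      sg2 y n x (if x then e + 1 else e - 1) w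

theorem sgap_split (n : ℕ) (w : List Bool) : ∀ (p : Bool) (e : ℕ),
    sgap n p e w = sg2 true n p e w + sg2 false n p e w := by
  induction w with
  | nil => intro p e; simp [sg2, sgap_nil]
  | cons x w ih =>
    intro p e
    rw [sgap_cons, sg2, sg2, ih]
    cases x <;> cases p <;> simp <;> ring

theorem fw_nonneg (n e : ℕ) : 0 ≤ fw n e := by
  unfold fw; positivity

theorem sg2_nonneg (y : Bool) (n : ℕ) (w : List Bool) : ∀ (p : Bool) (e : ℕ), 0 ≤ sg2 y n p e w := by
  induction w with
  | nil => intro p e; simp [sg2]
  | cons x w ih =>
    intro p e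
    rw [sg2]
    have h1 := ih x (if x then e + 1 else e - 1)
    have h2 := fw_nonneg n e
    by_cases h : p = x ∧ x = y
    · rw [if_pos h]; exact add_nonneg h2 h1
    · rw [if_neg h, zero_add]; exact h1

/-- potential -/
def gp (n e : ℕ) : ℤ := 2 ^ e - 2 ^ (n + 1 - e)

theorem gp_succ {n e : ℕ} (h : e ≤ n) : gp n (e + 1) = gp n e + fw n e := by
  have h1 : n + 1 - (e + 1) = n - e := by omega
  have h2 : n + 1 - e = (n - e) + 1 := by omega
  rw [gp, gp, fw, h1, h2, pow_succ, pow_succ]
  ring

theorem sg2_diff (n : ℕ) (w : List Bool) : ∀ (p : Bool) (e : ℕ), w.count false ≤ e →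
    e + w.count true ≤ n → sg2 true n p e w - sg2 false n p e w =
      gp n (e + w.count true - w.count false) - gp n e - (if p = false then fw n e else 0) +
        (if w.getLastD p = false then fw n (e + w.count true - w.count false) else 0) := by
  induction w with
  | nil => intro p e _ _; simp [sg2]
  | cons x w ih =>
    intro p e h1 h2
    rw [sg2, sg2]
    cases x
    · obtain ⟨c1, c2⟩ := count_cons_false w
      rw [c1] at h2; rw [c2] at h1
      have h3 := ih false (e - 1) (by omega) (by omega)
      have h4 : e - 1 + w.count true - w.count false = e + w.count true - (w.count false + 1) := by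
        omega
      have h5 : gp n e = gp n (e - 1) + fw n (e - 1) := by
        have := gp_succ (n := n) (e := e - 1) (by omega)
        rwa [show e - 1 + 1 = e by omega] at this
      rw [h4] at h3
      rw [c1, c2]
      simp only [Bool.false_eq_true, if_false, List.getLastD_cons, if_true, and_true, and_false] at *
      split_ifs at * <;> linarith
    · obtain ⟨c1, c2⟩ := count_cons_true w
      rw [c1] at h2; rw [c2] at h1
      have h3 := ih true (e + 1) (by omega) (by omega)
      have h4 : e + 1 + w.count true - w.count false = e + (w.count true + 1) - w.count false := by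
        omega
      have h5 := gp_succ (n := n) (e := e) (by omega)
      rw [h4] at h3
      rw [c1, c2]
      simp only [Bool.true_eq_false, if_false, List.getLastD_cons, if_true, and_true, and_false] at *
      cases p <;> simp only [Bool.false_eq_true, Bool.true_eq_false, if_false, if_true] at * <;>
        linarith

/-- the number of gaps between equal letters `A` minus the same for `B` -/
theorem sg2_cyclic (w : List Bool) :
    sg2 true w.length (lst' w) (w.count false) w - sg2 false w.length (lst' w) (w.count false) w =
      3 * (2 ^ w.count true - 2 ^ w.count false) := by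
  rcases w with _ | ⟨x, w⟩
  · simp [sg2]
  obtain ⟨u, hu⟩ : ∃ u, u = x :: w := ⟨_, rfl⟩
  rw [← hu]
  have hne : u ≠ [] := by rw [hu]; simp
  have hn : u.length = u.count true + u.count false := length_eq_count u
  rw [sg2_diff _ _ _ _ le_rfl (by omega)]
  have hl : u.getLastD (lst' u) = lst' u := by
    rw [hu]
    show (x :: w).getLastD ((x :: w).getLastD true) = (x :: w).getLastD true
    rw [List.getLastD_cons, List.getLastD_cons]
  rw [hl, hn]
  have e1 : u.count false + u.count true - u.count false = u.count true := by omega
  have e2 : u.count true + u.count false + 1 - u.count true = u.count false + 1 := by omega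
  have e3 : u.count true + u.count false + 1 - u.count false = u.count true + 1 := by omega
  have e4 : u.count true + u.count false - u.count true = u.count false := by omega
  have e5 : u.count true + u.count false - u.count false = u.count true := by omega
  simp only [gp, fw, e1, e2, e3, e4, e5, pow_succ]
  split_ifs <;> ring

theorem D3_A (w : List Bool) : D3 w =
    12 - 6 * 2 ^ w.count true + 2 * sg2 true w.length (lst' w) (w.count false) w := by
  have h1 := sg2_cyclic w
  rw [D3_eq, sgap_split]
  linarith

theorem D3_B (w : List Bool) : D3 w =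
    12 - 6 * 2 ^ w.count false + 2 * sg2 false w.length (lst' w) (w.count false) w := by
  have h1 := sg2_cyclic w
  rw [D3_eq, sgap_split]
  linarith

theorem D3_lb (w : List Bool) (y : Bool) : 12 - 6 * 2 ^ w.count y ≤ D3 w := by
  cases y
  · rw [D3_B]
    have := sg2_nonneg false w.length w (lst' w) (w.count false)
    linarith
  · rw [D3_A]
    have := sg2_nonneg true w.length w (lst' w) (w.count false)
    linarith

theorem D3_ends (w : List Bool) (y : Bool) (hw : w ≠ []) (h1 : fst' w = y) (h2 : lst' w = y) :
    12 - 4 * 2 ^ w.count y + 2 * 2 ^ w.count (!y) ≤ D3 w := by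
  obtain ⟨A, hA⟩ : ∃ A, A = w.count true := ⟨_, rfl⟩
  obtain ⟨B, hB⟩ : ∃ B, B = w.count false := ⟨_, rfl⟩
  have hn : w.length = A + B := by rw [hA, hB]; exact length_eq_count w
  have key : fw (A + B) B ≤ sg2 y w.length (lst' w) (w.count false) w := by
    cases w with
    | nil => exact absurd rfl hw
    | cons x w =>
      rw [sg2, h2, hn, ← hB]
      have hx : x = y := by simpa [fst'] using h1
      have := sg2_nonneg y (A + B) w x (if x then B + 1 else B - 1)
      rw [if_pos ⟨hx.symm, hx⟩]
      linarith
  have e5 : A + B - B = A := by omega
  rw [fw, e5] at key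
  cases y
  · rw [D3_B, Bool.not_false, ← hA, ← hB]
    rw [← hB] at key
    linarith
  · rw [D3_A, Bool.not_true, ← hA, ← hB]
    rw [← hB] at key
    linarith

end Pool.Agent.K2L
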